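import Pool.Agent.helper31.TS.Defs

/-!
# TS: basic facts
-/

set_option autoImplicit false

open Finset

namespace Pool.Agent.TS

variable {E V : Type}

theorem inv_self {α : Type*} (f : Equiv.Perm α) (x : α) : f⁻¹ (f x) = x := f.symm_apply_apply x

theorem self_inv {α : Type*} (f : Equiv.Perm α) (x : α) : f (f⁻¹ x) = x := f.apply_symm_apply x

namespace Tri

variable (T : Tri E V)

/-- the next edge which leaves the same vertex -/
def rho : Equiv.Perm E := T.b * T.a⁻¹

def kap : Equiv.Perm E := T.a⁻¹ * T.b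

def kap2 : Equiv.Perm E := T.b * T.a * T.b

theorem a_a (e : E) : T.a (T.a e) = T.a⁻¹ e := by
  rw [Equiv.Perm.eq_inv_iff_eq, T.a_cube]

theorem b_b (e : E) : T.b (T.b e) = T.b⁻¹ e := by
  rw [Equiv.Perm.eq_inv_iff_eq, T.b_cube]

theorem a_inv_inv (e : E) : T.a⁻¹ (T.a⁻¹ e) = T.a e := by
  rw [Equiv.Perm.inv_eq_iff_eq, T.a_a]

theorem b_inv_inv (e : E) : T.b⁻¹ (T.b⁻¹ e) = T.b e := by
  rw [Equiv.Perm.inv_eq_iff_eq, T.b_b]

theorem rho_apply (e : E) : T.rho e = T.b (T.a⁻¹ e) := rfl
theorem kap_apply (e : E) : T.kap e = T.a⁻¹ (T.b e) := rfl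
theorem kap2_apply (e : E) : T.kap2 e = T.b (T.a (T.b e)) := rfl
theorem rho_a (e : E) : T.rho (T.a e) = T.b e := by rw [rho_apply, inv_self]

/-- `kap2 = rho kap` -/
theorem kap2_eq (e : E) : T.kap2 e = T.rho (T.kap e) := by
  rw [kap2_apply, rho_apply, kap_apply, a_inv_inv]

/-- `a kap = rho a` -/
theorem a_kap (e : E) : T.a (T.kap e) = T.rho (T.a e) := by
  rw [kap_apply, self_inv, rho_a]

/-- `b⁻¹ kap2 = rho⁻¹ b⁻¹` -/
theorem binv_kap2 (e : E) : T.b⁻¹ (T.kap2 e) = T.rho⁻¹ (T.b⁻¹ e) := by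
  rw [kap2_apply, inv_self, Equiv.Perm.eq_inv_iff_eq, rho_a, b_b]

theorem tail_rho (e : E) : T.tail (T.rho e) = T.tail e := by
  rw [T.tail_eq]
  exact (Equiv.Perm.sameCycle_apply_left (f := T.b * T.a⁻¹)).2 (Equiv.Perm.SameCycle.refl _ _)

theorem tail_b (e : E) : T.tail (T.b e) = T.tail (T.a e) := by
  rw [← rho_a, tail_rho]

theorem tail_rho_inv (e : E) : T.tail (T.rho⁻¹ e) = T.tail e := by
  have h := T.tail_rho (T.rho⁻¹ e)
  rw [self_inv] at h
  exact h.symm

theorem tail_kap2 (e : E) : T.tail (T.kap2 e) = T.tail (T.kap e) := by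
  rw [kap2_eq, tail_rho]

/-- a function on the vertices which is constant along the edges is constant -/
theorem const_of {β : Type*} (f : V → β) (h : ∀ e, f (T.tail (T.a e)) = f (T.tail e)) (v w : V) :
    f v = f w := by
  obtain ⟨e, rfl⟩ := T.tail_surj v
  obtain ⟨e', rfl⟩ := T.tail_surj w
  have h1 := T.conn {x | f (T.tail x) = f (T.tail e')} ⟨e', rfl⟩ (by
    intro x hx
    have hx' : f (T.tail x) = f (T.tail e') := hx
    exact ⟨(h x).trans hx', by
      show f (T.tail (T.b x)) = _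
      rw [tail_b, h x, hx']⟩)
  have h2 : e ∈ {x | f (T.tail x) = f (T.tail e')} := by rw [h1]; trivial
  exact h2

section deg

variable [Fintype E] [DecidableEq V]

/-- the number of edges which leave `v` (the number of white triangles at `v`) -/
def deg (v : V) : ℕ := #{e : E | T.tail e = v}

theorem deg_pos (v : V) : 0 < T.deg v := by
  obtain ⟨e, he⟩ := T.tail_surj v
  exact card_pos.2 ⟨e, by simp [he]⟩

theorem sum_fiber [Fintype V] {M : Type*} [AddCommMonoid M] (g : E → M) :
    ∑ v, ∑ e with T.tail e = v, g e = ∑ e, g e := by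
  rw [← sum_fiberwise univ T.tail g]

theorem sum_deg [Fintype V] : ∑ v, T.deg v = Fintype.card E := by
  have h := T.sum_fiber (fun _ => (1 : ℕ))
  simp only [sum_const, smul_eq_mul, mul_one] at h
  exact h

/-- the class of a vertex in `A_W` -/
def cls (v : V) : T.Grp := QuotientAddGroup.mk (Pi.single v 1)

omit [Fintype E] in
/-- the relation of the white triangle of `e` -/
theorem cls_rel (e : E) : T.cls (T.tail e) + T.cls (T.tail (T.a e)) + T.cls (T.tail (T.a⁻¹ e)) = 0 := by
  rw [← a_a]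
  have h : (QuotientAddGroup.mk (T.rel e) : T.Grp) = 0 :=
    (QuotientAddGroup.eq_zero_iff _).2 (AddSubgroup.subset_closure ⟨e, rfl⟩)
  exact h

omit [Fintype E] in
/-- a homomorphism on `A_W` is defined by its values on the vertices -/
theorem exists_hom [Fintype V] {M : Type*} [AddCommGroup M] (f : V → M)
    (hf : ∀ e, f (T.tail e) + f (T.tail (T.a e)) + f (T.tail (T.a⁻¹ e)) = 0) :
    ∃ F : T.Grp →+ M, ∀ v, F (T.cls v) = f v := by
  let F0 : (V → ℤ) →+ M :=
    { toFun := fun x => ∑ v, x v • f v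
      map_zero' := by simp
      map_add' := fun x y => by
        simp only [Pi.add_apply, add_smul, sum_add_distrib] }
  have hs : ∀ v, F0 (Pi.single v 1) = f v := by
    intro v
    show ∑ w, (Pi.single v (1 : ℤ) : V → ℤ) w • f w = f v
    rw [sum_eq_single v]
    · rw [Pi.single_eq_same, one_smul]
    · intro w _ hw
      rw [Pi.single_eq_of_ne hw, zero_smul]
    · intro h
      exact absurd (mem_univ v) h
  refine ⟨QuotientAddGroup.lift T.relSub F0 ?_, fun v => ?_⟩
  · have h : T.relSub ≤ F0.ker := by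
      rw [relSub, AddSubgroup.closure_le]
      rintro _ ⟨e, rfl⟩
      show F0 (T.rel e) = 0
      rw [rel, map_add, map_add, hs, hs, hs, a_a]
      exact hf e
    exact fun x hx => h hx
  · rw [cls]
    exact (QuotientAddGroup.lift_mk _ _ _).trans (hs v)

omit [Fintype E] in
/-- `A_W` is generated by the vertices -/
theorem grp_induction [Fintype V] {S : AddSubgroup T.Grp} (h : ∀ v, T.cls v ∈ S) (x : T.Grp) :
    x ∈ S := by
  obtain ⟨y, rfl⟩ := QuotientAddGroup.mk_surjective x
  have hy : (QuotientAddGroup.mk y : T.Grp) = ∑ v, y v • T.cls v := by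
    have h1 : y = ∑ v, y v • (Pi.single v (1 : ℤ) : V → ℤ) := by
      funext w
      rw [Finset.sum_apply, sum_eq_single w]
      · simp
      · intro v _ hv
        simp [Pi.single_eq_of_ne hv.symm]
      · intro h
        exact absurd (mem_univ w) h
    conv_lhs => rw [h1]
    exact map_sum (QuotientAddGroup.mk' T.relSub) _ _
  rw [hy]
  exact S.sum_mem fun v _ => S.zsmul_mem (h v) _

end deg

end Tri

end Pool.Agent.TS
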