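import Mathlib

/-!
# TS-8 (DetExp).  An upper bound for `det (1 - P)` by traces

PROOF.  For `0 ≤ s < 1` let `A_s = 1 - s • P`.
(1) If `A_s x ≥ 0` (all entries) then `x ≥ 0`: let `r` be an index with `x r` minimal and suppose
`m = x r < 0`; then `m = x r ≥ s ∑_q P r q x q ≥ s m ∑_q P r q ≥ s m > m`, a contradiction (for the third
inequality: `∑ ≤ 1` and `m < 0`; `s m ≥ m`, with equality only if `s = 1`; be careful with `s = 0`).
So `A_s` is injective, `det A_s ≠ 0`, and `A_s⁻¹` has nonnegative entries (its columns are the solutions of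
`A_s x = e_j`).
(2) `F s = det A_s` is continuous (a polynomial in `s`), `F 0 = 1`, so `F > 0` on `[0, 1)` (intermediate value
theorem) and `F 1 ≥ 0`.
(3) `F` is differentiable with `F' s = - tr (adjugate (A_s) * P) = - F s * tr (A_s⁻¹ P)` (Jacobi's formula; e.g.
`Matrix.det` of `A_(s+h) = A_s (1 - h A_s⁻¹ P)` and `Matrix.derivative_det_one_add_X_smul`, or the product
rule; see also `Matrix.det_one_add_smul`).
(4) `G s = F s * exp (∑_{k<K} s^(k+1) tr (P^(k+1)) / (k+1))` has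
`G' s = exp(..) * F s * (∑_{k<K} s^k tr (P^(k+1)) - tr (A_s⁻¹ P))` and
`A_s⁻¹ = ∑_{k<K} s^k P^k + s^K A_s⁻¹ P^K` (multiply by `A_s`), so the bracket is
`- s^K tr (A_s⁻¹ P^(K+1)) ≤ 0`.  So `G` is antitone on `[0, 1]` (`antitoneOn_of_deriv_nonpos`; continuous on
`[0, 1]`), `G 1 ≤ G 0 = 1`.
-/

set_option autoImplicit false

open Finset

namespace Pool.Agent.TS

variable {ι : Type} [Fintype ι] [DecidableEq ι] {P : Matrix ι ι ℝ}

private theorem DetExp_mv (s : ℝ) (x : ι → ℝ) (r : ι) :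
    ((1 - s • P).mulVec x) r = x r - s * ∑ q, P r q * x q := by
  rw [Matrix.sub_mulVec, Matrix.one_mulVec, Matrix.smul_mulVec]
  rfl

private theorem DetExp_max (hP : ∀ r s, 0 ≤ P r s) (hrow : ∀ r, ∑ s, P r s ≤ 1) {s : ℝ}
    (h0 : 0 ≤ s) (h1 : s < 1) {x : ι → ℝ} (hx : ∀ r, 0 ≤ ((1 - s • P).mulVec x) r) (r : ι) :
    0 ≤ x r := by
  have hne : Nonempty ι := ⟨r⟩
  obtain ⟨q, hq⟩ := Finite.exists_min x
  refine le_trans ?_ (hq r)
  by_contra hneg
  push Not at hneg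
  have h2 := hx q
  rw [DetExp_mv] at h2
  have h3 : ∑ u, P q u * x q ≤ ∑ u, P q u * x u :=
    Finset.sum_le_sum fun u _ => mul_le_mul_of_nonneg_left (hq u) (hP q u)
  rw [← Finset.sum_mul] at h3
  have h4 : x q ≤ (∑ u, P q u) * x q := by
    have := hrow q
    nlinarith
  have h5 : s * x q ≤ s * ∑ u, P q u * x u := mul_le_mul_of_nonneg_left (h4.trans h3) h0
  nlinarith

private theorem DetExp_ne (hP : ∀ r s, 0 ≤ P r s) (hrow : ∀ r, ∑ s, P r s ≤ 1) {s : ℝ}
    (h0 : 0 ≤ s) (h1 : s < 1) : (1 - s • P).det ≠ 0 := by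
  intro hdet
  obtain ⟨x, hx0, hx⟩ := Matrix.exists_mulVec_eq_zero_iff.2 hdet
  apply hx0
  funext r
  have h2 := DetExp_max hP hrow h0 h1 (x := x) (fun q => by rw [hx]; rfl) r
  have h3 := DetExp_max hP hrow h0 h1 (x := -x) (fun q => by
    rw [Matrix.mulVec_neg, hx, neg_zero]; rfl) r
  have h4 : 0 ≤ -(x r) := h3
  show x r = 0
  linarith

private theorem DetExp_inv (hP : ∀ r s, 0 ≤ P r s) (hrow : ∀ r, ∑ s, P r s ≤ 1) {s : ℝ}
    (h0 : 0 ≤ s) (h1 : s < 1) (i j : ι) : 0 ≤ (1 - s • P)⁻¹ i j := by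
  have hu : IsUnit (1 - s • P).det := isUnit_iff_ne_zero.2 (DetExp_ne hP hrow h0 h1)
  refine DetExp_max hP hrow h0 h1 (x := fun i => (1 - s • P)⁻¹ i j) (fun q => ?_) i
  have h2 : ((1 - s • P).mulVec fun i => (1 - s • P)⁻¹ i j) q =
      ((1 - s • P) * (1 - s • P)⁻¹) q j := rfl
  rw [h2, Matrix.mul_nonsing_inv _ hu, Matrix.one_apply]
  split_ifs
  · exact zero_le_one
  · exact le_rfl

private theorem DetExp_cont : Continuous fun s : ℝ => (1 - s • P).det := by
  apply Continuous.matrix_det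
  exact continuous_const.sub (continuous_id.smul continuous_const)

private theorem DetExp_pos (hP : ∀ r s, 0 ≤ P r s) (hrow : ∀ r, ∑ s, P r s ≤ 1) {s : ℝ}
    (h0 : 0 ≤ s) (h1 : s < 1) : 0 < (1 - s • P).det := by
  by_contra hneg
  push Not at hneg
  have hz : (1 - (0 : ℝ) • P).det = 1 := by simp
  have hiv := intermediate_value_Icc' h0 (f := fun s : ℝ => (1 - s • P).det)
    DetExp_cont.continuousOn
  have h2 : (0 : ℝ) ∈ Set.Icc ((1 - s • P).det) ((1 - (0 : ℝ) • P).det) := by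
    rw [hz]
    exact ⟨hneg, zero_le_one⟩
  obtain ⟨t, ht, htz⟩ := hiv h2
  exact DetExp_ne hP hrow ht.1 (ht.2.trans_lt h1) htz

theorem det_nonneg_of_row {ι : Type} [Fintype ι] [DecidableEq ι] (P : Matrix ι ι ℝ)
    (hP : ∀ r s, 0 ≤ P r s) (hrow : ∀ r, ∑ s, P r s ≤ 1) : 0 ≤ (1 - P).det := by
  have h1 : ∀ s ∈ Set.Ico (0 : ℝ) 1, 0 ≤ (1 - s • P).det := fun s hs =>
    (DetExp_pos hP hrow hs.1 hs.2).le
  have h2 : closure (Set.Ico (0 : ℝ) 1) ⊆ {s : ℝ | 0 ≤ (1 - s • P).det} :=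
    closure_minimal h1 (isClosed_le continuous_const DetExp_cont)
  rw [closure_Ico zero_ne_one] at h2
  have h3 := h2 (Set.right_mem_Icc.2 zero_le_one)
  have h4 : 0 ≤ (1 - (1 : ℝ) • P).det := h3
  rwa [one_smul] at h4

private theorem DetExp_deriv {s : ℝ} (hu : (1 - s • P).det ≠ 0) :
    HasDerivAt (fun t : ℝ => (1 - t • P).det)
      (-((1 - s • P).det * ((1 - s • P)⁻¹ * P).trace)) s := by
  set A := 1 - s • P with hA
  set M := -(A⁻¹ * P) with hM
  have hAA : A * A⁻¹ = 1 := Matrix.mul_nonsing_inv _ (isUnit_iff_ne_zero.2 hu)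
  have h1 : ∀ t : ℝ, (1 - t • P).det = A.det * (1 + M.trace * (t - s) +
      (Matrix.det (1 + (Polynomial.X : Polynomial ℝ) • M.map Polynomial.C)).divX.divX.eval (t - s) *
        (t - s) ^ 2) := by
    intro t
    rw [← Matrix.det_one_add_smul, ← Matrix.det_mul]
    congr 1
    rw [mul_add, mul_one, Matrix.mul_smul, hM, mul_neg, ← Matrix.mul_assoc, hAA, Matrix.one_mul,
      hA, smul_neg, sub_smul]
    abel
  set Q := (Matrix.det (1 + (Polynomial.X : Polynomial ℝ) • M.map Polynomial.C)).divX.divX with hQ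
  have h2 : (fun t : ℝ => (1 - t • P).det) = fun t => A.det * (1 + M.trace * (t - s) +
      Q.eval (t - s) * (t - s) ^ 2) := funext h1
  rw [h2]
  have h3 : HasDerivAt (fun t : ℝ => t - s) 1 s := (hasDerivAt_id s).sub_const s
  have h4 : HasDerivAt (fun t : ℝ => Q.eval (t - s)) (Q.derivative.eval (s - s)) s :=
    HasDerivAt.comp_sub_const s s (Q.hasDerivAt (s - s))
  have h5 := ((((h3.const_mul M.trace).const_add 1).add (h4.mul (h3.pow 2)))).const_mul A.det
  refine h5.congr_deriv ?_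
  have h6 : ((fun t : ℝ => t - s) ^ 2) s = 0 := by
    show (s - s) ^ 2 = 0
    ring
  rw [h6]
  simp only [sub_self, hM, Matrix.trace_neg]
  ring

private theorem DetExp_pow (hP : ∀ r s, 0 ≤ P r s) (K : ℕ) (i j : ι) : 0 ≤ (P ^ K) i j := by
  induction K generalizing i j with
  | zero =>
    rw [pow_zero, Matrix.one_apply]
    split_ifs
    · exact zero_le_one
    · exact le_rfl
  | succ K ih =>
    rw [pow_succ, Matrix.mul_apply]
    exact Finset.sum_nonneg fun k _ => mul_nonneg (ih i k) (hP k j)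

private theorem DetExp_trace (hP : ∀ r s, 0 ≤ P r s) (hrow : ∀ r, ∑ s, P r s ≤ 1) {s : ℝ}
    (h0 : 0 ≤ s) (h1 : s < 1) (K : ℕ) :
    ∑ k ∈ range K, s ^ k * (P ^ (k + 1)).trace ≤ ((1 - s • P)⁻¹ * P).trace := by
  have hu : IsUnit (1 - s • P).det := isUnit_iff_ne_zero.2 (DetExp_ne hP hrow h0 h1)
  set A := 1 - s • P with hA
  have hAA : A⁻¹ * A = 1 := Matrix.nonsing_inv_mul _ hu
  have h2 : A * ∑ i ∈ range K, (s • P) ^ i = 1 - (s • P) ^ K := mul_neg_geom_sum (s • P) K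
  have h3 : A⁻¹ = ∑ i ∈ range K, (s • P) ^ i + A⁻¹ * (s • P) ^ K := by
    have h4 : A⁻¹ * (A * ∑ i ∈ range K, (s • P) ^ i) = A⁻¹ * (1 - (s • P) ^ K) := by rw [h2]
    rw [← Matrix.mul_assoc, hAA, Matrix.one_mul, mul_sub, mul_one] at h4
    rw [h4]
    abel
  have h4 : (A⁻¹ * P).trace = ∑ k ∈ range K, s ^ k * (P ^ (k + 1)).trace +
      s ^ K * (A⁻¹ * P ^ (K + 1)).trace := by
    have h5 : A⁻¹ * P = ∑ k ∈ range K, s ^ k • P ^ (k + 1) + s ^ K • (A⁻¹ * P ^ (K + 1)) := by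
      conv_lhs => rw [h3]
      rw [add_mul, Finset.sum_mul]
      congr 1
      · refine Finset.sum_congr rfl fun k _ => ?_
        rw [smul_pow, Matrix.smul_mul, ← pow_succ]
      · rw [smul_pow, Matrix.mul_smul, Matrix.smul_mul, Matrix.mul_assoc, ← pow_succ]
    rw [h5, Matrix.trace_add, Matrix.trace_sum, Matrix.trace_smul, smul_eq_mul]
    congr 1
    refine Finset.sum_congr rfl fun k _ => ?_
    rw [Matrix.trace_smul, smul_eq_mul]
  rw [h4]
  have h5 : 0 ≤ (A⁻¹ * P ^ (K + 1)).trace := by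
    refine Finset.sum_nonneg fun i _ => ?_
    rw [Matrix.diag_apply, Matrix.mul_apply]
    exact Finset.sum_nonneg fun k _ => mul_nonneg (DetExp_inv hP hrow h0 h1 i k)
      (DetExp_pow hP _ k i)
  have h6 : 0 ≤ s ^ K * (A⁻¹ * P ^ (K + 1)).trace := mul_nonneg (pow_nonneg h0 _) h5
  linarith

theorem det_le_exp {ι : Type} [Fintype ι] [DecidableEq ι] (P : Matrix ι ι ℝ)
    (hP : ∀ r s, 0 ≤ P r s) (hrow : ∀ r, ∑ s, P r s ≤ 1) (K : ℕ) :
    (1 - P).det ≤ Real.exp (-∑ k ∈ range K, (P ^ (k + 1)).trace / (k + 1 : ℝ)) := by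
  set g : ℝ → ℝ := fun s => ∑ k ∈ range K, s ^ (k + 1) * ((P ^ (k + 1)).trace / (k + 1 : ℝ))
    with hg
  have hgd : ∀ s, HasDerivAt g (∑ k ∈ range K, s ^ k * (P ^ (k + 1)).trace) s := by
    intro s
    have h1 : ∀ k ∈ range K, HasDerivAt
        (fun s : ℝ => s ^ (k + 1) * ((P ^ (k + 1)).trace / (k + 1 : ℝ)))
        (s ^ k * (P ^ (k + 1)).trace) s := by
      intro k _
      refine ((hasDerivAt_pow (k + 1) s).mul_const _).congr_deriv ?_
      have hk : (k : ℝ) + 1 ≠ 0 := by positivity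
      rw [Nat.add_sub_cancel]
      push_cast
      field_simp
    exact HasDerivAt.fun_sum h1
  set G : ℝ → ℝ := fun s => (1 - s • P).det * Real.exp (g s) with hG
  have hgc : Continuous g := continuous_iff_continuousAt.2 fun s => (hgd s).continuousAt
  have hGc : Continuous G := DetExp_cont.mul (Real.continuous_exp.comp hgc)
  have hGd : ∀ s, 0 ≤ s → s < 1 → HasDerivAt G
      (-((1 - s • P).det * ((1 - s • P)⁻¹ * P).trace) * Real.exp (g s) +
        (1 - s • P).det * (Real.exp (g s) * ∑ k ∈ range K, s ^ k * (P ^ (k + 1)).trace)) s := by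
    intro s h0 h1
    exact (DetExp_deriv (DetExp_ne hP hrow h0 h1)).mul ((hgd s).exp)
  have hanti : AntitoneOn G (Set.Icc 0 1) := by
    apply antitoneOn_of_deriv_nonpos (convex_Icc 0 1) hGc.continuousOn
    · rw [interior_Icc]
      intro s hs
      exact (hGd s hs.1.le hs.2).differentiableAt.differentiableWithinAt
    · rw [interior_Icc]
      intro s hs
      rw [(hGd s hs.1.le hs.2).deriv]
      have h1 := DetExp_pos hP hrow hs.1.le hs.2
      have h2 := DetExp_trace hP hrow hs.1.le hs.2 K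
      have h3 := Real.exp_pos (g s)
      have h4 : 0 < (1 - s • P).det * Real.exp (g s) := mul_pos h1 h3
      nlinarith
  have h1 := hanti (Set.left_mem_Icc.2 zero_le_one) (Set.right_mem_Icc.2 zero_le_one) zero_le_one
  have hG0 : G 0 = 1 := by
    simp [hG, hg]
  have hG1 : G 1 = (1 - P).det *
      Real.exp (∑ k ∈ range K, (P ^ (k + 1)).trace / (k + 1 : ℝ)) := by
    simp [hG, hg]
  rw [hG0, hG1] at h1
  rw [Real.exp_neg, ← one_div, le_div_iff₀ (Real.exp_pos _)]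
  exact h1

end Pool.Agent.TS
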