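import Pool.Agent.helper31.TS.MatDef

/-!
# TS-7 (DetNe).  The determinant is not zero

PROOF (maximum principle).  Suppose `det = 0`.  Then (`Matrix.exists_mulVec_eq_zero_iff` for the matrix cast
to `ℝ`, `Int.cast_det` / `RingHom.map_det`) there is a real vector `x ≠ 0` on `RT c i r0` with
`L x = 0`; extend it to a function `x : V → ℝ` which is `0` at `r0` (and elsewhere), so that for
`r ∈ RT c i r0`: `deg r * x r = ∑_{e, tail e = r} x (tail (kap e))` (`tail (kap e)` has colour `i`,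
`IsCol.kap`).  Replacing `x` by `-x` we may assume that `M = max x > 0` over `RT c i r0`, `M ≥ x` on the colour
class.  Let `S = {e | c (tail e) = i ∧ x (tail e) = M}`; it is nonempty.  For `e ∈ S`, `r = tail e ≠ r0`
(`M ≠ 0`), the `deg r` numbers `x (tail (kap f))`, `tail f = r`, are `≤ M` and their sum is `deg r * M`,
so all are `M`; so `S` is closed under `kap`.  It is closed under `rho` (`tail_rho`).  As `E` is finite, `S` is
closed under `kap⁻¹` and `rho⁻¹`.
`S' = S ∪ a S ∪ a⁻¹ S` (i.e. `{e | e ∈ S ∨ a⁻¹ e ∈ S ∨ a e ∈ S}`) is closed under `a` and under `b`: let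
`e ∈ S`;
`b e = a (kap e)`;  `b (a⁻¹ e) = rho e ∈ S`;  `b (a e) = a⁻¹ (rho⁻¹ (kap⁻¹ e)) ∈ a⁻¹ S`
(with `f = kap⁻¹ e`: `e = a⁻¹ b f`, `a e = b f`, `b (a e) = b (b f) = b⁻¹ f`, and `a⁻¹ rho⁻¹ f = a⁻¹ a b⁻¹ f`).
So `S' = univ` (`T.conn`).  Take `e₀` with `tail e₀ = r0`.  `e₀ ∈ S` is impossible (`x r0 = 0 ≠ M`), and
`a⁻¹ e₀ ∈ S` or `a e₀ ∈ S` is impossible by the colours (`c r0 = i`, `IsCol.a`, `IsCol.ainv`).
-/

set_option autoImplicit false

open Finset

namespace Pool.Agent.TS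

variable {E V : Type} [Fintype E] [Fintype V] [DecidableEq V]

/-- a set of edges closed under `kap` and `rho` generates everything -/
theorem Tri.closed_gen (T : Tri E V) {S : Set E} (hne : S.Nonempty) (hk : ∀ e ∈ S, T.kap e ∈ S)
    (hr : ∀ e ∈ S, T.rho e ∈ S) (e : E) : e ∈ S ∨ T.a⁻¹ e ∈ S ∨ T.a e ∈ S := by
  have hk' : ∀ e ∈ S, T.kap⁻¹ e ∈ S := Equiv.Perm.perm_symm_mapsTo_of_mapsTo T.kap (s := S) hk
  have hr' : ∀ e ∈ S, T.rho⁻¹ e ∈ S := Equiv.Perm.perm_symm_mapsTo_of_mapsTo T.rho (s := S) hr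
  have h1 := T.conn {e | e ∈ S ∨ T.a⁻¹ e ∈ S ∨ T.a e ∈ S} (hne.mono fun e he => Or.inl he) (by
    rintro e (he | he | he)
    · refine ⟨Or.inr (Or.inl ?_), Or.inr (Or.inl ?_)⟩
      · rw [inv_self]
        exact he
      · exact hk e he
    · refine ⟨Or.inr (Or.inr ?_), Or.inr (Or.inr ?_)⟩
      · rw [T.a_a]
        exact he
      · -- `f = a⁻¹ e`, `g = kap⁻¹ f`
        have h2 := hr' _ (hk' _ he)
        have h3 : T.rho⁻¹ (T.kap⁻¹ (T.a⁻¹ e)) = T.a (T.b e) := by
          rw [Equiv.Perm.inv_eq_iff_eq, T.rho_a, T.b_b, Equiv.Perm.inv_eq_iff_eq, T.kap_apply,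
            self_inv]
        rwa [h3] at h2
    · refine ⟨Or.inl he, Or.inl ?_⟩
      have h2 := hr _ he
      rwa [T.rho_a] at h2)
  have h2 : e ∈ {e | e ∈ S ∨ T.a⁻¹ e ∈ S ∨ T.a e ∈ S} := by
    rw [h1]
    exact Set.mem_univ e
  exact h2

/-- the extension by zero -/
private def DetNe_ext {c : V → ZMod 3} {i : ZMod 3} {r0 : V} (x : RT c i r0 → ℤ) (v : V) : ℤ :=
  if h : c v = i ∧ v ≠ r0 then x ⟨v, h⟩ else 0

private theorem DetNe_harm (T : Tri E V) {c : V → ZMod 3} (hc : T.IsCol c) {i : ZMod 3} {r0 : V}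
    {x : RT c i r0 → ℤ} (hx : (T.Lm c i r0).mulVec x = 0) (r : RT c i r0) :
    ∑ e with T.tail e = r.1, DetNe_ext x (T.tail (T.kap e)) = T.deg r.1 * x r := by
  have h1 : (T.Lm c i r0).mulVec x r = 0 := by
    rw [hx]
    rfl
  have h2 : (T.Lm c i r0).mulVec x r =
      T.deg r.1 * x r - ∑ s : RT c i r0,
        ((#{e : E | T.tail e = r.1 ∧ T.tail (T.kap e) = s.1} : ℕ) : ℤ) * x s := by
    show ∑ s, ((if r = s then (T.deg r.1 : ℤ) else 0) -
      ((#{e : E | T.tail e = r.1 ∧ T.tail (T.kap e) = s.1} : ℕ) : ℤ)) * x s = _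
    simp only [sub_mul, sum_sub_distrib, ite_mul, zero_mul]
    rw [Finset.sum_ite_eq, if_pos (mem_univ r)]
  have h3 : ∑ s : RT c i r0,
      ((#{e : E | T.tail e = r.1 ∧ T.tail (T.kap e) = s.1} : ℕ) : ℤ) * x s =
      ∑ e with T.tail e = r.1, DetNe_ext x (T.tail (T.kap e)) := by
    have h4 : ∀ s : RT c i r0,
        ((#{e : E | T.tail e = r.1 ∧ T.tail (T.kap e) = s.1} : ℕ) : ℤ) * x s =
        ∑ e with T.tail e = r.1, if T.tail (T.kap e) = s.1 then x s else 0 := by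
      intro s
      rw [← Finset.sum_filter, Finset.filter_filter, Finset.sum_const, nsmul_eq_mul]
    rw [Finset.sum_congr rfl fun s _ => h4 s, Finset.sum_comm]
    refine Finset.sum_congr rfl fun e he => ?_
    have he' : T.tail e = r.1 := by simpa using he
    have hce : c (T.tail (T.kap e)) = i := by
      rw [hc.kap, he']
      exact r.2.1
    unfold DetNe_ext
    split_ifs with h5
    · rw [Finset.sum_eq_single (⟨T.tail (T.kap e), h5⟩ : RT c i r0)]
      · rw [if_pos rfl]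
      · intro s _ hs
        rw [if_neg]
        intro h6
        exact hs (Subtype.ext h6.symm)
      · intro h6
        exact absurd (mem_univ _) h6
    · refine Finset.sum_eq_zero fun s _ => ?_
      rw [if_neg]
      intro h6
      apply h5
      rw [h6]
      exact s.2
  rw [← h3]
  rw [h2] at h1
  linarith

private theorem DetNe_pos (T : Tri E V) {c : V → ZMod 3} (hc : T.IsCol c) {i : ZMod 3} {r0 : V}
    (h0 : c r0 = i) {x : RT c i r0 → ℤ} (hx : (T.Lm c i r0).mulVec x = 0) {r : RT c i r0}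
    (hr : 0 < x r) : False := by
  have hne : Nonempty V := ⟨r0⟩
  obtain ⟨v, hv⟩ := Finite.exists_max (DetNe_ext x)
  set M := DetNe_ext x v with hM
  have hMpos : 0 < M := by
    have h1 := hv r.1
    have h2 : DetNe_ext x r.1 = x r := dif_pos r.2
    rw [h2] at h1
    exact hr.trans_le h1
  have hsupp : ∀ u, DetNe_ext x u = M → c u = i ∧ u ≠ r0 := by
    intro u hu
    by_contra h1
    have h2 : DetNe_ext x u = 0 := dif_neg h1
    rw [h2] at hu
    exact hMpos.ne hu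
  obtain ⟨e1, he1⟩ := T.tail_surj v
  obtain ⟨e0, he0⟩ := T.tail_surj r0
  have hgen := T.closed_gen (S := {e | DetNe_ext x (T.tail e) = M}) ⟨e1, by
    show DetNe_ext x (T.tail e1) = M
    rw [he1]⟩ (by
    intro e he
    have he' : DetNe_ext x (T.tail e) = M := he
    have h1 := hsupp _ he'
    have h2 := DetNe_harm T hc hx ⟨T.tail e, h1⟩
    have h3 : x ⟨T.tail e, h1⟩ = M := by
      rw [← he']
      unfold DetNe_ext
      rw [dif_pos h1]
    rw [h3] at h2
    have h4 : ∑ f with T.tail f = T.tail e, DetNe_ext x (T.tail (T.kap f)) =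
        ∑ f with T.tail f = T.tail e, M := by
      rw [h2, Finset.sum_const, nsmul_eq_mul]
      rfl
    have h5 := (Finset.sum_eq_sum_iff_of_le fun f _ => hv (T.tail (T.kap f))).1 h4
    exact h5 e (by simp)) (by
    intro e he
    show DetNe_ext x (T.tail (T.rho e)) = M
    rw [T.tail_rho]
    exact he) e0
  have key : ∀ z : ZMod 3, z - 1 ≠ z ∧ z + 1 ≠ z := by decide
  rcases hgen with h1 | h1 | h1
  · exact (hsupp _ h1).2 he0
  · have h2 := (hsupp _ h1).1
    rw [hc.ainv, he0, h0] at h2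
    exact (key i).1 h2
  · have h2 := (hsupp _ h1).1
    rw [hc.a, he0, h0] at h2
    exact (key i).2 h2

theorem Tri.det_Lm_ne_zero (T : Tri E V) {c : V → ZMod 3} (hc : T.IsCol c) {i : ZMod 3} {r0 : V}
    (h0 : c r0 = i) : (T.Lm c i r0).det ≠ 0 := by
  intro hdet
  obtain ⟨x, hx0, hx⟩ := Matrix.exists_mulVec_eq_zero_iff.2 hdet
  obtain ⟨r, hr⟩ := Function.ne_iff.1 hx0
  have hr' : x r ≠ 0 := hr
  rcases lt_or_gt_of_ne hr' with h | h
  · refine DetNe_pos T hc h0 (x := -x) ?_ (r := r) ?_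
    · rw [Matrix.mulVec_neg, hx, neg_zero]
    · show 0 < -x r
      omega
  · exact DetNe_pos T hc h0 hx h

end Pool.Agent.TS
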