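import Pool.Agent.helper31.TS.MatDef

/-!
# TS-9 (Orb).  Orbits of `rho`, `kap`, `kap2` and vertices

PROOFS.  General fact (`prod_orbit`): for a permutation `σ` of a finite type and `x`, the map
`j ↦ σ^[j] x` is a bijection from `range (minimalPeriod σ x)` to the set of all `y` with `σ.SameCycle x y`
(`Function.minimalPeriod`, `Equiv.Perm.SameCycle.exists_pow_eq`, `Function.iterate_eq_iterate_iff_of_lt_minimalPeriod`),
so `∏_{j < per} g (σ^[j] x) = ∏_{y ∼ x} g y` and the number of `y ∼ x` is the period.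
`rho`: `{f | tail f = v}` is the cycle of any `f₀` with `tail f₀ = v` (`tail_eq`, `rho = b * a⁻¹`).
`kap`: `a (kap e) = rho (a e)` (`a_kap`), so `a (kap^[j] e) = rho^[j] (a e)`; the period of `kap` at `e` is the one
of `rho` at `a e`.
`kap2`: `b⁻¹ (kap2 e) = rho⁻¹ (b⁻¹ e)` (`binv_kap2`), so `b⁻¹ (kap2^[j] e) = rho⁻¹^[j] (b⁻¹ e)`; the cycles and
periods of `rho⁻¹` are those of `rho`.
-/

set_option autoImplicit false

open Finset

namespace Pool.Agent.TS

variable {E V : Type} [Fintype E] [DecidableEq V]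

private theorem iter_eq_pow {α : Type} (σ : Equiv.Perm α) (x : α) (j : ℕ) :
    σ^[j] x = (σ ^ j) x := by
  rw [Equiv.Perm.iterate_eq_pow]

private theorem exists_iter {α : Type} [Fintype α] (σ : Equiv.Perm α) {x y : α}
    (h : σ.SameCycle x y) : ∃ j : ℕ, j < Function.minimalPeriod σ x ∧ σ^[j] x = y := by
  obtain ⟨n, hn⟩ := h.exists_nat_pow_eq
  have hp : 0 < Function.minimalPeriod σ x := by
    apply Function.minimalPeriod_pos_of_mem_periodicPts
    exact Function.Injective.mem_periodicPts σ.injective x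
  refine ⟨n % Function.minimalPeriod σ x, Nat.mod_lt _ hp, ?_⟩
  rw [Function.iterate_mod_minimalPeriod_eq, iter_eq_pow, hn]

private theorem image_orbit {α : Type} [Fintype α] [DecidableEq α] (σ : Equiv.Perm α) (x : α) :
    (range (Function.minimalPeriod σ x)).image (fun j => σ^[j] x) =
      ({y : α | σ.SameCycle x y} : Finset α) := by
  ext y
  simp only [mem_image, mem_range, mem_filter, mem_univ, true_and]
  constructor
  · rintro ⟨j, -, rfl⟩
    exact ⟨(j : ℤ), by rw [zpow_natCast, iter_eq_pow]⟩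
  · intro h
    exact exists_iter σ h

theorem card_orbit {α : Type} [Fintype α] [DecidableEq α] (σ : Equiv.Perm α) (x : α) :
    #{y : α | σ.SameCycle x y} = Function.minimalPeriod σ x := by
  rw [← image_orbit, card_image_of_injOn, card_range]
  intro i hi j hj h
  exact Function.iterate_injOn_Iio_minimalPeriod (by simpa using hi) (by simpa using hj) h

theorem prod_orbit {α : Type} [Fintype α] [DecidableEq α] (σ : Equiv.Perm α) (x : α)
    (g : α → ℝ) : ∏ j ∈ range (Function.minimalPeriod σ x), g (σ^[j] x) =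
      ∏ y with σ.SameCycle x y, g y := by
  rw [← image_orbit, prod_image]
  intro i hi j hj h
  exact Function.iterate_injOn_Iio_minimalPeriod (by simpa using hi) (by simpa using hj) h

omit [Fintype E] [DecidableEq V] in
private theorem a_kap_iter (T : Tri E V) (e : E) (j : ℕ) :
    T.a (T.kap^[j] e) = T.rho^[j] (T.a e) := by
  induction j with
  | zero => rfl
  | succ j ih => rw [Function.iterate_succ_apply', Function.iterate_succ_apply', T.a_kap, ih]

omit [Fintype E] [DecidableEq V] in
private theorem binv_kap2_iter (T : Tri E V) (e : E) (j : ℕ) :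
    T.b⁻¹ (T.kap2^[j] e) = (⇑(T.rho⁻¹))^[j] (T.b⁻¹ e) := by
  induction j with
  | zero => rfl
  | succ j ih =>
    rw [Function.iterate_succ_apply', Function.iterate_succ_apply', T.binv_kap2, ih]

private theorem minPer_congr {α β : Type} (f : α → α) (g : β → β) (φ : α → β)
    (hφ : Function.Injective φ) (x : α) (y : β) (h : ∀ j, φ (f^[j] x) = g^[j] y) :
    Function.minimalPeriod f x = Function.minimalPeriod g y := by
  apply Nat.dvd_antisymm
  · rw [← Function.isPeriodicPt_iff_minimalPeriod_dvd]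
    apply hφ
    have h1 := h (Function.minimalPeriod g y)
    have h0 := h 0
    rw [h1]
    have h2 : g^[Function.minimalPeriod g y] y = y := Function.iterate_minimalPeriod
    rw [h2]
    exact h0.symm
  · rw [← Function.isPeriodicPt_iff_minimalPeriod_dvd]
    have h1 := h (Function.minimalPeriod f x)
    have h0 : φ x = y := h 0
    have h2 : f^[Function.minimalPeriod f x] x = x := Function.iterate_minimalPeriod
    rw [h2] at h1
    show g^[_] y = y
    rw [← h1, h0]

private theorem minPer_inv {α : Type} (σ : Equiv.Perm α) (x : α) :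
    Function.minimalPeriod (⇑(σ⁻¹)) x = Function.minimalPeriod σ x := by
  have key : ∀ (τ : Equiv.Perm α) (n : ℕ), Function.IsPeriodicPt τ n x →
      Function.IsPeriodicPt (⇑(τ⁻¹)) n x := by
    intro τ n h
    show (⇑(τ⁻¹))^[n] x = x
    have h' : τ^[n] x = x := h
    rw [iter_eq_pow] at h' ⊢
    rw [inv_pow, Equiv.Perm.inv_eq_iff_eq]
    exact h'.symm
  apply Nat.dvd_antisymm
  · rw [← Function.isPeriodicPt_iff_minimalPeriod_dvd]
    exact key σ _ (Function.isPeriodicPt_minimalPeriod _ _)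
  · rw [← Function.isPeriodicPt_iff_minimalPeriod_dvd]
    have h := key σ⁻¹ _ (Function.isPeriodicPt_minimalPeriod _ _)
    rwa [inv_inv] at h

private theorem deg_eq (T : Tri E V) (e : E) :
    T.deg (T.tail e) = Function.minimalPeriod T.rho e := by
  classical
  rw [← card_orbit, Tri.deg]
  congr 1
  ext f
  simp only [mem_filter, mem_univ, true_and]
  rw [T.tail_eq f e]
  exact Equiv.Perm.sameCycle_comm

theorem Tri.per_kap (T : Tri E V) (e : E) :
    Function.minimalPeriod T.kap e = T.deg (T.tail (T.a e)) := by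
  rw [deg_eq]
  exact minPer_congr _ _ T.a T.a.injective _ _ (a_kap_iter T e)

private theorem prod_rho (T : Tri E V) (e : E) (g : E → ℝ) :
    ∏ j ∈ range (T.deg (T.tail e)), g (T.rho^[j] e) = ∏ f with T.tail f = T.tail e, g f := by
  classical
  rw [deg_eq, prod_orbit]
  apply prod_congr _ (fun _ _ => rfl)
  ext f
  simp only [mem_filter, mem_univ, true_and]
  rw [T.tail_eq f e]
  exact Equiv.Perm.sameCycle_comm

private theorem prod_rho_inv (T : Tri E V) (e : E) (g : E → ℝ) :
    ∏ j ∈ range (T.deg (T.tail e)), g ((⇑(T.rho⁻¹))^[j] e) = ∏ f with T.tail f = T.tail e, g f := by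
  classical
  rw [deg_eq, ← minPer_inv, prod_orbit]
  apply prod_congr _ (fun _ _ => rfl)
  ext f
  simp only [mem_filter, mem_univ, true_and]
  rw [T.tail_eq f e, Equiv.Perm.sameCycle_inv]
  exact Equiv.Perm.sameCycle_comm

theorem Tri.prod_kap (T : Tri E V) (e : E) (g : E → ℝ) :
    ∏ j ∈ range (T.deg (T.tail (T.a e))), g (T.kap^[j] e) =
      ∏ f with T.tail f = T.tail (T.a e), g (T.a⁻¹ f) := by
  rw [← prod_rho T (T.a e) (fun f => g (T.a⁻¹ f))]
  apply prod_congr rfl
  intro j _
  show _ = g (T.a⁻¹ _)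
  rw [← a_kap_iter, inv_self]

theorem Tri.per_kap2 (T : Tri E V) (e : E) :
    Function.minimalPeriod T.kap2 e = T.deg (T.tail (T.b⁻¹ e)) := by
  rw [deg_eq, ← minPer_inv T.rho]
  exact minPer_congr _ _ (⇑(T.b⁻¹)) (T.b⁻¹).injective _ _ (binv_kap2_iter T e)

theorem Tri.prod_kap2 (T : Tri E V) (e : E) (g : E → ℝ) :
    ∏ j ∈ range (T.deg (T.tail (T.b⁻¹ e))), g (T.kap2^[j] e) =
      ∏ f with T.tail f = T.tail (T.b⁻¹ e), g (T.b f) := by
  rw [← prod_rho_inv T (T.b⁻¹ e) (fun f => g (T.b f))]
  apply prod_congr rfl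
  intro j _
  show _ = g (T.b _)
  rw [← binv_kap2_iter, self_inv]

/-- the elements of the orbit of `kap` -/
theorem Tri.kap_orbit (T : Tri E V) (e f : E) (h : T.tail (T.a f) = T.tail (T.a e)) :
    ∃ j, T.kap^[j] e = f := by
  obtain ⟨j, -, hj⟩ := exists_iter T.rho ((T.tail_eq _ _).1 h.symm)
  refine ⟨j, T.a.injective ?_⟩
  rw [a_kap_iter, hj]

/-- the elements of the orbit of `kap2` -/
theorem Tri.kap2_orbit (T : Tri E V) (e f : E) (h : T.tail (T.b⁻¹ f) = T.tail (T.b⁻¹ e)) :
    ∃ j, T.kap2^[j] e = f := by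
  have h1 : T.rho.SameCycle (T.b⁻¹ e) (T.b⁻¹ f) := (T.tail_eq _ _).1 h.symm
  obtain ⟨j, -, hj⟩ := exists_iter T.rho⁻¹ (Equiv.Perm.sameCycle_inv.2 h1)
  refine ⟨j, (T.b⁻¹).injective ?_⟩
  rw [binv_kap2_iter, hj]

end Pool.Agent.TS
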