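import Pool.Agent.helper31.TS.TrGe
import Pool.Agent.helper31.TS.Orb

/-!
# TS-12 (Face).  The trace sum and the weights of the vertices

PROOF.  Rewrite the left side of `trace_sum_ge`.  For `e` with `c (tail e) = i` let `v = tail (a e)` (colour
`i + 1`).  By `per_kap` and `prod_kap` (with `g x = 1 / deg (tail x)`) the summand is `w2 v / deg v`.
`Av kap r0 e` iff `tail (a⁻¹ f) ≠ r0` for all `f` with `tail f = v` (`kap_orbit`: the orbit of `e` is
`{a⁻¹ f | tail f = v}`).  Group the sum by `v` (`Finset.sum_fiberwise_of_maps_to`): for every good `v` of colour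
`i + 1` there are `deg v` edges `e` with `tail (a e) = v` (bijection `a` with `{f | tail f = v}`), their
colour is `i`, so the sum is `∑_v deg v * w2 v / deg v = ∑_v w2 v`.
For `kap2`: `v = tail (b⁻¹ e)` has colour `i - 1 = i + 2`; the summand is
`(∏_{f, tail f = v} 1 / deg (tail (b f))) / deg v = w1 v / deg v` (`tail_b`), etc.
-/

set_option autoImplicit false

open Finset

namespace Pool.Agent.TS

variable {E V : Type} [Fintype E] [Fintype V] [DecidableEq V]

/-- grouping a sum over the edges by the vertex `tail (φ e)` -/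
private theorem Face_group (T : Tri E V) (φ : Equiv.Perm E) (P : V → Prop) [DecidablePred P]
    (Q : E → Prop) [DecidablePred Q] (w : V → ℝ) (g : E → ℝ)
    (hQ : ∀ e, Q e ↔ P (T.tail (φ e)))
    (hg : ∀ e, g e = w (T.tail (φ e)) / (T.deg (T.tail (φ e)) : ℝ)) :
    ∑ e with Q e, g e = ∑ v with P v, w v := by
  rw [sum_filter, sum_filter]
  have h1 : ∑ e, (if Q e then g e else 0) = ∑ e, (fun f => if P (T.tail f) then
      w (T.tail f) / (T.deg (T.tail f) : ℝ) else 0) (φ e) := by
    refine sum_congr rfl fun e _ => ?_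
    show (if Q e then g e else 0) = if P (T.tail (φ e)) then
      w (T.tail (φ e)) / (T.deg (T.tail (φ e)) : ℝ) else 0
    exact if_congr (hQ e) (hg e) rfl
  rw [h1, Equiv.sum_comp φ (fun f => if P (T.tail f) then
      w (T.tail f) / (T.deg (T.tail f) : ℝ) else 0), ← T.sum_fiber]
  refine sum_congr rfl fun v _ => ?_
  have h2 : ∑ e with T.tail e = v, (if P (T.tail e) then
      w (T.tail e) / (T.deg (T.tail e) : ℝ) else 0) =
      ∑ e with T.tail e = v, (if P v then w v / (T.deg v : ℝ) else 0) := by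
    refine sum_congr rfl fun e he => ?_
    rw [(mem_filter.1 he).2]
  have h3 : (T.deg v : ℝ) ≠ 0 := by
    have := T.deg_pos v
    positivity
  have h4 : ((#{e : E | T.tail e = v} : ℕ) : ℝ) = (T.deg v : ℝ) := rfl
  rw [h2, sum_const, nsmul_eq_mul, h4]
  split_ifs
  · field_simp
  · rw [mul_zero]

private theorem Face_av (T : Tri E V) (r0 : V) (e : E) : T.Av T.kap r0 e ↔
    ∀ f, T.tail f = T.tail (T.a e) → T.tail (T.a⁻¹ f) ≠ r0 := by
  constructor
  · intro h f hf
    obtain ⟨j, hj⟩ := T.kap_orbit e (T.a⁻¹ f) (by rw [self_inv, hf])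
    rw [← hj]
    exact h j
  · intro h j
    have h1 : ∀ j : ℕ, T.tail (T.a (T.kap^[j] e)) = T.tail (T.a e) := by
      intro j
      induction j with
      | zero => rfl
      | succ j ih => rw [Function.iterate_succ_apply', T.a_kap, T.tail_rho, ih]
    have h2 := h (T.a (T.kap^[j] e)) (h1 j)
    rw [inv_self] at h2
    exact h2

private theorem Face_av2 (T : Tri E V) (r0 : V) (e : E) : T.Av T.kap2 r0 e ↔
    ∀ f, T.tail f = T.tail (T.b⁻¹ e) → T.tail (T.a f) ≠ r0 := by
  constructor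
  · intro h f hf
    obtain ⟨j, hj⟩ := T.kap2_orbit e (T.b f) (by rw [inv_self, hf])
    rw [← T.tail_b, ← hj]
    exact h j
  · intro h j
    have h1 : ∀ j : ℕ, T.tail (T.b⁻¹ (T.kap2^[j] e)) = T.tail (T.b⁻¹ e) := by
      intro j
      induction j with
      | zero => rfl
      | succ j ih => rw [Function.iterate_succ_apply', T.binv_kap2, T.tail_rho_inv, ih]
    have h2 := h (T.b⁻¹ (T.kap2^[j] e)) (h1 j)
    rw [← T.tail_b, self_inv] at h2
    exact h2

theorem Tri.face_ge (T : Tri E V) {c : V → ZMod 3} (hc : T.IsCol c) {i : ZMod 3} {r0 : V}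
    (h0 : c r0 = i) {K : ℕ} (hK : Fintype.card E ≤ K) :
    ∑ v with c v = i + 1 ∧ (∀ f, T.tail f = v → T.tail (T.a⁻¹ f) ≠ r0), T.w2 v +
      ∑ v with c v = i + 2 ∧ (∀ f, T.tail f = v → T.tail (T.a f) ≠ r0), T.w1 v ≤
      ∑ k ∈ range K, (T.Pm c i r0 ^ (k + 1)).trace / (k + 1 : ℝ) := by
  classical
  have h := T.trace_sum_ge hc h0 hK
  have e1 : ∑ e with c (T.tail e) = i ∧ T.Av T.kap r0 e,
        (∏ j ∈ range (Function.minimalPeriod T.kap e), (1 / (T.deg (T.tail (T.kap^[j] e)) : ℝ))) /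
          (Function.minimalPeriod T.kap e : ℝ) =
      ∑ v with c v = i + 1 ∧ (∀ f, T.tail f = v → T.tail (T.a⁻¹ f) ≠ r0), T.w2 v := by
    refine Face_group T T.a _ _ _ _ (fun e => ?_) (fun e => ?_)
    · rw [Face_av, hc.a, add_left_inj]
    · rw [T.per_kap, T.prod_kap e (fun x => 1 / (T.deg (T.tail x) : ℝ))]
      rfl
  have e2 : ∑ e with c (T.tail e) = i ∧ T.Av T.kap2 r0 e,
        (∏ j ∈ range (Function.minimalPeriod T.kap2 e),
          (1 / (T.deg (T.tail (T.kap2^[j] e)) : ℝ))) /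
          (Function.minimalPeriod T.kap2 e : ℝ) =
      ∑ v with c v = i + 2 ∧ (∀ f, T.tail f = v → T.tail (T.a f) ≠ r0), T.w1 v := by
    refine Face_group T T.b⁻¹ _ _ _ _ (fun e => ?_) (fun e => ?_)
    · have h3 : ∀ x i : ZMod 3, x = i ↔ x - 1 = i + 2 := by decide
      rw [Face_av2, hc.binv, ← h3]
    · rw [T.per_kap2, T.prod_kap2 e (fun x => 1 / (T.deg (T.tail x) : ℝ))]
      congr 1
      refine prod_congr rfl fun f _ => ?_
      show 1 / (T.deg (T.tail (T.b f)) : ℝ) = _
      rw [T.tail_b]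
  rw [← e1, ← e2]
  convert h

end Pool.Agent.TS
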