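import Pool.Agent.helper31.TS.TorB
import Pool.Agent.helper31.TS.DetNe
import Pool.Agent.helper31.TS.DetExp
import Pool.Agent.helper31.TS.Face

/-!
# TS-13 (ClassB).  The bound from one colour class
-/

set_option autoImplicit false

open Finset

namespace Pool.Agent.TS

variable {E V : Type} [Fintype E] [Fintype V] [DecidableEq V]

omit [Fintype V] in
private theorem deg_ge_one (T : Tri E V) (v : V) : (1 : ℝ) ≤ T.deg v := by
  exact_mod_cast T.deg_pos v

omit [Fintype V] in
private theorem Pm_nonneg (T : Tri E V) (c : V → ZMod 3) (i : ZMod 3) (r0 : V)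
    (r s : RT c i r0) : 0 ≤ T.Pm c i r0 r s := by
  unfold Tri.Pm
  positivity

private theorem Pm_row (T : Tri E V) (c : V → ZMod 3) (i : ZMod 3) (r0 : V)
    (r : RT c i r0) : ∑ s, T.Pm c i r0 r s ≤ 1 := by
  classical
  unfold Tri.Pm
  rw [← Finset.sum_div, div_le_one (lt_of_lt_of_le one_pos (deg_ge_one T r))]
  have h : ∑ s : RT c i r0, #{e : E | T.tail e = r ∧ T.tail (T.kap e) = s} ≤ T.deg r := by
    rw [← Finset.card_biUnion]
    · unfold Tri.deg
      apply card_le_card
      intro e he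
      simp only [mem_biUnion, mem_univ, true_and, mem_filter] at he ⊢
      obtain ⟨s, hs, _⟩ := he
      exact hs
    · intro s _ s' _ hss
      rw [Function.onFun, Finset.disjoint_left]
      intro e he he'
      simp only [mem_filter, mem_univ, true_and] at he he'
      exact hss (Subtype.ext (he.2.symm.trans he'.2))
  exact_mod_cast h

private theorem Lm_eq (T : Tri E V) (c : V → ZMod 3) (i : ZMod 3) (r0 : V) :
    (T.Lm c i r0).map (Int.cast : ℤ → ℝ) =
      Matrix.diagonal (fun r : RT c i r0 => (T.deg r : ℝ)) * (1 - T.Pm c i r0) := by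
  ext r s
  rw [Matrix.diagonal_mul, Matrix.map_apply, Matrix.sub_apply, Matrix.one_apply]
  unfold Tri.Lm Tri.Pm
  have hd : (T.deg r : ℝ) ≠ 0 := (lt_of_lt_of_le one_pos (deg_ge_one T r)).ne'
  rw [mul_sub, mul_div_cancel₀ _ hd]
  push_cast
  split_ifs <;> simp

private theorem natAbs_det (T : Tri E V) (c : V → ZMod 3) (i : ZMod 3) (r0 : V) :
    ((T.Lm c i r0).det.natAbs : ℝ) =
      (∏ r : RT c i r0, (T.deg r : ℝ)) * (1 - T.Pm c i r0).det := by
  have h1 : (((T.Lm c i r0).det : ℤ) : ℝ) =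
      (∏ r : RT c i r0, (T.deg r : ℝ)) * (1 - T.Pm c i r0).det := by
    have h2 := congrArg Matrix.det (Lm_eq T c i r0)
    rw [Matrix.det_mul, Matrix.det_diagonal] at h2
    rw [← h2]
    exact (Int.castRingHom ℝ).map_det (T.Lm c i r0)
  have h3 : 0 ≤ (∏ r : RT c i r0, (T.deg r : ℝ)) * (1 - T.Pm c i r0).det :=
    mul_nonneg (prod_nonneg fun r _ => by positivity)
      (det_nonneg_of_row _ (Pm_nonneg T c i r0) (Pm_row T c i r0))
  rw [Nat.cast_natAbs, Int.cast_abs, h1, abs_of_nonneg h3]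

omit [Fintype V] in
private theorem fac_le_one (T : Tri E V) (v : V) : (1 / (T.deg v : ℝ)) ≤ 1 := by
  rw [div_le_one (lt_of_lt_of_le one_pos (deg_ge_one T v))]
  exact deg_ge_one T v

omit [Fintype V] in
private theorem fac_nonneg (T : Tri E V) (v : V) : 0 ≤ (1 / (T.deg v : ℝ)) := by positivity

/-- the general loss estimate -/
private theorem loss (T : Tri E V) (g : E → V) (s : E → V) (r0 : V)
    (q : Equiv.Perm E) (hq : ∀ e, g e = T.tail (q e)) (hsum : ∀ e, s (q e) = T.tail e)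
    (P : V → Prop) [DecidablePred P] :
    ∑ v with P v ∧ ∃ f, T.tail f = v ∧ g f = r0,
      ∏ f with T.tail f = v, (1 / (T.deg (g f) : ℝ)) ≤ 1 := by
  classical
  have h1 : ∀ v ∈ ({v | P v ∧ ∃ f, T.tail f = v ∧ g f = r0} : Finset V),
      ∏ f with T.tail f = v, (1 / (T.deg (g f) : ℝ)) ≤ 1 / (T.deg r0 : ℝ) := by
    intro v hv
    simp only [mem_filter, mem_univ, true_and] at hv
    obtain ⟨_, f, hf, hg⟩ := hv
    have hm : f ∈ ({f | T.tail f = v} : Finset E) := by simp [hf]
    rw [← mul_prod_erase _ _ hm, hg]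
    refine mul_le_of_le_one_right (fac_nonneg T r0) ?_
    exact prod_le_one (fun e _ => fac_nonneg T _) (fun e _ => fac_le_one T _)
  have h2 : #({v | P v ∧ ∃ f, T.tail f = v ∧ g f = r0} : Finset V) ≤ T.deg r0 := by
    unfold Tri.deg
    refine card_le_card_of_surjOn s ?_
    intro v hv
    simp only [coe_filter, mem_univ, true_and, Set.mem_ofPred_eq] at hv
    obtain ⟨_, f, hf, hg⟩ := hv
    refine ⟨q f, ?_, ?_⟩
    · simp only [coe_filter, mem_univ, true_and, Set.mem_ofPred_eq]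
      rw [← hq, hg]
    · rw [hsum, hf]
  refine (sum_le_sum h1).trans ?_
  rw [sum_const, nsmul_eq_mul]
  have hd : (0 : ℝ) < T.deg r0 := lt_of_lt_of_le one_pos (deg_ge_one T r0)
  rw [mul_one_div, div_le_one hd]
  exact_mod_cast h2

theorem Tri.class_bound (T : Tri E V) {c : V → ZMod 3} (hc : T.IsCol c) [Nonempty V]
    (i : ZMod 3) : (T.order : ℝ) ≤ Real.exp (∑ v with c v = i, Real.log (T.deg v) -
      ∑ v with c v = i + 1, T.w2 v - ∑ v with c v = i + 2, T.w1 v + 2) := by
  classical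
  obtain ⟨r0, h0⟩ := hc.surj i
  have h1 : (T.order : ℝ) ≤ ((T.Lm c i r0).det.natAbs : ℝ) := by
    exact_mod_cast T.order_le_det hc h0 (T.det_Lm_ne_zero hc h0)
  have hface := T.face_ge hc h0 (le_refl (Fintype.card E))
  have h2 := det_le_exp (T.Pm c i r0) (Pm_nonneg T c i r0) (Pm_row T c i r0) (Fintype.card E)
  have h3 : (∏ r : RT c i r0, (T.deg r : ℝ)) ≤ Real.exp (∑ v with c v = i, Real.log (T.deg v)) := by
    have h4 : (∏ r : RT c i r0, (T.deg r : ℝ)) ≤ ∏ v with c v = i, (T.deg v : ℝ) := by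
      have h5 : (∏ r : RT c i r0, (T.deg r : ℝ)) = ∏ v with c v = i ∧ v ≠ r0, (T.deg v : ℝ) := by
        rw [Finset.prod_subtype (p := fun v => c v = i ∧ v ≠ r0)
          (s := ({v | c v = i ∧ v ≠ r0} : Finset V)) (fun v => by simp)
          (fun v => (T.deg v : ℝ))]
      rw [h5]
      have h6 : (∏ v with c v = i ∧ v ≠ r0, T.deg v) ≤ ∏ v with c v = i, T.deg v := by
        refine prod_le_prod_of_subset_of_one_le' ?_ ?_
        · intro v hv
          simp only [mem_filter, mem_univ, true_and] at hv ⊢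
          exact hv.1
        · intro v _ _
          exact T.deg_pos v
      exact_mod_cast h6
    refine h4.trans ?_
    rw [Real.exp_sum]
    refine prod_le_prod (fun v _ => by positivity) fun v _ => ?_
    rw [Real.exp_log (lt_of_lt_of_le one_pos (deg_ge_one T v))]
  have hA : ∑ v with c v = i + 1, T.w2 v ≤
      ∑ v with c v = i + 1 ∧ (∀ f, T.tail f = v → T.tail (T.a⁻¹ f) ≠ r0), T.w2 v + 1 := by
    have h5 := loss T (fun f => T.tail (T.a⁻¹ f)) (fun e => T.tail (T.a e)) r0
      T.a⁻¹ (fun _ => rfl) (fun e => by rw [self_inv]) (fun v => c v = i + 1)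
    have h6 : ∑ v with c v = i + 1, T.w2 v =
        ∑ v with c v = i + 1 ∧ (∀ f, T.tail f = v → T.tail (T.a⁻¹ f) ≠ r0), T.w2 v +
        ∑ v with c v = i + 1 ∧ ∃ f, T.tail f = v ∧ T.tail (T.a⁻¹ f) = r0, T.w2 v := by
      rw [← sum_filter_add_sum_filter_not ({v | c v = i + 1} : Finset V)
        (fun v => ∀ f, T.tail f = v → T.tail (T.a⁻¹ f) ≠ r0), filter_filter, filter_filter]
      congr 1
      apply sum_congr _ fun _ _ => rfl
      ext v
      simp only [mem_filter, mem_univ, true_and, not_forall, not_not, exists_prop, ne_eq]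
    rw [h6]
    gcongr
    exact h5
  have hB : ∑ v with c v = i + 2, T.w1 v ≤
      ∑ v with c v = i + 2 ∧ (∀ f, T.tail f = v → T.tail (T.a f) ≠ r0), T.w1 v + 1 := by
    have h5 := loss T (fun f => T.tail (T.a f)) (fun e => T.tail (T.a⁻¹ e)) r0
      T.a (fun _ => rfl) (fun e => by rw [inv_self]) (fun v => c v = i + 2)
    have h6 : ∑ v with c v = i + 2, T.w1 v =
        ∑ v with c v = i + 2 ∧ (∀ f, T.tail f = v → T.tail (T.a f) ≠ r0), T.w1 v +
        ∑ v with c v = i + 2 ∧ ∃ f, T.tail f = v ∧ T.tail (T.a f) = r0, T.w1 v := by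
      rw [← sum_filter_add_sum_filter_not ({v | c v = i + 2} : Finset V)
        (fun v => ∀ f, T.tail f = v → T.tail (T.a f) ≠ r0), filter_filter, filter_filter]
      congr 1
      apply sum_congr _ fun _ _ => rfl
      ext v
      simp only [mem_filter, mem_univ, true_and, not_forall, not_not, exists_prop, ne_eq]
    rw [h6]
    gcongr
    exact h5
  calc (T.order : ℝ) ≤ ((T.Lm c i r0).det.natAbs : ℝ) := h1
    _ = (∏ r : RT c i r0, (T.deg r : ℝ)) * (1 - T.Pm c i r0).det := natAbs_det T c i r0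
    _ ≤ Real.exp (∑ v with c v = i, Real.log (T.deg v)) *
        Real.exp (-∑ k ∈ range (Fintype.card E), (T.Pm c i r0 ^ (k + 1)).trace / (k + 1 : ℝ)) :=
      mul_le_mul h3 h2 (det_nonneg_of_row _ (Pm_nonneg T c i r0) (Pm_row T c i r0))
        (Real.exp_pos _).le
    _ ≤ _ := by
      rw [← Real.exp_add, Real.exp_le_exp]
      linarith

theorem Tri.order_cube (T : Tri E V) {c : V → ZMod 3} (hc : T.IsCol c) [Nonempty V] :
    (T.order : ℝ) ^ 3 ≤ Real.exp (∑ v, (Real.log (T.deg v) - T.w1 v - T.w2 v) + 6) := by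
  have h0 := T.class_bound hc 0
  have h1 := T.class_bound hc 1
  have h2 := T.class_bound hc 2
  have hp : (T.order : ℝ) ^ 3 = T.order * T.order * T.order := by ring
  rw [hp]
  refine (mul_le_mul (mul_le_mul h0 h1 (Nat.cast_nonneg _) (Real.exp_pos _).le) h2
    (Nat.cast_nonneg _) (mul_pos (Real.exp_pos _) (Real.exp_pos _)).le).trans ?_
  rw [← Real.exp_add, ← Real.exp_add, Real.exp_le_exp]
  have key : ∀ g : V → ℝ, ∑ v, g v = ∑ v with c v = 0, g v + ∑ v with c v = 1, g v +
      ∑ v with c v = 2, g v := by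
    intro g
    rw [← sum_fiberwise univ c g]
    exact Fin.sum_univ_three _
  rw [sum_sub_distrib, sum_sub_distrib, key (fun v => Real.log (T.deg v)), key (fun v => T.w1 v),
    key (fun v => T.w2 v)]
  have e1 : (0 : ZMod 3) + 1 = 1 := rfl
  have e2 : (0 : ZMod 3) + 2 = 2 := rfl
  have e3 : (1 : ZMod 3) + 1 = 2 := rfl
  have e4 : (1 : ZMod 3) + 2 = 0 := rfl
  have e5 : (2 : ZMod 3) + 1 = 0 := rfl
  have e6 : (2 : ZMod 3) + 2 = 1 := rfl
  rw [e1, e2, e3, e4, e5, e6]
  linarith

end Pool.Agent.TS
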