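import Pool.Agent.helper31.TS.Basic

/-!
(proofs: helper51)
# TS-1 (ColA).  Functions and a permutation of order three

PROOF of `finrank_invF`.  Let `Q = Quotient (Equiv.Perm.SameCycle.setoid s)` (or any quotient by
`e ~ s e`).  Every class is `{e, s e, s (s e)}` with three different elements (`s (s e) = e` would give
`s e = s (s (s e)) = e`).  So `card E = 3 card Q` (`Finset.card_eq_sum_card_fiberwise` or
`Fintype.card_sigma`), and `invF s` is linearly equivalent to `Q → ZMod 3` (`Quotient.lift`),
`Module.finrank_pi`.

PROOF of `mem_sumF_iff`.  (`→`) group the sum `∑ e, g e * h e` by the classes: on the class of `e` it is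
`(g e + g (s e) + g (s (s e))) * h e = 0` (do not divide by `3`: the characteristic is `3`).
(`←`) for `e` take `h =` the indicator function of `{e, s e, s (s e)}`, which is in `invF s`.
-/

set_option autoImplicit false

open Finset

namespace Pool.Agent.TS

/-- functions with values in `F_3` which are invariant under `s` -/
def invF {E : Type} (s : Equiv.Perm E) : Submodule (ZMod 3) (E → ZMod 3) where
  carrier := {g | ∀ e, g (s e) = g e}
  add_mem' := fun {g h} hg hh e => by simp only [Pi.add_apply, hg e, hh e]
  zero_mem' := fun e => rfl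
  smul_mem' := fun c g hg e => by simp only [Pi.smul_apply, hg e]

/-- functions with values in `F_3` which sum to zero over every cycle of `s` -/
def sumF {E : Type} (s : Equiv.Perm E) : Submodule (ZMod 3) (E → ZMod 3) where
  carrier := {g | ∀ e, g e + g (s e) + g (s (s e)) = 0}
  add_mem' := fun {g h} hg hh e => by
    have h1 : g e + g (s e) + g (s (s e)) = 0 := hg e
    have h2 : h e + h (s e) + h (s (s e)) = 0 := hh e
    show (g e + h e) + (g (s e) + h (s e)) + (g (s (s e)) + h (s (s e))) = 0
    linear_combination h1 + h2
  zero_mem' := fun e => by simp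
  smul_mem' := fun c g hg e => by
    have h1 : g e + g (s e) + g (s (s e)) = 0 := hg e
    show c * g e + c * g (s e) + c * g (s (s e)) = 0
    rw [← mul_add, ← mul_add, h1, mul_zero]

/-- the cycles of `s` -/
private def ColA_setoid {E : Type} (s : Equiv.Perm E) (h3 : ∀ e, s (s (s e)) = e) : Setoid E where
  r := fun e f => f = e ∨ f = s e ∨ f = s (s e)
  iseqv :=
    { refl := fun e => Or.inl rfl
      symm := by
        rintro e f (h | h | h)
        · exact Or.inl h.symm
        · refine Or.inr (Or.inr ?_)
          rw [h, h3]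
        · refine Or.inr (Or.inl ?_)
          rw [h, h3]
      trans := by
        rintro e f g (h | h | h) (h' | h' | h')
        · rw [h', h]
          exact Or.inl rfl
        · rw [h', h]
          exact Or.inr (Or.inl rfl)
        · rw [h', h]
          exact Or.inr (Or.inr rfl)
        · rw [h', h]
          exact Or.inr (Or.inl rfl)
        · rw [h', h]
          exact Or.inr (Or.inr rfl)
        · rw [h', h, h3]
          exact Or.inl rfl
        · rw [h', h]
          exact Or.inr (Or.inr rfl)
        · rw [h', h, h3]
          exact Or.inl rfl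
        · rw [h', h, h3]
          exact Or.inr (Or.inl rfl) }

private theorem ColA_ne {E : Type} {s : Equiv.Perm E} (hne : ∀ e, s e ≠ e)
    (h3 : ∀ e, s (s (s e)) = e) (e : E) : e ≠ s e ∧ e ≠ s (s e) ∧ s e ≠ s (s e) := by
  refine ⟨(hne e).symm, ?_, (hne (s e)).symm⟩
  intro h
  have h1 := h3 e
  rw [← h] at h1
  exact hne e h1

/-- sums over the cycles of `s` -/
private theorem ColA_sum {E : Type} [Fintype E] (s : Equiv.Perm E) (hne : ∀ e, s e ≠ e)
    (h3 : ∀ e, s (s (s e)) = e) : ∃ (Q : Type) (_ : Fintype Q) (p : E → Q),
      Function.Surjective p ∧ (∀ e f, p e = p f ↔ (f = e ∨ f = s e ∨ f = s (s e))) ∧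
      ∀ (M : Type) [AddCommMonoid M] (F : E → M) (G : Q → M),
        (∀ e, F e + F (s e) + F (s (s e)) = G (p e)) → ∑ e, F e = ∑ q, G q := by
  classical
  let r := ColA_setoid s h3
  refine ⟨Quotient r, Fintype.ofFinite _, Quotient.mk r, Quotient.mk_surjective, ?_, ?_⟩
  · intro e f
    exact Quotient.eq
  · intro M _ F G h
    letI : Fintype (Quotient r) := Fintype.ofFinite _
    rw [← sum_fiberwise univ (Quotient.mk r) F]
    refine sum_congr rfl fun q _ => ?_
    obtain ⟨e, rfl⟩ := Quotient.mk_surjective q
    rw [← h e]
    obtain ⟨n1, n2, n3⟩ := ColA_ne hne h3 e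
    have hset : (univ.filter fun f => Quotient.mk r f = Quotient.mk r e) = {e, s e, s (s e)} := by
      ext f
      simp only [mem_filter, mem_univ, true_and, mem_insert, mem_singleton]
      constructor
      · intro hf
        exact (Quotient.eq (r := r)).1 hf.symm
      · intro hf
        exact ((Quotient.eq (r := r)).2 hf).symm
    rw [hset, sum_insert, sum_insert, sum_singleton, add_assoc]
    · rw [mem_singleton]
      exact n3
    · rw [mem_insert, mem_singleton, not_or]
      exact ⟨n1, n2⟩

theorem finrank_invF {E : Type} [Fintype E] (s : Equiv.Perm E) (hne : ∀ e, s e ≠ e)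
    (h3 : ∀ e, s (s (s e)) = e) : 3 * Module.finrank (ZMod 3) (invF s) = Fintype.card E := by
  classical
  obtain ⟨Q, hQ, p, hp, hpe, hsum⟩ := ColA_sum s hne h3
  have hcard : Fintype.card E = 3 * Fintype.card Q := by
    have h1 := hsum ℕ (fun _ => 1) (fun _ => 3) (fun _ => rfl)
    simp only [sum_const, smul_eq_mul, mul_one] at h1
    rw [← card_univ, h1, card_univ, mul_comm]
  have hr : invF s = LinearMap.range (LinearMap.funLeft (ZMod 3) (ZMod 3) p) := by
    ext g
    constructor
    · intro hg
      have hg' : ∀ e, g (s e) = g e := hg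
      refine ⟨fun q => g (Function.surjInv hp q), ?_⟩
      funext e
      change g (Function.surjInv hp (p e)) = g e
      have h1 : p (Function.surjInv hp (p e)) = p e := Function.surjInv_eq hp (p e)
      rcases (hpe _ _).1 h1 with h2 | h2 | h2
      · rw [← h2]
      · conv_rhs => rw [h2]
        rw [hg']
      · conv_rhs => rw [h2]
        rw [hg', hg']
    · rintro ⟨φ, rfl⟩ e
      change φ (p (s e)) = φ (p e)
      rw [(hpe e (s e)).2 (Or.inr (Or.inl rfl))]
  rw [hr, LinearMap.finrank_range_of_inj
    (LinearMap.funLeft_injective_of_surjective (ZMod 3) (ZMod 3) p hp), Module.finrank_pi, hcard]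

theorem mem_sumF_iff {E : Type} [Fintype E] (s : Equiv.Perm E) (hne : ∀ e, s e ≠ e)
    (h3 : ∀ e, s (s (s e)) = e) (g : E → ZMod 3) :
    g ∈ sumF s ↔ ∀ h ∈ invF s, ∑ e, g e * h e = 0 := by
  classical
  constructor
  · intro hg h hh
    have hg' : ∀ e, g e + g (s e) + g (s (s e)) = 0 := hg
    have hh' : ∀ e, h (s e) = h e := hh
    obtain ⟨Q, hQ, p, hp, hpe, hsum⟩ := ColA_sum s hne h3
    rw [hsum (ZMod 3) (fun e => g e * h e) (fun _ => 0)]
    · exact sum_const_zero
    · intro e
      simp only [hh']
      rw [← add_mul, ← add_mul, hg' e, zero_mul]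
  · intro hall e
    obtain ⟨n1, n2, n3⟩ := ColA_ne hne h3 e
    have h1 := hall (fun f => if f = e ∨ f = s e ∨ f = s (s e) then 1 else 0) (by
      intro f
      change (if s f = e ∨ s f = s e ∨ s f = s (s e) then (1 : ZMod 3) else 0) =
        if f = e ∨ f = s e ∨ f = s (s e) then 1 else 0
      have hiff : (s f = e ∨ s f = s e ∨ s f = s (s e)) ↔ (f = e ∨ f = s e ∨ f = s (s e)) := by
        rw [s.injective.eq_iff, s.injective.eq_iff]
        have h4 : s f = e ↔ f = s (s e) := by
          constructor
          · intro h
            rw [← h, h3]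
          · intro h
            rw [h, h3]
        rw [h4]
        tauto
      simp only [hiff])
    have hset : (univ.filter fun f => f = e ∨ f = s e ∨ f = s (s e)) = {e, s e, s (s e)} := by
      ext f
      simp only [mem_filter, mem_univ, true_and, mem_insert, mem_singleton]
    simp only [mul_ite, mul_one, mul_zero] at h1
    rw [← sum_filter, hset, sum_insert, sum_insert, sum_singleton, ← add_assoc] at h1
    · exact h1
    · rw [mem_singleton]
      exact n3
    · rw [mem_insert, mem_singleton, not_or]
      exact ⟨n1, n2⟩

end Pool.Agent.TS
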