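import Pool.Agent.helper31.TS.ColA

/-!
# TS-2 (ColB).  The vertices of a triangulation of the sphere can be coloured with three colours

PROOF.  `F = ZMod 3`.  Let `W = invF a ⊔ invF b` and `Z = sumF a ⊓ sumF b`, subspaces of `E → F`.  By
`mem_sumF_iff`, `Z` is the orthogonal complement of `W` for the (nondegenerate) dot product, so
`finrank Z = card E - finrank W` (`LinearMap.BilinForm.finrank_orthogonal`, or the dual annihilator with
`Subspace.finrank_add_finrank_dualAnnihilator_eq` / `dotProductEquiv`, or rank-nullity).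
`finrank W = finrank (invF a) + finrank (invF b) - finrank (invF a ⊓ invF b) = t + t - 1`
(`finrank_invF`, `Submodule.finrank_sup_add_finrank_inf_eq`; `invF a ⊓ invF b` consists of the constant
functions: for `g` in it and `x = g e₀` the set `{e | g e = x}` is nonempty and closed under `a`, `b`, so
it is everything, `T.conn`; `E` is nonempty as `V` is and `tail` is surjective).  So `finrank Z = t + 1`
(in `ℕ`: `finrank Z + 2 t = 3 t + 1`).
Let `d : (V → F) →ₗ (E → F)`, `(d f) e = f (tail (a e)) - f (tail e)`.  Its kernel consists of the constant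
functions (`T.const_of`), so `finrank (range d) = (t + 2) - 1 = t + 1` (`LinearMap.finrank_range_add_finrank_ker`).
`range d ≤ Z`: telescoping, `f (tail (a e)) - f (tail e) + f (tail (a (a e))) - f (tail (a e)) +
f (tail e) - f (tail (a (a e))) = 0` and `tail (a e) = tail (b e)` (`T.tail_b`), so the same for `b`.
So `range d = Z` (`Submodule.eq_of_le_of_finrank_eq`).  The constant function `1` is in `Z` (`1 + 1 + 1 = 0`),
so `1 = d c`.
-/

set_option autoImplicit false

open Finset

namespace Pool.Agent.TS

variable {E V : Type} [Fintype E] [Fintype V] [DecidableEq V]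

/-- the coboundary map -/
private def colD (T : Tri E V) : (V → ZMod 3) →ₗ[ZMod 3] (E → ZMod 3) where
  toFun f e := f (T.tail (T.a e)) - f (T.tail e)
  map_add' f g := by
    funext e
    simp only [Pi.add_apply]
    ring
  map_smul' c f := by
    funext e
    simp only [Pi.smul_apply, smul_eq_mul, RingHom.id_apply]
    ring

omit [Fintype E] [Fintype V] [DecidableEq V] in
private theorem colD_apply (T : Tri E V) (f : V → ZMod 3) (e : E) :
    colD T f e = f (T.tail (T.a e)) - f (T.tail e) := rfl

omit [Fintype E] [Fintype V] [DecidableEq V] in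
private theorem colD_range (T : Tri E V) :
    LinearMap.range (colD T) ≤ sumF T.a ⊓ sumF T.b := by
  rintro _ ⟨f, rfl⟩
  constructor
  · intro e
    rw [colD_apply, colD_apply, colD_apply, T.a_cube]
    ring
  · intro e
    rw [colD_apply, colD_apply, colD_apply, ← T.tail_b e, ← T.tail_b (T.b e),
      ← T.tail_b (T.b (T.b e)), T.b_cube]
    ring

omit [Fintype E] [Fintype V] [DecidableEq V] in
private theorem col_inf (T : Tri E V) (e0 : E) :
    invF T.a ⊓ invF T.b = Submodule.span (ZMod 3) {(1 : E → ZMod 3)} := by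
  ext g
  rw [Submodule.mem_inf, Submodule.mem_span_singleton]
  constructor
  · rintro ⟨ha, hb⟩
    refine ⟨g e0, ?_⟩
    have h1 := T.conn {x | g x = g e0} ⟨e0, rfl⟩ (by
      intro x hx
      have hx' : g x = g e0 := hx
      exact ⟨(ha x).trans hx', (hb x).trans hx'⟩)
    funext x
    have h2 : x ∈ {x | g x = g e0} := by rw [h1]; trivial
    have h3 : g x = g e0 := h2
    simp [h3]
  · rintro ⟨c, rfl⟩
    exact ⟨fun e => rfl, fun e => rfl⟩

omit [Fintype E] [Fintype V] [DecidableEq V] in
private theorem col_ker (T : Tri E V) (v0 : V) :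
    LinearMap.ker (colD T) = Submodule.span (ZMod 3) {(1 : V → ZMod 3)} := by
  ext f
  rw [LinearMap.mem_ker, Submodule.mem_span_singleton]
  constructor
  · intro h
    refine ⟨f v0, ?_⟩
    have h1 := T.const_of f (fun e => by
      have h2 := congrFun h e
      rw [colD_apply] at h2
      exact sub_eq_zero.1 h2)
    funext v
    simp [h1 v v0]
  · rintro ⟨c, rfl⟩
    funext e
    rw [colD_apply]
    simp

omit [Fintype V] [DecidableEq V] in
private theorem col_Z (T : Tri E V) :
    Module.finrank (ZMod 3) ↥(invF T.a ⊔ invF T.b) +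
      Module.finrank (ZMod 3) ↥(sumF T.a ⊓ sumF T.b) = Fintype.card E := by
  classical
  haveI : Fact (Nat.Prime 3) := ⟨Nat.prime_three⟩
  have h1 := Subspace.finrank_add_finrank_dualAnnihilator_eq (K := ZMod 3)
    (V := E → ZMod 3) (invF T.a ⊔ invF T.b)
  rw [Module.finrank_fintype_fun_eq_card] at h1
  have hp : (sumF T.a ⊓ sumF T.b).map (dotProductEquiv (ZMod 3) E).toLinearMap =
      (invF T.a ⊔ invF T.b).dualAnnihilator := by
    rw [Submodule.dualAnnihilator_sup_eq]
    ext φ
    rw [Submodule.mem_map, Submodule.mem_inf, Submodule.mem_dualAnnihilator,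
      Submodule.mem_dualAnnihilator]
    constructor
    · rintro ⟨g, ⟨hg1, hg2⟩, rfl⟩
      exact ⟨fun w hw => (mem_sumF_iff T.a T.a_ne T.a_cube g).1 hg1 w hw,
        fun w hw => (mem_sumF_iff T.b T.b_ne T.b_cube g).1 hg2 w hw⟩
    · rintro ⟨h2, h3⟩
      obtain ⟨g, rfl⟩ := (dotProductEquiv (ZMod 3) E).surjective φ
      exact ⟨g, ⟨(mem_sumF_iff T.a T.a_ne T.a_cube g).2 h2,
        (mem_sumF_iff T.b T.b_ne T.b_cube g).2 h3⟩, rfl⟩
  rw [← hp, LinearEquiv.finrank_map_eq] at h1
  exact h1

theorem Tri.exists_col (T : Tri E V) {t : ℕ} (hE : Fintype.card E = 3 * t)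
    (hV : Fintype.card V = t + 2) :
    ∃ c : V → ZMod 3, ∀ e, c (T.tail (T.a e)) = c (T.tail e) + 1 := by
  classical
  haveI : Fact (Nat.Prime 3) := ⟨Nat.prime_three⟩
  obtain ⟨v0⟩ : Nonempty V := Fintype.card_pos_iff.1 (by omega)
  obtain ⟨e0, -⟩ := T.tail_surj v0
  have hone : Module.finrank (ZMod 3) ↥(invF T.a ⊓ invF T.b) = 1 := by
    rw [col_inf T e0]
    exact finrank_span_singleton (fun h => one_ne_zero (congrFun h e0))
  have hker : Module.finrank (ZMod 3) (LinearMap.ker (colD T)) = 1 := by
    rw [col_ker T v0]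
    exact finrank_span_singleton (fun h => one_ne_zero (congrFun h v0))
  have h1 := Submodule.finrank_sup_add_finrank_inf_eq (invF T.a) (invF T.b)
  have h2 := finrank_invF T.a T.a_ne T.a_cube
  have h3 := finrank_invF T.b T.b_ne T.b_cube
  have h4 := col_Z T
  have h5 := LinearMap.finrank_range_add_finrank_ker (colD T)
  rw [Module.finrank_fintype_fun_eq_card] at h5
  have h6 : LinearMap.range (colD T) = sumF T.a ⊓ sumF T.b :=
    Submodule.eq_of_le_of_finrank_eq (colD_range T) (by omega)
  have h7 : (1 : E → ZMod 3) ∈ sumF T.a ⊓ sumF T.b := ⟨fun e => rfl, fun e => rfl⟩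
  rw [← h6] at h7
  obtain ⟨c, hc⟩ := h7
  refine ⟨c, fun e => ?_⟩
  have h8 := congrFun hc e
  rw [colD_apply, Pi.one_apply] at h8
  linear_combination h8

end Pool.Agent.TS
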