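import Mathlib

/-!
# Torsion of the groups of face 2-coloured triangulations of the sphere (MP_e314fa_co): definitions

A properly face 2-coloured triangulation is encoded by its edges.  Every edge lies on exactly one white
and one black triangle; we orient it so that the white triangle is on its left.  `tail e` is the first
vertex of `e`; `a e` (`b e`) is the next edge on the boundary of the white (black) triangle of `e`.  So
`a`, `b` are permutations of order 3 without fixed points, the white (black) triangles are the cycles of
`a` (`b`), and the edges which leave a vertex are the cycles of `b * a⁻¹` (the next edge, in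
counterclockwise order, which leaves the same vertex).
-/

set_option autoImplicit false

open Filter

namespace Pool.Agent.TS

/-- A connected properly face 2-coloured triangulation of a closed oriented surface with set of edges
`E` and set of vertices `V`.  It has `t` white and `t` black triangles if `E` has `3 t` elements; the
surface is the sphere if moreover `V` has `t + 2` elements (Euler's formula). -/
structure Tri (E V : Type) where
  tail : E → V
  a : Equiv.Perm E
  b : Equiv.Perm E
  a_ne : ∀ e, a e ≠ e
  b_ne : ∀ e, b e ≠ e
  a_cube : ∀ e, a (a (a e)) = e
  b_cube : ∀ e, b (b (b e)) = e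
  tail_surj : Function.Surjective tail
  tail_eq : ∀ e f, tail e = tail f ↔ (b * a⁻¹).SameCycle e f
  conn : ∀ S : Set E, S.Nonempty → (∀ e ∈ S, a e ∈ S ∧ b e ∈ S) → S = Set.univ

variable {E V : Type} [DecidableEq V]

/-- the relation `r + c + s` of the white triangle which contains the edge `e` -/
def Tri.rel (T : Tri E V) (e : E) : V → ℤ :=
  Pi.single (T.tail e) 1 + Pi.single (T.tail (T.a e)) 1 + Pi.single (T.tail (T.a (T.a e))) 1

/-- the subgroup generated by the relations of the white triangles -/
def Tri.relSub (T : Tri E V) : AddSubgroup (V → ℤ) := AddSubgroup.closure (Set.range T.rel)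

/-- the group `A_W` -/
abbrev Tri.Grp (T : Tri E V) : Type := (V → ℤ) ⧸ T.relSub

/-- the order of the torsion subgroup `C_W` of `A_W` -/
noncomputable def Tri.order (T : Tri E V) : ℕ := Nat.card (AddCommGroup.torsion T.Grp)

/-- `m_t`: the largest order of `C_W` for the triangulations of the sphere with `t` white and `t` black
triangles -/
noncomputable def mt (t : ℕ) : ℕ :=
  sSup (Set.range fun T : Tri (Fin (3 * t)) (Fin (t + 2)) => T.order)

/-- `L = limsup m_t ^ (1 / t)` -/
noncomputable def LL : ℝ := limsup (fun t : ℕ => (mt t : ℝ) ^ (1 / (t : ℝ))) atTop

end Pool.Agent.TS
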