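import Mathlib

/-!
# TS-4 (DetIdx).  The index of the row lattice of an integral matrix

author of the proof: helper56

PROOF.  The rows are linearly independent over `ℤ` (`Matrix.linearIndependent_rows_of_det_ne_zero` or over
`ℚ`), so they form a basis `bN` of the subgroup they generate (`Basis.span` after
`Submodule.span_int_eq_addSubgroupClosure` / `AddSubgroup.toIntSubmodule`), and
`AddSubgroup.index_eq_natAbs_det` (file `Mathlib/LinearAlgebra/FreeModule/Finite/CardQuotient.lean`) with the
standard basis `Pi.basisFun ℤ ι` gives the index `|det|` (`Basis.det_apply`, `Basis.toMatrix`,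
`Matrix.det_transpose`); `AddSubgroup.index` is the cardinality of the quotient.
-/

set_option autoImplicit false

open Finset

namespace Pool.Agent.TS

theorem card_quot_rows {ι : Type} [Fintype ι] [DecidableEq ι] (M : Matrix ι ι ℤ) (h : M.det ≠ 0) :
    Nat.card ((ι → ℤ) ⧸ AddSubgroup.closure (Set.range fun i => M i)) = M.det.natAbs := by
  have hli : LinearIndependent ℤ (fun i => M i) := Matrix.linearIndependent_rows_of_det_ne_zero h
  have hcl : AddSubgroup.closure (Set.range fun i => M i) =
      (Submodule.span ℤ (Set.range fun i => M i)).toAddSubgroup :=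
    (Submodule.span_int_eq_addSubgroupClosure (Set.range fun i => M i)).symm
  rw [hcl]
  have h1 := Submodule.natAbs_det_basis_change (Pi.basisFun ℤ ι)
    (Submodule.span ℤ (Set.range fun i => M i)) (Module.Basis.span hli)
  change Nat.card ((ι → ℤ) ⧸ Submodule.span ℤ (Set.range fun i => M i)) = _
  rw [← h1]
  congr 1
  have h2 : ((↑) ∘ (Module.Basis.span hli) : ι → (ι → ℤ)) = fun i => M i := by
    funext i
    simp only [Function.comp_apply]
    rw [Module.Basis.span_apply hli i]
  rw [h2, Pi.basisFun_det]
  rfl

end Pool.Agent.TS
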