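import Pool.Agent.helper31.TS.FamFou

/-!
# TS-21 (FamBj).  The blocks for large `H`  (author: helper58)

Put `φ_l = 2 π (j + n l) / (3 n)`, `m_l = exp (i φ_l) = mu n j l`, `λ_l = -(1 + m_l)`,
`β0 l = m_l⁻¹ + m_l = 2 cos φ_l`, `β1 l = m_l⁻¹ + 1 + m_l = 1 + 2 cos φ_l = 4 cos² (φ_l / 2) - 1`,
`β2 l = m_l + m_l ^ 2`; `|λ_l| = |β2 l| = 2 |cos (φ_l / 2)|`.  Laplace expansion along row `0`
(`Matrix.det_fin_three`):
`det Bj = β0 0 (λ_1 λ_2)^H μ12 - β0 1 (λ_0 λ_2)^H μ02 + β0 2 (λ_0 λ_1)^H μ01`, `μab = β1 a β2 b - β1 b β2 a`.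

PROOF of `Bj_zero` (`j = 0`): `m_0 = 1`, `m_1 = ζ`, `m_2 = ζ²`, `ζ = exp (2 π i / 3)`, `1 + ζ + ζ² = 0`:
`λ_0 = -2`, `λ_1 = ζ²`, `λ_2 = ζ`; `β1 1 = β1 2 = 0`, `β1 0 = 3`, `β0 1 = β0 2 = -1`, `β2 1 = ζ + ζ² = -1`,
`β2 2 = ζ² + ζ⁴ = -1`.  With `H = 1` modulo `3`, `λ_1^H = ζ²`, `λ_2^H = ζ`.  The middle row is
`(3 (-2)^H, 0, 0)`, so `det = - 3 (-2)^H (β0 1 λ_2^H β2 2 - β0 2 λ_1^H β2 1) = - 3 (-2)^H (ζ - ζ²)`,
`|ζ - ζ²| = √3`.

PROOF of `Bj_ge` (`0 < j < n`, `n` odd).  `φ_0/2 = π j/(3n) ∈ (0, π/3)`, `|λ_0| = 2 cos (π j/(3n)) =: 2 p ∈ (1, 2)`;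
`φ_1/2 = π/3 + π j/(3n) ∈ (π/3, 2π/3)`, `|λ_1| < 1`; `φ_2/2 = 2π/3 + π j/(3n)`,
`|λ_2| = 2 cos (π/3 - π j/(3n)) = 2 cos (π (n-j)/(3n)) =: 2 q ∈ (1, 2)`.  So `|λ_0 λ_2| = ell n j`, and
`|λ_1 λ_2| / |λ_0 λ_2|`, `|λ_0 λ_1| / |λ_0 λ_2|` are `< 1`: `det Bj / (λ_0 λ_2)^H → - β0 1 * μ02`.
`β0 1 = 2 cos φ_1 ≤ -1` (`φ_1 ∈ (2π/3, 4π/3)`).  `μ02 ≠ 0`: `|β1 0 β2 2| = (4 p² - 1) 2 q` and
`|β1 2 β2 0| = (4 q² - 1) 2 p` are different, because `p ≠ q` (`j ≠ n - j` as `n` is odd, and `cos` is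
injective on `[0, π]`) and `x ↦ 4 x - 1 / x` is strictly increasing for `x > 0`.  So with
`κ = |β0 1 * μ02| / 2 > 0` the inequality holds for large `H`.
-/

set_option autoImplicit false

open Finset Filter

namespace Pool.Agent.TS

/-- the modulus of the product of the two large modes -/
noncomputable def ell (n j : ℕ) : ℝ :=
  (2 * Real.cos (Real.pi * j / (3 * n))) * (2 * Real.cos (Real.pi * ((n : ℝ) - j) / (3 * n)))

private theorem e_sum (ψ : ℝ) : (Complex.exp ((2 * ψ : ℝ) * Complex.I))⁻¹ +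
    Complex.exp ((2 * ψ : ℝ) * Complex.I) = ((2 * Real.cos (2 * ψ) : ℝ) : ℂ) := by
  rw [← Complex.exp_neg, Complex.ofReal_mul 2 (Real.cos _), Complex.ofReal_cos,
    Complex.ofReal_ofNat, Complex.two_cos, ← neg_mul, add_comm]

private theorem e_one (ψ : ℝ) : (Complex.exp ((2 * ψ : ℝ) * Complex.I))⁻¹ + 1 +
    Complex.exp ((2 * ψ : ℝ) * Complex.I) = ((4 * Real.cos ψ ^ 2 - 1 : ℝ) : ℂ) := by
  have h1 := e_sum ψ
  rw [Real.cos_two_mul] at h1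
  have h2 : (Complex.exp ((2 * ψ : ℝ) * Complex.I))⁻¹ + 1 +
    Complex.exp ((2 * ψ : ℝ) * Complex.I) = ((Complex.exp ((2 * ψ : ℝ) * Complex.I))⁻¹ +
    Complex.exp ((2 * ψ : ℝ) * Complex.I)) + 1 := by ring
  rw [h2, h1]
  push_cast
  ring

private theorem e_norm (ψ : ℝ) : ‖Complex.exp ((2 * ψ : ℝ) * Complex.I)‖ = 1 :=
  Complex.norm_exp_ofReal_mul_I _

private theorem e_lam (ψ : ℝ) : ‖1 + Complex.exp ((2 * ψ : ℝ) * Complex.I)‖ = 2 * |Real.cos ψ| := by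
  have h1 : 1 + Complex.exp ((2 * ψ : ℝ) * Complex.I) =
      Complex.exp ((ψ : ℝ) * Complex.I) * (2 * Real.cos ψ : ℝ) := by
    rw [Complex.ofReal_mul 2 (Real.cos _), Complex.ofReal_cos, Complex.ofReal_ofNat,
      Complex.two_cos, mul_add, ← Complex.exp_add, ← Complex.exp_add]
    have e1 : (ψ : ℂ) * Complex.I + -(ψ : ℂ) * Complex.I = 0 := by ring
    have e2 : (ψ : ℂ) * Complex.I + (ψ : ℂ) * Complex.I = ((2 * ψ : ℝ) : ℂ) * Complex.I := by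
      push_cast; ring
    rw [e1, e2, Complex.exp_zero, add_comm]
  rw [h1, norm_mul, Complex.norm_exp_ofReal_mul_I, one_mul, Complex.norm_real, Real.norm_eq_abs,
    abs_mul, abs_two]

private theorem e_bet (ψ : ℝ) : ‖Complex.exp ((2 * ψ : ℝ) * Complex.I) +
    Complex.exp ((2 * ψ : ℝ) * Complex.I) ^ 2‖ = 2 * |Real.cos ψ| := by
  have h1 : Complex.exp ((2 * ψ : ℝ) * Complex.I) + Complex.exp ((2 * ψ : ℝ) * Complex.I) ^ 2 =
      Complex.exp ((2 * ψ : ℝ) * Complex.I) * (1 + Complex.exp ((2 * ψ : ℝ) * Complex.I)) := by ring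
  rw [h1, norm_mul, e_norm, e_lam, one_mul]

private theorem mu_eq {n : ℕ} (hn : 0 < n) (j : ℕ) (l : Fin 3) :
    mu n j l = Complex.exp ((2 * (Real.pi * j / (3 * n) + Real.pi * (l : ℕ) / 3) : ℝ) * Complex.I) := by
  unfold mu
  congr 1
  have h : (n : ℂ) ≠ 0 := by exact_mod_cast hn.ne'
  push_cast
  field_simp

theorem Bj_zero {n : ℕ} (hn : 0 < n) {H : ℕ} (hH : H % 3 = 1) :
    ‖(Bj n H 0).det‖ = 3 * Real.sqrt 3 * 2 ^ H := by
  obtain ⟨k, rfl⟩ : ∃ k, H = 3 * k + 1 := ⟨H / 3, by omega⟩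
  have hnC : (n : ℂ) ≠ 0 := by exact_mod_cast hn.ne'
  set ζ : ℂ := Complex.exp (2 * Real.pi * Complex.I / 3) with hζ
  have hζ3 : ζ ^ 3 = 1 := by
    rw [hζ, ← Complex.exp_nat_mul]
    have : ((3 : ℕ) : ℂ) * (2 * Real.pi * Complex.I / 3) = 2 * Real.pi * Complex.I := by
      push_cast; ring
    rw [this, Complex.exp_two_pi_mul_I]
  have hm0 : mu n 0 0 = 1 := by
    unfold mu; simp
  have hm1 : mu n 0 1 = ζ := by
    unfold mu
    rw [hζ]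
    congr 1
    simp
    field_simp
  have hm2 : mu n 0 2 = ζ ^ 2 := by
    unfold mu
    rw [hζ, ← Complex.exp_nat_mul]
    congr 1
    simp
    field_simp
  have hne : ζ ≠ 1 := by
    intro h
    have := e_lam (Real.pi / 3)
    rw [show ((2 * (Real.pi / 3) : ℝ) : ℂ) * Complex.I = 2 * Real.pi * Complex.I / 3 by
      push_cast; ring, ← hζ, h, Real.cos_pi_div_three] at this
    norm_num at this
  have hs : 1 + ζ + ζ ^ 2 = 0 := by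
    have h1 : (ζ - 1) * (1 + ζ + ζ ^ 2) = 0 := by
      have : (ζ - 1) * (1 + ζ + ζ ^ 2) = ζ ^ 3 - 1 := by ring
      rw [this, hζ3, sub_self]
    exact (mul_eq_zero.1 h1).resolve_left (sub_ne_zero.2 hne)
  have hζ0 : ζ ≠ 0 := Complex.exp_ne_zero _
  have hinv : ζ⁻¹ = ζ ^ 2 := by
    rw [inv_eq_iff_eq_inv, eq_comm, inv_eq_iff_eq_inv, eq_comm]
    exact (eq_inv_of_mul_eq_one_left (by rw [← hζ3]; ring)).symm
  have hinv2 : (ζ ^ 2)⁻¹ = ζ := by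
    rw [← hinv, inv_inv]
  have hz2 : ζ ^ 2 = -1 - ζ := by linear_combination hs
  have hpow1 : (ζ ^ 2) ^ (3 * k + 1) = ζ ^ 2 := by
    rw [pow_succ, pow_mul, ← pow_mul ζ 2 3, show 2 * 3 = 3 * 2 by norm_num, pow_mul ζ 3 2, hζ3,
      one_pow, one_pow, one_mul]
  have hpow2 : ζ ^ (3 * k + 1) = ζ := by
    rw [pow_succ, pow_mul, hζ3, one_pow, one_mul]
  have hdet : (Bj n (3 * k + 1) 0).det = 3 * (-2) ^ (3 * k + 1) * (ζ ^ 2 - ζ) := by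
    have b00 : Bj n (3 * k + 1) 0 0 0 = (mu n 0 0)⁻¹ + mu n 0 0 := rfl
    have b01 : Bj n (3 * k + 1) 0 0 1 = (mu n 0 1)⁻¹ + mu n 0 1 := rfl
    have b02 : Bj n (3 * k + 1) 0 0 2 = (mu n 0 2)⁻¹ + mu n 0 2 := rfl
    have b10 : Bj n (3 * k + 1) 0 1 0 =
      (-(1 + mu n 0 0)) ^ (3 * k + 1) * ((mu n 0 0)⁻¹ + 1 + mu n 0 0) := rfl
    have b11 : Bj n (3 * k + 1) 0 1 1 =
      (-(1 + mu n 0 1)) ^ (3 * k + 1) * ((mu n 0 1)⁻¹ + 1 + mu n 0 1) := rfl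
    have b12 : Bj n (3 * k + 1) 0 1 2 =
      (-(1 + mu n 0 2)) ^ (3 * k + 1) * ((mu n 0 2)⁻¹ + 1 + mu n 0 2) := rfl
    have b20 : Bj n (3 * k + 1) 0 2 0 =
      (-(1 + mu n 0 0)) ^ (3 * k + 1) * (mu n 0 0 + mu n 0 0 ^ 2) := rfl
    have b21 : Bj n (3 * k + 1) 0 2 1 =
      (-(1 + mu n 0 1)) ^ (3 * k + 1) * (mu n 0 1 + mu n 0 1 ^ 2) := rfl
    have b22 : Bj n (3 * k + 1) 0 2 2 =
      (-(1 + mu n 0 2)) ^ (3 * k + 1) * (mu n 0 2 + mu n 0 2 ^ 2) := rfl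
    rw [hm0] at b00 b10 b20
    rw [hm1, hinv] at b01 b11
    rw [hm1] at b21
    rw [hm2, hinv2] at b02 b12
    rw [hm2] at b22
    have c01 : Bj n (3 * k + 1) 0 0 1 = -1 := by rw [b01]; linear_combination hs
    have c02 : Bj n (3 * k + 1) 0 0 2 = -1 := by rw [b02]; linear_combination hs
    have c11 : Bj n (3 * k + 1) 0 1 1 = 0 := by
      rw [b11, show ζ ^ 2 + 1 + ζ = 0 by linear_combination hs, mul_zero]
    have c12 : Bj n (3 * k + 1) 0 1 2 = 0 := by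
      rw [b12, show ζ + 1 + ζ ^ 2 = 0 by linear_combination hs, mul_zero]
    have c10 : Bj n (3 * k + 1) 0 1 0 = 3 * (-2) ^ (3 * k + 1) := by
      rw [b10, inv_one, show -(1 + (1 : ℂ)) = -2 by norm_num]
      ring
    have c21 : Bj n (3 * k + 1) 0 2 1 = -ζ ^ 2 := by
      rw [b21, show -(1 + ζ) = ζ ^ 2 by linear_combination -hs, hpow1,
        show ζ + ζ ^ 2 = -1 by linear_combination hs]
      ring
    have c22 : Bj n (3 * k + 1) 0 2 2 = -ζ := by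
      rw [b22, show -(1 + ζ ^ 2) = ζ by linear_combination -hs, hpow2]
      have : ζ ^ 2 + (ζ ^ 2) ^ 2 = -1 := by
        have h4 : (ζ ^ 2) ^ 2 = ζ := by
          have : (ζ ^ 2) ^ 2 = ζ ^ 3 * ζ := by ring
          rw [this, hζ3, one_mul]
        rw [h4]; linear_combination hs
      rw [this]; ring
    rw [Matrix.det_fin_three, c01, c02, c11, c12, c10, c21, c22]
    ring
  rw [hdet, norm_mul, norm_mul, norm_pow, norm_neg]
  have h3 : ‖ζ ^ 2 - ζ‖ = Real.sqrt 3 := by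
    rw [eq_comm, Real.sqrt_eq_iff_mul_self_eq (by norm_num) (norm_nonneg _), ← norm_mul]
    have : (ζ ^ 2 - ζ) * (ζ ^ 2 - ζ) = -3 := by
      have : (ζ ^ 2 - ζ) * (ζ ^ 2 - ζ) = ζ ^ 3 * ζ - 2 * ζ ^ 3 + ζ ^ 2 := by ring
      rw [this, hζ3]; linear_combination hs
    rw [this, norm_neg]
    norm_num
  rw [h3]
  have h4 : ‖(3 : ℂ)‖ = 3 := by norm_num
  have h5 : ‖(2 : ℂ)‖ = 2 := by norm_num
  rw [h4, h5]
  ring

private theorem det3 (x0 x1 x2 P0 P1 P2 y0 y1 y2 z0 z1 z2 : ℂ) :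
    x0 * (P1 * y1) * (P2 * z2) - x0 * (P2 * y2) * (P1 * z1) - x1 * (P0 * y0) * (P2 * z2) +
      x1 * (P2 * y2) * (P0 * z0) + x2 * (P0 * y0) * (P1 * z1) - x2 * (P1 * y1) * (P0 * z0) =
    x0 * (y1 * z2 - y2 * z1) * (P1 * P2) + x2 * (y0 * z1 - y1 * z0) * (P0 * P1) -
      x1 * (y0 * z2 - y2 * z0) * (P0 * P2) := by ring

private theorem ev_small {a b L A B K : ℝ} (ha : 0 ≤ a) (hb : 0 ≤ b) (haL : a < L) (hbL : b < L)
    (hK : 0 < K) : ∀ᶠ H : ℕ in atTop, A * a ^ H + B * b ^ H ≤ K * L ^ H := by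
  have hL : 0 < L := ha.trans_lt haL
  have h1 : Tendsto (fun H : ℕ => A * (a / L) ^ H + B * (b / L) ^ H) atTop
      (nhds (A * 0 + B * 0)) :=
    ((tendsto_pow_atTop_nhds_zero_of_lt_one (div_nonneg ha hL.le)
      ((div_lt_one hL).2 haL)).const_mul A).add
    ((tendsto_pow_atTop_nhds_zero_of_lt_one (div_nonneg hb hL.le)
      ((div_lt_one hL).2 hbL)).const_mul B)
  rw [mul_zero, mul_zero, add_zero] at h1
  filter_upwards [h1.eventually (gt_mem_nhds hK)] with H hH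
  have hLH : 0 < L ^ H := pow_pos hL H
  have h2 : A * a ^ H + B * b ^ H = (A * (a / L) ^ H + B * (b / L) ^ H) * L ^ H := by
    rw [div_pow, div_pow]
    field_simp
  rw [h2]
  exact mul_le_mul_of_nonneg_right hH.le hLH.le

theorem Bj_ge {n : ℕ} (hn : Odd n) {j : ℕ} (hj : 0 < j) (hjn : j < n) :
    ∃ κ : ℝ, 0 < κ ∧ ∀ᶠ H : ℕ in atTop, κ * ell n j ^ H ≤ ‖(Bj n H j).det‖ := by
  have hn0 : 0 < n := hn.pos
  have hnR : (0 : ℝ) < n := by exact_mod_cast hn0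
  have hjR : (0 : ℝ) < j := by exact_mod_cast hj
  have hjnR : (j : ℝ) < n := by exact_mod_cast hjn
  have hpi := Real.pi_pos
  set θ : ℝ := Real.pi * j / (3 * n) with hθ
  have hθ' : Real.pi * ((n : ℝ) - j) / (3 * n) = Real.pi / 3 - θ := by
    rw [hθ]; field_simp
  have hθ0 : 0 < θ := by positivity
  have hθ1 : θ < Real.pi / 3 := by
    rw [hθ, div_lt_div_iff₀ (by positivity) (by norm_num)]
    nlinarith
  set p : ℝ := Real.cos θ with hp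
  set q : ℝ := Real.cos (Real.pi / 3 - θ) with hq
  have hp2 : 1 / 2 < p := by
    rw [hp, ← Real.cos_pi_div_three]
    exact Real.cos_lt_cos_of_nonneg_of_le_pi hθ0.le (by linarith) hθ1
  have hq2 : 1 / 2 < q := by
    rw [hq, ← Real.cos_pi_div_three]
    exact Real.cos_lt_cos_of_nonneg_of_le_pi (by linarith) (by linarith) (by linarith)
  set r : ℝ := Real.cos (θ + Real.pi / 3) with hr
  have hr1 : r < 1 / 2 := by
    rw [hr, ← Real.cos_pi_div_three]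
    exact Real.cos_lt_cos_of_nonneg_of_le_pi (by linarith) (by linarith) (by linarith)
  have hr2 : -(1 / 2) < r := by
    have h1 : Real.cos (Real.pi - Real.pi / 3) = -(1 / 2) := by
      rw [Real.cos_pi_sub, Real.cos_pi_div_three]
    rw [← h1]
    exact Real.cos_lt_cos_of_nonneg_of_le_pi (by linarith) (by linarith) (by linarith)
  have hrabs : |r| < 1 / 2 := abs_lt.2 ⟨hr2, hr1⟩
  have hell : ell n j = (2 * p) * (2 * q) := by
    unfold ell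
    rw [hθ', ← hθ]
  -- the modes
  set m0 : ℂ := mu n j 0 with hm0
  set m1 : ℂ := mu n j 1 with hm1
  set m2 : ℂ := mu n j 2 with hm2
  have e0 : m0 = Complex.exp ((2 * θ : ℝ) * Complex.I) := by
    rw [hm0, mu_eq hn0, ← hθ]; simp
  have e1 : m1 = Complex.exp ((2 * (θ + Real.pi / 3) : ℝ) * Complex.I) := by
    rw [hm1, mu_eq hn0, ← hθ]; simp
  have e2 : m2 = Complex.exp ((2 * (θ + Real.pi * 2 / 3) : ℝ) * Complex.I) := by
    rw [hm2, mu_eq hn0, ← hθ]; simp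
  have hcos2 : Real.cos (θ + Real.pi * 2 / 3) = -q := by
    rw [hq, ← Real.cos_pi_sub, show Real.pi - (Real.pi / 3 - θ) = θ + Real.pi * 2 / 3 by ring]
  have l0 : ‖1 + m0‖ = 2 * p := by
    rw [e0, e_lam, ← hp, abs_of_pos (by linarith)]
  have l1 : ‖1 + m1‖ = 2 * |r| := by rw [e1, e_lam]
  have l2 : ‖1 + m2‖ = 2 * q := by
    rw [e2, e_lam, hcos2, abs_neg, abs_of_pos (by linarith)]
  have b20 : ‖m0 + m0 ^ 2‖ = 2 * p := by
    rw [e0, e_bet, ← hp, abs_of_pos (by linarith)]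
  have b22 : ‖m2 + m2 ^ 2‖ = 2 * q := by
    rw [e2, e_bet, hcos2, abs_neg, abs_of_pos (by linarith)]
  have b10 : m0⁻¹ + 1 + m0 = ((4 * p ^ 2 - 1 : ℝ) : ℂ) := by rw [e0, e_one]
  have b12 : m2⁻¹ + 1 + m2 = ((4 * q ^ 2 - 1 : ℝ) : ℂ) := by
    rw [e2, e_one, hcos2, neg_sq]
  have b01 : m1⁻¹ + m1 = ((2 * (2 * r ^ 2 - 1) : ℝ) : ℂ) := by
    rw [e1, e_sum, Real.cos_two_mul]
  have hb01 : m1⁻¹ + m1 ≠ 0 := by
    rw [b01]
    have : (2 * (2 * r ^ 2 - 1) : ℝ) ≠ 0 := by nlinarith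
    exact_mod_cast this
  set μ02 : ℂ := (m0⁻¹ + 1 + m0) * (m2 + m2 ^ 2) - (m2⁻¹ + 1 + m2) * (m0 + m0 ^ 2) with hμ02
  have hμ : μ02 ≠ 0 := by
    intro h0
    have h1 : (m0⁻¹ + 1 + m0) * (m2 + m2 ^ 2) = (m2⁻¹ + 1 + m2) * (m0 + m0 ^ 2) :=
      sub_eq_zero.1 h0
    have h2 := congrArg norm h1
    rw [norm_mul, norm_mul, b20, b22, b10, b12, Complex.norm_real, Complex.norm_real,
      Real.norm_eq_abs, Real.norm_eq_abs, abs_of_pos (by nlinarith), abs_of_pos (by nlinarith)] at h2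
    have h3 : (p - q) * (4 * p * q + 1) = 0 := by linear_combination h2 / 2
    have h4 : p = q := by
      rcases mul_eq_zero.1 h3 with h | h
      · linarith
      · nlinarith
    rw [hp, hq] at h4
    have h5 : θ = Real.pi / 3 - θ :=
      Real.injOn_cos ⟨hθ0.le, by linarith⟩ ⟨by linarith, by linarith⟩ h4
    have h6 : (2 : ℝ) * j = n := by
      rw [hθ] at h5
      field_simp at h5
      linarith
    have h7 : 2 * j = n := by exact_mod_cast h6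
    obtain ⟨k, hk⟩ := hn
    omega
  set κ0 : ℝ := ‖(m1⁻¹ + m1) * μ02‖ with hκ0
  have hκ : 0 < κ0 := norm_pos_iff.2 (mul_ne_zero hb01 hμ)
  set μ12 : ℂ := (m1⁻¹ + 1 + m1) * (m2 + m2 ^ 2) - (m2⁻¹ + 1 + m2) * (m1 + m1 ^ 2) with hμ12
  set μ01 : ℂ := (m0⁻¹ + 1 + m0) * (m1 + m1 ^ 2) - (m1⁻¹ + 1 + m1) * (m0 + m0 ^ 2) with hμ01
  have hdet : ∀ H : ℕ, (Bj n H j).det =
      (m0⁻¹ + m0) * μ12 * ((-(1 + m1)) * (-(1 + m2))) ^ H +
        (m2⁻¹ + m2) * μ01 * ((-(1 + m0)) * (-(1 + m1))) ^ H -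
        (m1⁻¹ + m1) * μ02 * ((-(1 + m0)) * (-(1 + m2))) ^ H := by
    intro H
    have a00 : Bj n H j 0 0 = m0⁻¹ + m0 := rfl
    have a01 : Bj n H j 0 1 = m1⁻¹ + m1 := rfl
    have a02 : Bj n H j 0 2 = m2⁻¹ + m2 := rfl
    have a10 : Bj n H j 1 0 = (-(1 + m0)) ^ H * (m0⁻¹ + 1 + m0) := rfl
    have a11 : Bj n H j 1 1 = (-(1 + m1)) ^ H * (m1⁻¹ + 1 + m1) := rfl
    have a12 : Bj n H j 1 2 = (-(1 + m2)) ^ H * (m2⁻¹ + 1 + m2) := rfl
    have a20 : Bj n H j 2 0 = (-(1 + m0)) ^ H * (m0 + m0 ^ 2) := rfl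
    have a21 : Bj n H j 2 1 = (-(1 + m1)) ^ H * (m1 + m1 ^ 2) := rfl
    have a22 : Bj n H j 2 2 = (-(1 + m2)) ^ H * (m2 + m2 ^ 2) := rfl
    rw [Matrix.det_fin_three, a00, a01, a02, a10, a11, a12, a20, a21, a22, mul_pow, mul_pow,
      mul_pow]
    exact det3 _ _ _ _ _ _ _ _ _ _ _ _
  refine ⟨κ0 / 2, by positivity, ?_⟩
  have hev := ev_small (a := ‖(-(1 + m1)) * (-(1 + m2))‖) (b := ‖(-(1 + m0)) * (-(1 + m1))‖)
    (L := ell n j) (A := ‖(m0⁻¹ + m0) * μ12‖) (B := ‖(m2⁻¹ + m2) * μ01‖) (K := κ0 / 2)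
    (norm_nonneg _) (norm_nonneg _)
    (by
      rw [norm_mul, norm_neg, norm_neg, l1, l2, hell]
      exact mul_lt_mul_of_pos_right (by linarith) (by linarith))
    (by
      rw [norm_mul, norm_neg, norm_neg, l0, l1, hell]
      exact mul_lt_mul_of_pos_left (by linarith) (by linarith))
    (by positivity)
  filter_upwards [hev] with H hH
  have hmain : ‖(m1⁻¹ + m1) * μ02 * ((-(1 + m0)) * (-(1 + m2))) ^ H‖ = κ0 * ell n j ^ H := by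
    rw [norm_mul, ← hκ0, norm_pow, norm_mul (-(1 + m0)), norm_neg, norm_neg, l0, l2, hell]
  have h1 : ‖(m1⁻¹ + m1) * μ02 * ((-(1 + m0)) * (-(1 + m2))) ^ H‖ ≤ ‖(Bj n H j).det‖ +
      (‖(m0⁻¹ + m0) * μ12‖ * ‖(-(1 + m1)) * (-(1 + m2))‖ ^ H +
        ‖(m2⁻¹ + m2) * μ01‖ * ‖(-(1 + m0)) * (-(1 + m1))‖ ^ H) := by
    have h2 : (m1⁻¹ + m1) * μ02 * ((-(1 + m0)) * (-(1 + m2))) ^ H =
        -(Bj n H j).det + ((m0⁻¹ + m0) * μ12 * ((-(1 + m1)) * (-(1 + m2))) ^ H +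
        (m2⁻¹ + m2) * μ01 * ((-(1 + m0)) * (-(1 + m1))) ^ H) := by
      rw [hdet H]; ring
    rw [h2]
    refine (norm_add_le _ _).trans ?_
    rw [norm_neg]
    refine add_le_add le_rfl ((norm_add_le _ _).trans ?_)
    rw [norm_mul ((m0⁻¹ + m0) * μ12), norm_pow, norm_mul ((m2⁻¹ + m2) * μ01), norm_pow]
  rw [hmain] at h1
  linarith

end Pool.Agent.TS
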