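import Pool.Agent.helper31.TS.FamDef

/-!
(proofs: helper51)
# TS-18 (FamCyc).  Vertices of the family are cycles; connectedness

See the description of the map `ρ = bF ∘ aF ∘ aF` in `FamTri.lean`.
-/

set_option autoImplicit false

namespace Pool.Agent.TS

open Cell Vt

variable {n h : ℕ}

/-- the next edge at the same vertex -/
def rF (e : Ed n h) : Ed n h := bF (aF (aF e))

/-- `e` can be moved to `f` by `rF` -/
def Rch (e f : Ed n h) : Prop := ∃ k : ℕ, rF^[k] e = f

/-- the standard edge of a vertex -/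
def stdF : Vt n h → Ed n h
  | v x y => if hy : y = Fin.last (h + 1) then (W x (Fin.last h), 2) else (W x (y.castPred hy), 0)
  | z => (Z 0, 0)
  | z' => (Q 0, 2)

private theorem FC_refl (e : Ed n h) : Rch e e := ⟨0, rfl⟩

private theorem FC_step {e f : Ed n h} (H : Rch (rF e) f) : Rch e f := by
  obtain ⟨k, hk⟩ := H
  exact ⟨k + 1, hk⟩

private theorem FC_sub_add (y : Fin (h + 1)) : y - 1 + 1 = y := sub_add_cancel y 1

private theorem FC_val_add {y : Fin (h + 1)} (hy : y ≠ Fin.last h) :
    (y + 1 : Fin (h + 1)).val = y.val + 1 := by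
  rw [Fin.val_add_one, if_neg hy]

private theorem FC_sub_ne {y : Fin (h + 1)} (hy : y ≠ 0) : y - 1 ≠ Fin.last h := by
  intro h0
  apply hy
  rw [← FC_sub_add y, h0]
  exact Fin.last_add_one h

private theorem FC_add_cast {y : Fin (h + 1)} (hy : y ≠ Fin.last h) :
    y.succ = (y + 1).castSucc := by
  apply Fin.ext
  rw [Fin.val_castSucc, Fin.val_succ, FC_val_add hy]

private theorem FC_std_cast (x : Col n) (y : Fin (h + 1)) :
    stdF (v x y.castSucc : Vt n h) = (W x y, 0) := by
  have hne : y.castSucc ≠ Fin.last (h + 1) := Fin.castSucc_ne_last y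
  simp only [stdF, dif_neg hne, Fin.castPred_castSucc]

private theorem FC_std_last (x : Col n) :
    stdF (v x (Fin.last (h + 1)) : Vt n h) = (W x (Fin.last h), 2) := by
  simp only [stdF, dite_true]

private theorem FC_std_zero (x : Col n) : stdF (v x 0 : Vt n h) = (W x 0, 0) := FC_std_cast x 0

private theorem FC_r0 (x : Col n) (y : Fin (h + 1)) : rF (W x y, 1) =
    (if y = 0 then botF (nx x) else (W (nx x) (y - 1), 2) : Ed n h) := rfl

private theorem FC_r1 (x : Col n) (y : Fin (h + 1)) : rF (W x y, 2) =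
    (if y = Fin.last h then topF x else (W x (y + 1), 0) : Ed n h) := rfl

private theorem FC_b0 (x : Col n) (y : Fin (h + 1)) : bF (W x y, 0) =
    (if y = 0 then botF (nx x) else (W (nx x) (y - 1), 2) : Ed n h) := rfl

private theorem FC_b1 (x : Col n) (y : Fin (h + 1)) : bF (W x y, 1) =
    (if y = Fin.last h then topF x else (W x (y + 1), 0) : Ed n h) := rfl

private theorem FC_bot (x : Col n) : Rch (botF x : Ed n h) (W x 0, 0) := by
  match x with
  | (i, 0) => exact FC_refl _
  | (i, 1) => exact FC_step (FC_refl _)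
  | (i, 2) =>
    refine FC_step ?_
    have h1 : rF (botF (i, 2) : Ed n h) = (W (i, 2) 0, 0) := by
      show (W (i + 1 - 1, 2) 0, 0) = (W (i, 2) 0, 0)
      rw [add_sub_cancel_right]
    rw [h1]
    exact FC_refl _

private theorem FC_Z (k : ℕ) (i : ZMod n) : rF^[k] (Z i, 0) = ((Z (i - k), 0) : Ed n h) := by
  induction k generalizing i with
  | zero => simp
  | succ k ih =>
    rw [Function.iterate_succ_apply]
    have h1 : rF (Z i, 0) = ((Z (i - 1), 0) : Ed n h) := rfl
    rw [h1, ih]
    congr 2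
    push_cast
    ring

private theorem FC_Q (k : ℕ) (i : ZMod n) : rF^[k] (Q i, 2) = ((Q (i + k), 2) : Ed n h) := by
  induction k generalizing i with
  | zero => simp
  | succ k ih =>
    rw [Function.iterate_succ_apply]
    have h1 : rF (Q i, 2) = ((Q (i + 1), 2) : Ed n h) := rfl
    rw [h1, ih]
    congr 2
    push_cast
    ring

theorem rch_std [NeZero n] (e : Ed n h) : Rch e (stdF (tailF e)) := by
  match e with
  | (W x y, 0) =>
    show Rch _ (stdF (v x y.castSucc))
    rw [FC_std_cast]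
    exact FC_refl _
  | (W x y, 1) =>
    show Rch _ (stdF (v (nx x) y.castSucc))
    rw [FC_std_cast]
    refine FC_step ?_
    rw [FC_r0]
    by_cases hy : y = 0
    · rw [if_pos hy, hy]
      exact FC_bot _
    · rw [if_neg hy]
      refine FC_step ?_
      rw [FC_r1, if_neg (FC_sub_ne hy), FC_sub_add]
      exact FC_refl _
  | (W x y, 2) =>
    show Rch _ (stdF (v x y.succ))
    by_cases hy : y = Fin.last h
    · rw [hy, Fin.succ_last, FC_std_last]
      exact FC_refl _
    · rw [FC_add_cast hy, FC_std_cast]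
      refine FC_step ?_
      rw [FC_r1, if_neg hy]
      exact FC_refl _
  | (Z i, 0) =>
    show Rch _ (Z 0, 0)
    refine ⟨i.val, ?_⟩
    rw [FC_Z, ZMod.natCast_zmod_val, sub_self]
  | (Z i, 1) =>
    show Rch _ (stdF (v (i, 1) 0))
    rw [FC_std_zero]
    exact FC_step (FC_refl _)
  | (Z i, 2) =>
    show Rch _ (stdF (v (i - 1, 2) 0))
    rw [FC_std_zero]
    exact FC_step (FC_refl _)
  | (P i, 0) =>
    show Rch _ (stdF (v (i - 1, 2) (Fin.last _)))
    rw [FC_std_last]
    exact FC_step (FC_step (FC_refl _))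
  | (P i, 1) =>
    show Rch _ (stdF (v (i, 0) (Fin.last _)))
    rw [FC_std_last]
    exact FC_step (FC_refl _)
  | (P i, 2) =>
    show Rch _ (stdF (v (i, 1) (Fin.last _)))
    rw [FC_std_last]
    exact FC_step (FC_refl _)
  | (Q i, 0) =>
    show Rch _ (stdF (v (i, 1) (Fin.last _)))
    rw [FC_std_last]
    exact FC_step (FC_step (FC_refl _))
  | (Q i, 1) =>
    show Rch _ (stdF (v (i, 2) (Fin.last _)))
    rw [FC_std_last]
    exact FC_step (FC_refl _)
  | (Q i, 2) =>
    show Rch _ (Q 0, 2)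
    refine ⟨(-i).val, ?_⟩
    rw [FC_Q, ZMod.natCast_zmod_val, add_neg_cancel]

theorem conn_fam [NeZero n] (S : Set (Ed n h)) (hne : S.Nonempty)
    (hS : ∀ e ∈ S, aF e ∈ S ∧ bF e ∈ S) : S = Set.univ := by
  have hcell : ∀ (c : Cell n h) (j : Fin 3), (c, j) ∈ S → ∀ j', (c, j') ∈ S := by
    intro c j hj
    have h1 : (c, j + 1) ∈ S := (hS _ hj).1
    have h2 : (c, j + 1 + 1) ∈ S := (hS _ h1).1
    intro j'
    have h3 : j' = j ∨ j' = j + 1 ∨ j' = j + 1 + 1 := by
      clear h1 h2 hj
      revert j j'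
      decide
    rcases h3 with h3 | h3 | h3
    · rw [h3]
      exact hj
    · rw [h3]
      exact h1
    · rw [h3]
      exact h2
  -- the moves
  have hpv : ∀ (x : Col n) (y : Fin (h + 1)), (∀ j, (W x y, j) ∈ S) →
      ∀ j, (W (pv x) y, j) ∈ S := fun x y H => hcell _ 1 (hS _ (H 2)).2
  have hup : ∀ (x : Col n) (y : Fin (h + 1)), y ≠ Fin.last h → (∀ j, (W x y, j) ∈ S) →
      ∀ j, (W x (y + 1), j) ∈ S := by
    intro x y hy H
    refine hcell _ 0 ?_
    have h1 := (hS _ (H 1)).2
    have h2 : bF (W x y, 1) = ((W x (y + 1), 0) : Ed n h) := if_neg hy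
    rwa [h2] at h1
  have hdown : ∀ (x : Col n) (y : Fin (h + 1)), y ≠ 0 → (∀ j, (W x y, j) ∈ S) →
      ∀ j, (W (nx x) (y - 1), j) ∈ S := by
    intro x y hy H
    refine hcell _ 2 ?_
    have h1 := (hS _ (H 0)).2
    have h2 : bF (W x y, 0) = ((W (nx x) (y - 1), 2) : Ed n h) := if_neg hy
    rwa [h2] at h1
  -- rows
  have hrow : ∀ (x : Col n) (y : Fin (h + 1)), (∀ j, (W x y, j) ∈ S) →
      ∀ (x' : Col n) (j : Fin 3), (W x' y, j) ∈ S := by
    intro x y H
    have h0 : ∃ i : ZMod n, ∀ j, (W (i, 0) y, j) ∈ S := by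
      match x, H with
      | (i, 0), H => exact ⟨i, H⟩
      | (i, 1), H => exact ⟨i, hpv _ _ H⟩
      | (i, 2), H => exact ⟨i, hpv _ _ (hpv _ _ H)⟩
    obtain ⟨i, hi⟩ := h0
    have h1 : ∀ k : ℕ, ∀ j, (W (i - (k : ZMod n), 0) y, j) ∈ S := by
      intro k
      induction k with
      | zero =>
        rw [Nat.cast_zero, sub_zero]
        exact hi
      | succ k ih =>
        have h2 := hpv _ _ (hpv _ _ (hpv _ _ ih))
        have h3 : i - ((k + 1 : ℕ) : ZMod n) = i - k - 1 := by
          push_cast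
          ring
        rw [h3]
        exact h2
    have h2 : ∀ i' : ZMod n, ∀ j, (W (i', 0) y, j) ∈ S := by
      intro i'
      have h3 := h1 (i - i').val
      rwa [ZMod.natCast_zmod_val, sub_sub_cancel] at h3
    have h3 : ∀ i' : ZMod n, ∀ j, (W (i', 2) y, j) ∈ S := by
      intro i'
      have h4 := hpv _ _ (h2 (i' + 1))
      have h5 : pv ((i' + 1, 0) : Col n) = (i', 2) := by
        show ((i' + 1 - 1, 2) : Col n) = (i', 2)
        rw [add_sub_cancel_right]
      rwa [h5] at h4
    intro x'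
    match x' with
    | (i', 0) => exact h2 i'
    | (i', 1) => exact hpv _ _ (h3 i')
    | (i', 2) => exact h3 i'
  -- some cell of the grid
  have hW : ∃ (x : Col n) (y : Fin (h + 1)), ∀ j, (W x y, j) ∈ S := by
    obtain ⟨⟨c, j⟩, hcj⟩ := hne
    have hc := hcell c j hcj
    match c, hc with
    | W x y, hc => exact ⟨x, y, hc⟩
    | Z i, hc => exact ⟨_, _, hcell _ _ (hS _ (hc 0)).2⟩
    | P i, hc => exact ⟨_, _, hcell _ _ (hS _ (hc 0)).2⟩
    | Q i, hc => exact ⟨_, _, hcell _ _ (hS _ (hc 0)).2⟩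
  have hz : ∀ (m : ℕ) (y : Fin (h + 1)), y.val = m → (∀ (x : Col n) (j : Fin 3), (W x y, j) ∈ S) →
      ∀ (x : Col n) (j : Fin 3), (W x 0, j) ∈ S := by
    intro m
    induction m with
    | zero =>
      intro y hy H
      have : y = 0 := Fin.ext hy
      rw [this] at H
      exact H
    | succ m ih =>
      intro y hy H
      have hy0 : y ≠ 0 := by
        intro h0
        rw [h0] at hy
        simp at hy
      refine ih (y - 1) ?_ (hrow _ _ (hdown (0, 0) y hy0 (H _)))
      have h1 := FC_val_add (FC_sub_ne hy0)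
      rw [FC_sub_add] at h1
      omega
  obtain ⟨x₀, y₀, h₀⟩ := hW
  have hzero := hz y₀.val y₀ rfl (hrow _ _ h₀)
  have hall : ∀ (m : ℕ) (y : Fin (h + 1)), y.val = m →
      ∀ (x : Col n) (j : Fin 3), (W x y, j) ∈ S := by
    intro m
    induction m with
    | zero =>
      intro y hy
      have : y = 0 := Fin.ext hy
      rw [this]
      exact hzero
    | succ m ih =>
      intro y hy
      have hy0 : y ≠ 0 := by
        intro h0
        rw [h0] at hy
        simp at hy
      have h1 := FC_val_add (FC_sub_ne hy0)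
      rw [FC_sub_add] at h1
      have h2 := ih (y - 1) (by omega)
      intro x
      have h3 := hup x (y - 1) (FC_sub_ne hy0) (h2 x)
      rwa [FC_sub_add] at h3
  apply Set.eq_univ_of_forall
  rintro ⟨c, j⟩
  match c with
  | W x y => exact hall y.val y rfl x j
  | Z i =>
    have h1 := (hS _ (hall 0 0 rfl (i, 0) 0)).2
    have h2 : bF (W (i, 0) 0, 0) = ((Z i, 1) : Ed n h) := by
      rw [FC_b0, if_pos rfl]
      rfl
    rw [h2] at h1
    exact hcell _ _ h1 j
  | P i =>
    have h1 := (hS _ (hall _ (Fin.last h) rfl (i, 0) 1)).2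
    have h2 : bF (W (i, 0) (Fin.last h), 1) = ((P i, 1) : Ed n h) := by
      rw [FC_b1, if_pos rfl]
      rfl
    rw [h2] at h1
    exact hcell _ _ h1 j
  | Q i =>
    have h1 := (hS _ (hall _ (Fin.last h) rfl (i, 1) 1)).2
    have h2 : bF (W (i, 1) (Fin.last h), 1) = ((Q i, 0) : Ed n h) := by
      rw [FC_b1, if_pos rfl]
      rfl
    rw [h2] at h1
    exact hcell _ _ h1 j

end Pool.Agent.TS
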