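import Pool.Agent.helper31.TS.Basic

/-!
# TS: the family of triangulations

`n ≥ 1`, `h ≥ 0`, `H = h + 1`.  Columns `(i, c)`, `i ∈ ZMod n`, `c ∈ Fin 3` (the column `3 i + c` modulo
`3 n`).  Vertices `v x y` (`x` a column, `0 ≤ y ≤ H`) and two more, `z`, `z'`.  White triangles:
`W x y = {v x y, v (nx x) y, v x (y+1)}` (`y < H`), `Z i = {z, v (i,1) 0, v (i-1,2) 0}`,
`P i = {v (i-1,2) H, v (i,0) H, v (i,1) H}`, `Q i = {v (i,1) H, v (i,2) H, z'}`.
-/

set_option autoImplicit false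

namespace Pool.Agent.TS

/-- the columns -/
abbrev Col (n : ℕ) : Type := ZMod n × Fin 3

/-- the next column -/
def nx {n : ℕ} : Col n → Col n
  | (i, 0) => (i, 1)
  | (i, 1) => (i, 2)
  | (i, 2) => (i + 1, 0)

/-- the previous column -/
def pv {n : ℕ} : Col n → Col n
  | (i, 0) => (i - 1, 2)
  | (i, 1) => (i, 0)
  | (i, 2) => (i, 1)

/-- the white triangles -/
inductive Cell (n h : ℕ) : Type
  | W (x : Col n) (y : Fin (h + 1))
  | Z (i : ZMod n)
  | P (i : ZMod n)
  | Q (i : ZMod n)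
deriving DecidableEq

/-- the vertices -/
inductive Vt (n h : ℕ) : Type
  | v (x : Col n) (y : Fin (h + 2))
  | z
  | z'
deriving DecidableEq

/-- the edges: a white triangle and a corner -/
abbrev Ed (n h : ℕ) : Type := Cell n h × Fin 3

open Cell Vt

variable {n h : ℕ}

/-- next edge around the white triangle -/
def aF (e : Ed n h) : Ed n h := (e.1, e.2 + 1)

/-- the first vertex of an edge -/
def tailF : Ed n h → Vt n h
  | (W x y, 0) => v x y.castSucc
  | (W x y, 1) => v (nx x) y.castSucc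
  | (W x y, 2) => v x y.succ
  | (Z _, 0) => z
  | (Z i, 1) => v (i, 1) 0
  | (Z i, 2) => v (i - 1, 2) 0
  | (P i, 0) => v (i - 1, 2) (Fin.last _)
  | (P i, 1) => v (i, 0) (Fin.last _)
  | (P i, 2) => v (i, 1) (Fin.last _)
  | (Q i, 0) => v (i, 1) (Fin.last _)
  | (Q i, 1) => v (i, 2) (Fin.last _)
  | (Q _, 2) => z'

/-- the black triangles at the lower boundary -/
def botF : Col n → Ed n h
  | (i, 0) => (W (i, 0) 0, 0)
  | (i, 1) => (Z i, 1)
  | (i, 2) => (Z (i + 1), 2)

/-- the black triangles at the upper boundary -/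
def topF : Col n → Ed n h
  | (i, 0) => (P i, 1)
  | (i, 1) => (Q i, 0)
  | (i, 2) => (P (i + 1), 0)

/-- next edge around the black triangle -/
def bF : Ed n h → Ed n h
  | (W x y, 0) => if y = 0 then botF (nx x) else (W (nx x) (y - 1), 2)
  | (W x y, 1) => if y = Fin.last h then topF x else (W x (y + 1), 0)
  | (W x y, 2) => (W (pv x) y, 1)
  | (Z i, 0) => (W (i, 1) 0, 0)
  | (Z i, 1) => (W (i - 1, 2) 0, 0)
  | (Z i, 2) => (Z (i - 1), 0)
  | (P i, 0) => (W (i, 0) (Fin.last h), 2)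
  | (P i, 1) => (W (i, 1) (Fin.last h), 2)
  | (P i, 2) => (Q (i - 1), 1)
  | (Q i, 0) => (W (i, 2) (Fin.last h), 2)
  | (Q i, 1) => (Q (i + 1), 2)
  | (Q i, 2) => (P i, 2)

theorem pv_nx (x : Col n) : pv (nx x) = x := by
  obtain ⟨i, c⟩ := x
  fin_cases c <;> simp [nx, pv]

theorem nx_pv (x : Col n) : nx (pv x) = x := by
  obtain ⟨i, c⟩ := x
  fin_cases c <;> simp [nx, pv]

/-- the white triangles as a sum type -/
def cellEquiv (n h : ℕ) :
    Cell n h ≃ (Col n × Fin (h + 1)) ⊕ (ZMod n ⊕ (ZMod n ⊕ ZMod n)) where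
  toFun
    | W x y => Sum.inl (x, y)
    | Z i => Sum.inr (Sum.inl i)
    | P i => Sum.inr (Sum.inr (Sum.inl i))
    | Q i => Sum.inr (Sum.inr (Sum.inr i))
  invFun
    | Sum.inl (x, y) => W x y
    | Sum.inr (Sum.inl i) => Z i
    | Sum.inr (Sum.inr (Sum.inl i)) => P i
    | Sum.inr (Sum.inr (Sum.inr i)) => Q i
  left_inv c := by cases c <;> rfl
  right_inv c := by rcases c with ⟨x, y⟩ | i | i | i <;> rfl

/-- the vertices as a sum type -/
def vtEquiv (n h : ℕ) : Vt n h ≃ (Col n × Fin (h + 2)) ⊕ (Unit ⊕ Unit) where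
  toFun
    | v x y => Sum.inl (x, y)
    | z => Sum.inr (Sum.inl ())
    | z' => Sum.inr (Sum.inr ())
  invFun
    | Sum.inl (x, y) => v x y
    | Sum.inr (Sum.inl _) => z
    | Sum.inr (Sum.inr _) => z'
  left_inv c := by cases c <;> rfl
  right_inv c := by rcases c with ⟨x, y⟩ | i | i <;> rfl

noncomputable instance [NeZero n] : Fintype (Cell n h) := Fintype.ofEquiv _ (cellEquiv n h).symm
noncomputable instance [NeZero n] : Fintype (Vt n h) := Fintype.ofEquiv _ (vtEquiv n h).symm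

theorem card_Ed [NeZero n] : Fintype.card (Ed n h) = 3 * (3 * n * (h + 2)) := by
  rw [Fintype.card_prod, Fintype.card_congr (cellEquiv n h)]
  simp only [Fintype.card_sum, Fintype.card_prod, Fintype.card_fin, ZMod.card]
  ring

theorem card_Vt [NeZero n] : Fintype.card (Vt n h) = 3 * n * (h + 2) + 2 := by
  rw [Fintype.card_congr (vtEquiv n h)]
  simp only [Fintype.card_sum, Fintype.card_prod, Fintype.card_fin, ZMod.card, Fintype.card_unit]
  ring

end Pool.Agent.TS
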