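import Pool.Agent.helper31.TS.FamMat
import Pool.Agent.helper31.TS.DetIdx

/-!
# TS-19 (FamGrp).  The torsion subgroup of the family

PROOF.  `H = h + 1`.  Write `M` for the subgroup of `ℤ^Col` generated by the rows of `MH n H` and
`Q = ℤ^Col / M`; `card Q = |det|` (`card_quot_rows`).
(1) `Ψ : (Col n → ℤ) →+ T.Grp`, `e_x ↦ cls (v x 0)` (`x ↦ ∑ x, f x • cls (v x 0)`).  By induction on `y`:
`cls (v x y) = Ψ (tmap^[y] e_x)` for all `x` (relation of the white triangle `W x y`: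
`cls (v x (y+1)) = - cls (v x y) - cls (v (nx x) y)`, and `tmap^[y+1] e_x = tmap^[y] (-(e_x + e_(nx x)))`,
`tmap_single`).  The relations of `Z i`, `P i`, `Q i` say: `Ψ (base i 0) = - cls z`, `Ψ (tmap^[H] (base i 1)) = 0`,
`Ψ (tmap^[H] (base i 2)) = - cls z'`.  So `Ψ` maps `M` into `D`, the subgroup generated by `cls z`, `cls z'`, and
every element of `T.Grp` is `Ψ f + k • cls z + k' • cls z'` (`grp_induction`).
(2) `Φ : T.Grp →+ Q` (`exists_hom`), `v x y ↦ [tmap^[y] e_x]`, `z, z' ↦ 0`; the relations hold.  `Φ (Ψ f) = [f]`.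
So `ker Φ = D`: if `Φ (Ψ f + ..) = [f] = 0` then `f ∈ M`, `Ψ f ∈ D`.
(3) Colouring: `c (v (i, k) y) = k - y` (`k : Fin 3`, in `ZMod 3`; the column number `3 i + k` minus `y`),
`c z = 0`, `c z' = 2`.  If `H = 1` modulo `3` every white triangle has the three colours `0, 1, 2` (check the
four kinds; `nx` raises the colour by one).  So (`exists_hom`) there are `χ₁, χ₂ : T.Grp →+ ℤ` with the values
`(1, -1, 0)` and `(0, -1, 1)` on the colours `0, 1, 2`; `χ₁ (cls z) = 1`, `χ₁ (cls z') = 0`, `χ₂ (cls z) = 0`,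
`χ₂ (cls z') = 1`.
(4) For `q ∈ Q` choose `a` with `Φ a = q` and put `s q = a - χ₁ a • cls z - χ₂ a • cls z'`; `Φ (s q) = q`,
`χ₁ (s q) = χ₂ (s q) = 0`.  `card Q • s q ∈ ker Φ = D` and both `χ` vanish on it, so it is `0`
(`k • cls z + k' • cls z'` has `χ₁ = k`, `χ₂ = k'`): `s q` is a torsion element.  `s` is injective, so
`card Q ≤ order`, if the torsion subgroup is finite.  It is: a torsion element `x` with `Φ x = 0` is in `D` with
`χ = 0`, so `x = 0`; so `Φ` is injective on the torsion subgroup, and `Q` is finite (`Nat.card Q ≠ 0`).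

author: helper59
-/

set_option autoImplicit false

open Finset

namespace Pool.Agent.TS

open Cell Vt

section fg

set_option linter.unusedSectionVars false

variable {n h : ℕ} [NeZero n] (T : Tri (Ed n h) (Vt n h))

theorem fg_rel (htail : T.tail = tailF) (ha : ∀ e, T.a e = aF e) (c : Cell n h) :
    T.cls (tailF (c, 0)) + T.cls (tailF (c, 1)) + T.cls (tailF (c, 2)) = 0 := by
  have h1 := T.cls_rel (c, 0)
  rw [← T.a_a] at h1
  simp only [ha, htail] at h1
  exact h1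

theorem fg_hom (htail : T.tail = tailF) (ha : ∀ e, T.a e = aF e) {A : Type*} [AddCommGroup A]
    (f : Vt n h → A)
    (hf : ∀ c : Cell n h, f (tailF (c, 0)) + f (tailF (c, 1)) + f (tailF (c, 2)) = 0) :
    ∃ F : T.Grp →+ A, ∀ v, F (T.cls v) = f v := by
  apply T.exists_hom
  rintro ⟨c, k⟩
  rw [← T.a_a]
  simp only [ha, htail]
  have h1 := hf c
  have hk : k = 0 ∨ k = 1 ∨ k = 2 := by
    revert k
    decide
  rcases hk with rfl | rfl | rfl
  · exact h1
  · show f (tailF (c, 1)) + f (tailF (c, 1 + 1)) + f (tailF (c, 1 + 1 + 1)) = 0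
    rw [show (1 : Fin 3) + 1 + 1 = 0 from rfl, show (1 : Fin 3) + 1 = 2 from rfl, ← h1]
    abel
  · show f (tailF (c, 2)) + f (tailF (c, 2 + 1)) + f (tailF (c, 2 + 1 + 1)) = 0
    rw [show (2 : Fin 3) + 1 + 1 = 1 from rfl, show (2 : Fin 3) + 1 = 0 from rfl, ← h1]
    abel

/-- the homomorphism `Ψ` -/
noncomputable def fgPsi : (Col n → ℤ) →+ T.Grp where
  toFun f := ∑ x, f x • T.cls (v x 0)
  map_zero' := by simp
  map_add' f g := by
    simp only [Pi.add_apply, add_zsmul, Finset.sum_add_distrib]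

theorem fgPsi_single (x : Col n) : fgPsi T (Pi.single x 1) = T.cls (v x 0) := by
  show ∑ y, (Pi.single x (1 : ℤ) : Col n → ℤ) y • T.cls (v y 0) = _
  rw [Finset.sum_eq_single x]
  · rw [Pi.single_eq_same, one_smul]
  · intro y _ hy
    rw [Pi.single_eq_of_ne hy, zero_smul]
  · intro hx
    exact absurd (mem_univ x) hx

theorem fg_cls_v (htail : T.tail = tailF) (ha : ∀ e, T.a e = aF e) (y : ℕ) :
    ∀ (hy : y < h + 2) (x : Col n),
      T.cls (v x ⟨y, hy⟩) = fgPsi T (tmap^[y] (Pi.single x 1)) := by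
  induction y with
  | zero =>
    intro hy x
    rw [Function.iterate_zero, id, fgPsi_single]
    rfl
  | succ y ih =>
    intro hy x
    have hr : T.cls (v x ⟨y, by omega⟩) + T.cls (v (nx x) ⟨y, by omega⟩) +
        T.cls (v x ⟨y + 1, hy⟩) = 0 := fg_rel T htail ha (W x ⟨y, by omega⟩)
    rw [Function.iterate_succ_apply, tmap_single, iterate_map_neg, iterate_map_add, map_neg,
      map_add, ← ih (by omega) x, ← ih (by omega) (nx x)]
    exact (eq_neg_of_add_eq_zero_right hr)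

theorem MH_zero (H : ℕ) (i : ZMod n) :
    MH n H (i, 0) = Pi.single (i - 1, 2) 1 + Pi.single (i, 1) 1 := if_pos rfl

theorem MH_one (H : ℕ) (i : ZMod n) :
    MH n H (i, 1) = tmap^[H] (Pi.single (i - 1, 2) 1) + tmap^[H] (Pi.single (i, 0) 1) +
      tmap^[H] (Pi.single (i, 1) 1) := by
  rw [← iterate_map_add, ← iterate_map_add]
  exact if_neg (show ¬ ((1 : Fin 3) = 0) by decide)

theorem MH_two (H : ℕ) (i : ZMod n) :
    MH n H (i, 2) = tmap^[H] (Pi.single (i, 1) 1) + tmap^[H] (Pi.single (i, 2) 1) := by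
  rw [← iterate_map_add]
  exact if_neg (show ¬ ((2 : Fin 3) = 0) by decide)

/-- the subgroup generated by `z` and `z'` -/
def fgD : AddSubgroup T.Grp where
  carrier := {a | ∃ k k' : ℤ, a = k • T.cls z + k' • T.cls z'}
  zero_mem' := ⟨0, 0, by simp⟩
  add_mem' := by
    rintro _ _ ⟨k, k', rfl⟩ ⟨m, m', rfl⟩
    exact ⟨k + m, k' + m', by rw [add_zsmul, add_zsmul]; abel⟩
  neg_mem' := by
    rintro _ ⟨k, k', rfl⟩
    exact ⟨-k, -k', by rw [neg_zsmul, neg_zsmul]; abel⟩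

theorem fgD_mem {a : T.Grp} : a ∈ fgD T ↔ ∃ k k' : ℤ, a = k • T.cls z + k' • T.cls z' := Iff.rfl

theorem fg_row (htail : T.tail = tailF) (ha : ∀ e, T.a e = aF e) (r : Col n) :
    fgPsi T (MH n (h + 1) r) ∈ fgD T := by
  have hz : T.cls z ∈ fgD T := ⟨1, 0, by simp⟩
  have hz' : T.cls z' ∈ fgD T := ⟨0, 1, by simp⟩
  obtain ⟨i, k⟩ := r
  fin_cases k
  · show fgPsi T (MH n (h + 1) (i, 0)) ∈ fgD T
    have hr : T.cls z + T.cls (v (i, 1) 0) + T.cls (v (i - 1, 2) 0) = 0 :=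
      fg_rel T htail ha (Z i)
    rw [MH_zero, map_add, fgPsi_single, fgPsi_single]
    have h1 : T.cls (v (i - 1, 2) 0) + T.cls (v (i, 1) 0) = -T.cls z := by
      rw [eq_neg_iff_add_eq_zero, ← hr]
      abel
    rw [h1]
    exact (fgD T).neg_mem hz
  · show fgPsi T (MH n (h + 1) (i, 1)) ∈ fgD T
    have hr : T.cls (v (i - 1, 2) ⟨h + 1, by omega⟩) + T.cls (v (i, 0) ⟨h + 1, by omega⟩) +
      T.cls (v (i, 1) ⟨h + 1, by omega⟩) = 0 := fg_rel T htail ha (P i)
    rw [MH_one, map_add, map_add, ← fg_cls_v T htail ha (h + 1) (by omega),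
      ← fg_cls_v T htail ha (h + 1) (by omega), ← fg_cls_v T htail ha (h + 1) (by omega), hr]
    exact (fgD T).zero_mem
  · show fgPsi T (MH n (h + 1) (i, 2)) ∈ fgD T
    have hr : T.cls (v (i, 1) ⟨h + 1, by omega⟩) + T.cls (v (i, 2) ⟨h + 1, by omega⟩) +
      T.cls z' = 0 := fg_rel T htail ha (Q i)
    rw [MH_two, map_add, ← fg_cls_v T htail ha (h + 1) (by omega),
      ← fg_cls_v T htail ha (h + 1) (by omega), eq_neg_of_add_eq_zero_left hr]
    exact (fgD T).neg_mem hz'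

/-- the row lattice -/
abbrev fgM (n h : ℕ) : AddSubgroup (Col n → ℤ) :=
  AddSubgroup.closure (Set.range fun i => MH n (h + 1) i)

theorem fg_psi_mem (htail : T.tail = tailF) (ha : ∀ e, T.a e = aF e) {f : Col n → ℤ}
    (hf : f ∈ fgM n h) : fgPsi T f ∈ fgD T := by
  have h1 : fgM n h ≤ (fgD T).comap (fgPsi T) := by
    rw [fgM, AddSubgroup.closure_le]
    rintro _ ⟨r, rfl⟩
    exact fg_row T htail ha r
  exact h1 hf

theorem fg_decomp (htail : T.tail = tailF) (ha : ∀ e, T.a e = aF e) (a : T.Grp) :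
    ∃ f : Col n → ℤ, ∃ d ∈ fgD T, a = fgPsi T f + d := by
  have h1 : a ∈ (fgPsi T).range ⊔ fgD T := by
    apply T.grp_induction
    intro w
    cases w with
    | v x y =>
      apply AddSubgroup.mem_sup_left
      exact ⟨_, (fg_cls_v T htail ha y y.2 x).symm⟩
    | z => exact AddSubgroup.mem_sup_right ⟨1, 0, by simp⟩
    | z' => exact AddSubgroup.mem_sup_right ⟨0, 1, by simp⟩
  rw [AddSubgroup.mem_sup] at h1
  obtain ⟨_, ⟨f, rfl⟩, d, hd, rfl⟩ := h1
  exact ⟨f, d, hd, rfl⟩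

/-- the values of `Φ` -/
noncomputable def fgPhiV (n h : ℕ) [NeZero n] : Vt n h → (Col n → ℤ) ⧸ fgM n h
  | v x y => QuotientAddGroup.mk (tmap^[(y : ℕ)] (Pi.single x 1))
  | z => 0
  | z' => 0

theorem fg_mk_row (r : Col n) :
    (QuotientAddGroup.mk (MH n (h + 1) r) : (Col n → ℤ) ⧸ fgM n h) = 0 :=
  (QuotientAddGroup.eq_zero_iff _).2 (AddSubgroup.subset_closure ⟨r, rfl⟩)

theorem fg_exists_phi (htail : T.tail = tailF) (ha : ∀ e, T.a e = aF e) :
    ∃ Φ : T.Grp →+ (Col n → ℤ) ⧸ fgM n h, ∀ w, Φ (T.cls w) = fgPhiV n h w := by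
  apply fg_hom T htail ha
  intro c
  cases c with
  | W x y =>
    show (QuotientAddGroup.mk (tmap^[(y : ℕ)] (Pi.single x 1)) : (Col n → ℤ) ⧸ fgM n h) +
      QuotientAddGroup.mk (tmap^[(y : ℕ)] (Pi.single (nx x) 1)) +
      QuotientAddGroup.mk (tmap^[(y : ℕ) + 1] (Pi.single x 1)) = 0
    rw [← QuotientAddGroup.mk_add, ← QuotientAddGroup.mk_add, Function.iterate_succ_apply,
      tmap_single, iterate_map_neg, iterate_map_add, add_neg_cancel]
    rfl
  | Z i =>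
    show (0 : (Col n → ℤ) ⧸ fgM n h) + QuotientAddGroup.mk (Pi.single (i, 1) 1) +
      QuotientAddGroup.mk (Pi.single (i - 1, 2) 1) = 0
    rw [zero_add, ← QuotientAddGroup.mk_add, add_comm, ← MH_zero (h + 1) i]
    exact fg_mk_row _
  | P i =>
    show (QuotientAddGroup.mk (tmap^[h + 1] (Pi.single (i - 1, 2) 1)) : (Col n → ℤ) ⧸ fgM n h) +
      QuotientAddGroup.mk (tmap^[h + 1] (Pi.single (i, 0) 1)) +
      QuotientAddGroup.mk (tmap^[h + 1] (Pi.single (i, 1) 1)) = 0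
    rw [← QuotientAddGroup.mk_add, ← QuotientAddGroup.mk_add, ← MH_one (h + 1) i]
    exact fg_mk_row _
  | Q i =>
    show (QuotientAddGroup.mk (tmap^[h + 1] (Pi.single (i, 1) 1)) : (Col n → ℤ) ⧸ fgM n h) +
      QuotientAddGroup.mk (tmap^[h + 1] (Pi.single (i, 2) 1)) + 0 = 0
    rw [add_zero, ← QuotientAddGroup.mk_add, ← MH_two (h + 1) i]
    exact fg_mk_row _

/-- the colouring -/
def fgCol : Vt n h → ZMod 3
  | v (_, k) y => (k : ℕ) - (y : ℕ)
  | z => 0
  | z' => 2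

theorem fg_col_W (x : Col n) (y : ℕ) (hy : y < h + 1) :
    (fgCol (v (nx x) ⟨y, by omega⟩ : Vt n h) = fgCol (v x ⟨y, by omega⟩ : Vt n h) + 1) ∧
    (fgCol (v x ⟨y + 1, by omega⟩ : Vt n h) = fgCol (v x ⟨y, by omega⟩ : Vt n h) - 1) := by
  obtain ⟨i, k⟩ := x
  constructor
  · fin_cases k
    · show (((1 : ℕ) : ZMod 3) - (y : ℕ)) = (((0 : ℕ) : ZMod 3) - (y : ℕ)) + 1
      push_cast
      ring
    · show (((2 : ℕ) : ZMod 3) - (y : ℕ)) = (((1 : ℕ) : ZMod 3) - (y : ℕ)) + 1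
      push_cast
      ring
    · show (((0 : ℕ) : ZMod 3) - (y : ℕ)) = (((2 : ℕ) : ZMod 3) - (y : ℕ)) + 1
      have h3 : (3 : ZMod 3) = 0 := by decide
      push_cast
      linear_combination -h3
  · show (((k : ℕ) : ZMod 3) - ((y + 1 : ℕ) : ZMod 3)) = (((k : ℕ) : ZMod 3) - (y : ℕ)) - 1
    push_cast
    ring

theorem fg_exists_chi (hH : (h + 1) % 3 = 1) (htail : T.tail = tailF) (ha : ∀ e, T.a e = aF e)
    (g : ZMod 3 → ℤ) (hg : g 0 + g 1 + g 2 = 0) :
    ∃ χ : T.Grp →+ ℤ, ∀ w, χ (T.cls w) = g (fgCol w) := by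
  have hH' : ((h + 1 : ℕ) : ZMod 3) = 1 := by
    have : ((h + 1 : ℕ) : ZMod 3) = (((h + 1) % 3 : ℕ) : ZMod 3) := by
      rw [ZMod.natCast_mod]
    rw [this, hH]
    rfl
  have key : ∀ a : ZMod 3, g a + g (a + 1) + g (a - 1) = 0 := by
    intro a
    have h3 : a = 0 ∨ a = 1 ∨ a = 2 := by revert a; decide
    rcases h3 with rfl | rfl | rfl
    · show g 0 + g 1 + g 2 = 0
      exact hg
    · show g 1 + g 2 + g 0 = 0
      linarith
    · show g 2 + g 0 + g 1 = 0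
      linarith
  apply fg_hom T htail ha (fun w => g (fgCol w))
  intro c
  cases c with
  | W x y =>
    obtain ⟨h1, h2⟩ := fg_col_W (h := h) x y y.2
    show g (fgCol (v x ⟨(y : ℕ), by omega⟩ : Vt n h)) +
      g (fgCol (v (nx x) ⟨(y : ℕ), by omega⟩ : Vt n h)) +
      g (fgCol (v x ⟨(y : ℕ) + 1, by omega⟩ : Vt n h)) = 0
    rw [h1, h2]
    exact key _
  | Z i =>
    show g 0 + g (((1 : ℕ) : ZMod 3) - ((0 : ℕ) : ZMod 3)) +
      g (((2 : ℕ) : ZMod 3) - ((0 : ℕ) : ZMod 3)) = 0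
    simp only [Nat.cast_zero, sub_zero, Nat.cast_one, Nat.cast_ofNat]
    exact hg
  | P i =>
    show g (((2 : ℕ) : ZMod 3) - ((h + 1 : ℕ) : ZMod 3)) +
      g (((0 : ℕ) : ZMod 3) - ((h + 1 : ℕ) : ZMod 3)) +
      g (((1 : ℕ) : ZMod 3) - ((h + 1 : ℕ) : ZMod 3)) = 0
    rw [hH']
    have e1 : ((2 : ℕ) : ZMod 3) - 1 = 1 := by decide
    have e2 : ((0 : ℕ) : ZMod 3) - 1 = 2 := by decide
    have e3 : ((1 : ℕ) : ZMod 3) - 1 = 0 := by decide
    rw [e1, e2, e3]
    linarith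
  | Q i =>
    show g (((1 : ℕ) : ZMod 3) - ((h + 1 : ℕ) : ZMod 3)) +
      g (((2 : ℕ) : ZMod 3) - ((h + 1 : ℕ) : ZMod 3)) + g 2 = 0
    rw [hH']
    have e1 : ((2 : ℕ) : ZMod 3) - 1 = 1 := by decide
    have e3 : ((1 : ℕ) : ZMod 3) - 1 = 0 := by decide
    rw [e1, e3]
    exact hg

end fg

theorem fam_order {n h : ℕ} [NeZero n] (hH : (h + 1) % 3 = 1) (T : Tri (Ed n h) (Vt n h))
    (htail : T.tail = tailF) (ha : ∀ e, T.a e = aF e) (hdet : (MH n (h + 1)).det ≠ 0) :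
    (MH n (h + 1)).det.natAbs ≤ T.order := by
  have hcard := card_quot_rows (MH n (h + 1)) hdet
  have hdet' : (MH n (h + 1)).det.natAbs ≠ 0 := Int.natAbs_ne_zero.2 hdet
  have hfin : Finite ((Col n → ℤ) ⧸ fgM n h) := Nat.finite_of_card_ne_zero (by
    show Nat.card ((Col n → ℤ) ⧸ AddSubgroup.closure (Set.range fun i => MH n (h + 1) i)) ≠ 0
    rw [hcard]
    exact hdet')
  obtain ⟨Φ, hΦ⟩ := fg_exists_phi T htail ha
  obtain ⟨χ₁, h₁⟩ := fg_exists_chi T hH htail ha (fun a => if a = 0 then 1 else if a = 1 then -1 else 0)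
    (by decide)
  obtain ⟨χ₂, h₂⟩ := fg_exists_chi T hH htail ha (fun a => if a = 0 then 0 else if a = 1 then -1 else 1)
    (by decide)
  have a1 : χ₁ (T.cls z) = 1 := by rw [h₁]; rfl
  have a2 : χ₁ (T.cls z') = 0 := by rw [h₁]; rfl
  have a3 : χ₂ (T.cls z) = 0 := by rw [h₂]; rfl
  have a4 : χ₂ (T.cls z') = 1 := by rw [h₂]; rfl
  have hΦΨ : ∀ f : Col n → ℤ, Φ (fgPsi T f) = QuotientAddGroup.mk f := by
    intro f
    have e1 : fgPsi T f = ∑ x, f x • T.cls (v x 0) := rfl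
    have e2 : f = ∑ x, f x • (Pi.single x (1 : ℤ) : Col n → ℤ) := by
      funext w
      rw [Finset.sum_apply, sum_eq_single w]
      · simp
      · intro y _ hy
        simp [Pi.single_eq_of_ne hy.symm]
      · intro hw
        exact absurd (mem_univ w) hw
    have e3 : (QuotientAddGroup.mk f : (Col n → ℤ) ⧸ fgM n h) =
        ∑ x, f x • (QuotientAddGroup.mk (Pi.single x (1 : ℤ)) : (Col n → ℤ) ⧸ fgM n h) := by
      conv_lhs => rw [e2]
      exact map_sum (QuotientAddGroup.mk' (fgM n h)) _ _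
    rw [e1, map_sum, e3]
    refine Finset.sum_congr rfl fun x _ => ?_
    rw [map_zsmul, hΦ]
    rfl
  have hker : ∀ a : T.Grp, Φ a = 0 → a ∈ fgD T := by
    intro a h0
    obtain ⟨f, d, hd, rfl⟩ := fg_decomp T htail ha a
    have hd0 : Φ d = 0 := by
      obtain ⟨k, k', rfl⟩ := hd
      rw [map_add, map_zsmul, map_zsmul, hΦ, hΦ]
      show k • (0 : (Col n → ℤ) ⧸ fgM n h) + k' • (0 : (Col n → ℤ) ⧸ fgM n h) = 0
      rw [smul_zero, smul_zero, add_zero]
    rw [map_add, hd0, add_zero, hΦΨ] at h0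
    exact (fgD T).add_mem (fg_psi_mem T htail ha ((QuotientAddGroup.eq_zero_iff _).1 h0)) hd
  have hzero : ∀ a ∈ fgD T, χ₁ a = 0 → χ₂ a = 0 → a = 0 := by
    rintro _ ⟨k, k', rfl⟩ e1 e2
    rw [map_add, map_zsmul, map_zsmul, a1, a2, smul_zero, add_zero, smul_eq_mul, mul_one] at e1
    rw [map_add, map_zsmul, map_zsmul, a3, a4, smul_zero, zero_add, smul_eq_mul, mul_one] at e2
    rw [e1, e2]
    simp
  have htor : ∀ (χ : T.Grp →+ ℤ) (x : T.Grp), x ∈ AddCommGroup.torsion T.Grp → χ x = 0 := by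
    intro χ x hx
    obtain ⟨m, hm, hmx⟩ := isOfFinAddOrder_iff_nsmul_eq_zero.1 hx
    have h3 : m • χ x = 0 := by rw [← map_nsmul, hmx, map_zero]
    rw [nsmul_eq_mul] at h3
    rcases mul_eq_zero.1 h3 with h4 | h4
    · have : m = 0 := by exact_mod_cast h4
      omega
    · exact h4
  -- the torsion subgroup is finite
  have hinj : Function.Injective (fun x : AddCommGroup.torsion T.Grp => Φ x.1) := by
    intro x y hxy
    have h3 : Φ (x.1 - y.1) = 0 := by
      rw [map_sub]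
      exact sub_eq_zero.2 hxy
    have h4 := hker _ h3
    have h5 : x.1 - y.1 ∈ AddCommGroup.torsion T.Grp := AddSubgroup.sub_mem _ x.2 y.2
    have h6 := hzero _ h4 (htor χ₁ _ h5) (htor χ₂ _ h5)
    exact Subtype.ext (sub_eq_zero.1 h6)
  have hfin2 : Finite (AddCommGroup.torsion T.Grp) := Finite.of_injective _ hinj
  -- the section
  have hsec : ∀ q : (Col n → ℤ) ⧸ fgM n h, ∃ s : AddCommGroup.torsion T.Grp, Φ s.1 = q := by
    intro q
    obtain ⟨f, rfl⟩ := QuotientAddGroup.mk_surjective q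
    set a := fgPsi T f with ha_def
    have hs1 : χ₁ (a - χ₁ a • T.cls z - χ₂ a • T.cls z') = 0 := by
      rw [map_sub, map_sub, map_zsmul, map_zsmul, a1, a2]
      simp
    have hs2 : χ₂ (a - χ₁ a • T.cls z - χ₂ a • T.cls z') = 0 := by
      rw [map_sub, map_sub, map_zsmul, map_zsmul, a3, a4]
      simp
    have hs3 : Φ (a - χ₁ a • T.cls z - χ₂ a • T.cls z') = QuotientAddGroup.mk f := by
      rw [map_sub, map_sub, map_zsmul, map_zsmul, hΦ, hΦ, ha_def, hΦΨ]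
      show (QuotientAddGroup.mk f : (Col n → ℤ) ⧸ fgM n h) -
        _ • (0 : (Col n → ℤ) ⧸ fgM n h) - _ • (0 : (Col n → ℤ) ⧸ fgM n h) = _
      rw [smul_zero, smul_zero, sub_zero, sub_zero]
    refine ⟨⟨a - χ₁ a • T.cls z - χ₂ a • T.cls z', ?_⟩, hs3⟩
    have h7 : Nat.card ((Col n → ℤ) ⧸ fgM n h) • (a - χ₁ a • T.cls z - χ₂ a • T.cls z') = 0 := by
      apply hzero
      · apply hker
        rw [map_nsmul, hs3]
        exact card_nsmul_eq_zero'
      · rw [map_nsmul, hs1, smul_zero]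
      · rw [map_nsmul, hs2, smul_zero]
    exact isOfFinAddOrder_iff_nsmul_eq_zero.2 ⟨_, Nat.card_pos, h7⟩
  have hsur : Function.Surjective (fun x : AddCommGroup.torsion T.Grp => Φ x.1) := hsec
  have hle : Nat.card ((Col n → ℤ) ⧸ fgM n h) ≤ Nat.card (AddCommGroup.torsion T.Grp) :=
    Nat.card_le_card_of_surjective _ hsur
  calc (MH n (h + 1)).det.natAbs = Nat.card ((Col n → ℤ) ⧸ fgM n h) := hcard.symm
    _ ≤ T.order := hle

end Pool.Agent.TS
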