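import Pool.Agent.helper31.TS.FamCyc

/-!
# TS-17 (FamTri).  The family consists of triangulations

Everything is a case analysis (`rcases` on the cell, `fin_cases` on the corner and on the second coordinate
of the column; `simp [bF, botF, topF, nx, pv]`).
* `bF_cube`.  `(W x y, 2) → (W (pv x) y, 1) → (W (pv x) (y+1), 0) → (W x y, 2)` if `y ≠ last` (then `y + 1 ≠ 0`);
  if `y = last` the middle term is `topF (pv x)`, i.e. `(P i,1)`, `(Q i,0)`, `(P (i+1),0)`, whose image under `bF`
  is `(W x last, 2)`.  `(W x 0, 0)` for `x = (i,0)`: `→ (Z i,1) → (W (i-1,2) 0, 0) → (W (i,0) 0, 0)`;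
  `x = (i,1)`: `→ (Z (i+1),2) → (Z i,0) → (W (i,1) 0, 0)`.  `(P i,2) → (Q (i-1),1) → (Q i,2) → (P i,2)`.
* `tailF_rho`: `tailF (bF (aF (aF e))) = tailF e` (note `a⁻¹ = a a`).
* `tail_cycle`: if `tailF e = tailF f` then `e`, `f` are in the same cycle of `ρ = b a⁻¹`.  It is enough to connect
  every `e` with a standard edge of its vertex: for `v x y`, `y ≤ h` (`y = y'.castSucc`) take `(W x y', 0)`, for
  `v x last` take `(W x last, 2)`, for `z` take `(Z 0, 0)`, for `z'` take `(Q 0, 2)`.  The map `ρ` is: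
  `(W x y,0) → (W (pv x) y,1)`;  `(W x y,1) → (W (nx x) (y-1),2)` if `y ≠ 0`, `→ botF (nx x)` if `y = 0`;
  `(W x y,2) → (W x (y+1),0)` if `y ≠ last`, `→ topF x` if `y = last`;  `(Z i,0) → (Z (i-1),0)`;
  `(Z i,1) → (W (i,1) 0,0)`;  `(Z i,2) → (W (i-1,2) 0,0)`;  `(P i,0) → (Q (i-1),1)`;  `(P i,1) → (W (i,0) last,2)`;
  `(P i,2) → (W (i,1) last,2)`;  `(Q i,0) → (P i,2)`;  `(Q i,1) → (W (i,2) last,2)`;  `(Q i,2) → (Q (i+1),2)`.
  (`z`: `ρ` moves `(Z i,0)` through all `i`: `ρ^k (Z i,0) = (Z (i-k),0)`; the same for `z'`.)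
* `conn_fam`: let `S` be nonempty and closed under `aF`, `bF`; then `S` is everything.  `S` contains with an edge
  all edges of its cell.  From `Z i`, `P i`, `Q i` one reaches a cell `W`.  From `W x y` one reaches `W (pv x) y`
  (corner 2), so (`n` finite: iterate `pv`, which is a cyclic permutation of the columns) all `W x' y`; and
  `W x (y+1)` if `y ≠ last` (corner 1), `W (nx x) (y-1)` if `y ≠ 0` (corner 0), so all `W x' y'`; from the rows `0`
  and `last` one reaches all `Z i`, `P i`, `Q i`.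
* `exists_fam`: the structure, with `a = (aF, aF ∘ aF)`, `b = (bF, bF ∘ bF)` as permutations.
-/

set_option autoImplicit false

namespace Pool.Agent.TS

open Cell Vt

variable {n h : ℕ}

private theorem FT_sub_add (y : Fin (h + 1)) : y - 1 + 1 = y := sub_add_cancel y 1

private theorem FT_add_sub (y : Fin (h + 1)) : y + 1 - 1 = y := add_sub_cancel_right y 1

private theorem FT_val_add {y : Fin (h + 1)} (hy : y ≠ Fin.last h) :
    (y + 1 : Fin (h + 1)).val = y.val + 1 := by
  rw [Fin.val_add_one, if_neg hy]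

private theorem FT_add_ne {y : Fin (h + 1)} (hy : y ≠ Fin.last h) : y + 1 ≠ 0 := by
  intro h0
  have h1 := FT_val_add hy
  rw [h0] at h1
  simp at h1

private theorem FT_sub_ne {y : Fin (h + 1)} (hy : y ≠ 0) : y - 1 ≠ Fin.last h := by
  intro h0
  apply hy
  rw [← FT_sub_add y, h0]
  exact Fin.last_add_one h

private theorem FT_add_cast {y : Fin (h + 1)} (hy : y ≠ Fin.last h) :
    (y + 1).castSucc = y.succ := by
  apply Fin.ext
  rw [Fin.val_castSucc, Fin.val_succ, FT_val_add hy]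

private theorem FT_sub_succ {y : Fin (h + 1)} (hy : y ≠ 0) : (y - 1).succ = y.castSucc := by
  rw [← FT_add_cast (FT_sub_ne hy), FT_sub_add]

private theorem FT_bf_top (x : Col n) :
    bF (topF x : Ed n h) = (W (nx x) (Fin.last h), 2) := by
  match x with
  | (i, 0) => rfl
  | (i, 1) => rfl
  | (i, 2) => rfl

private theorem FT_tail_top (x : Col n) : tailF (topF x : Ed n h) = v x (Fin.last _) := by
  match x with
  | (i, 0) => rfl
  | (i, 1) => rfl
  | (i, 2) =>
    show v (i + 1 - 1, 2) (Fin.last _) = v (i, 2) (Fin.last _)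
    rw [add_sub_cancel_right]

private theorem FT_tail_bot (x : Col n) : tailF (botF x : Ed n h) = v x 0 := by
  match x with
  | (i, 0) => rfl
  | (i, 1) => rfl
  | (i, 2) =>
    show v (i + 1 - 1, 2) 0 = v (i, 2) 0
    rw [add_sub_cancel_right]

private theorem FT_W0z (x : Col n) : bF (W x 0, 0) = (botF (nx x) : Ed n h) := by
  show (if (0 : Fin (h + 1)) = 0 then botF (nx x) else ((W (nx x) (0 - 1), 2) : Ed n h)) = _
  exact if_pos rfl

private theorem FT_W0 (x : Col n) {y : Fin (h + 1)} (hy : y ≠ 0) :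
    bF (W x y, 0) = (W (nx x) (y - 1), 2) := by
  show (if y = 0 then botF (nx x) else ((W (nx x) (y - 1), 2) : Ed n h)) = _
  exact if_neg hy

private theorem FT_W1l (x : Col n) : bF (W x (Fin.last h), 1) = topF x := by
  show (if Fin.last h = Fin.last h then topF x else ((W x (Fin.last h + 1), 0) : Ed n h)) = _
  exact if_pos rfl

private theorem FT_W1 (x : Col n) {y : Fin (h + 1)} (hy : y ≠ Fin.last h) :
    bF (W x y, 1) = (W x (y + 1), 0) := by
  show (if y = Fin.last h then topF x else ((W x (y + 1), 0) : Ed n h)) = _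
  exact if_neg hy

private theorem FT_W2 (x : Col n) (y : Fin (h + 1)) : bF (W x y, 2) = (W (pv x) y, 1) := rfl

private theorem FT_bb_bot (x : Col n) :
    bF (bF (botF (nx x))) = ((W x 0, 0) : Ed n h) := by
  match x with
  | (i, 0) =>
    show bF (W (i - 1, 2) 0, 0) = _
    rw [FT_W0z]
    show (W (i - 1 + 1, 0) 0, 0) = _
    rw [sub_add_cancel]
  | (i, 1) =>
    show (W (i + 1 - 1, 1) 0, 0) = _
    rw [add_sub_cancel_right]
  | (i, 2) =>
    show bF (bF (W (i + 1, 0) 0, 0)) = _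
    rw [FT_W0z]
    show (W (i + 1 - 1, 2) 0, 0) = _
    rw [add_sub_cancel_right]

theorem bF_cube (e : Ed n h) : bF (bF (bF e)) = e := by
  match e with
  | (W x y, 0) =>
    by_cases hy : y = 0
    · subst hy
      rw [FT_W0z, FT_bb_bot]
    · rw [FT_W0 x hy, FT_W2, pv_nx, FT_W1 x (FT_sub_ne hy), FT_sub_add]
  | (W x y, 1) =>
    by_cases hy : y = Fin.last h
    · subst hy
      rw [FT_W1l, FT_bf_top, FT_W2, pv_nx]
    · rw [FT_W1 x hy, FT_W0 x (FT_add_ne hy), FT_add_sub, FT_W2, pv_nx]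
  | (W x y, 2) =>
    rw [FT_W2]
    by_cases hy : y = Fin.last h
    · subst hy
      rw [FT_W1l, FT_bf_top, nx_pv]
    · rw [FT_W1 _ hy, FT_W0 _ (FT_add_ne hy), FT_add_sub, nx_pv]
  | (Z i, 0) =>
    show bF (bF (W (i, 1) 0, 0)) = _
    rw [FT_W0z]
    show (Z (i + 1 - 1), 0) = _
    rw [add_sub_cancel_right]
  | (Z i, 1) =>
    show bF (bF (W (i - 1, 2) 0, 0)) = _
    rw [FT_W0z]
    show bF (W (i - 1 + 1, 0) 0, 0) = _
    rw [FT_W0z]
    show (Z (i - 1 + 1), 1) = _
    rw [sub_add_cancel]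
  | (Z i, 2) =>
    show bF (W (i - 1, 1) 0, 0) = _
    rw [FT_W0z]
    show (Z (i - 1 + 1), 2) = _
    rw [sub_add_cancel]
  | (P i, 0) =>
    show bF (W (i - 1, 2) (Fin.last h), 1) = _
    rw [FT_W1l]
    show (P (i - 1 + 1), 0) = _
    rw [sub_add_cancel]
  | (P i, 1) =>
    show bF (W (i, 0) (Fin.last h), 1) = _
    rw [FT_W1l]
    rfl
  | (P i, 2) =>
    show (P (i - 1 + 1), 2) = _
    rw [sub_add_cancel]
  | (Q i, 0) =>
    show bF (W (i, 1) (Fin.last h), 1) = _
    rw [FT_W1l]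
    rfl
  | (Q i, 1) =>
    show (Q (i + 1 - 1), 1) = _
    rw [add_sub_cancel_right]
  | (Q i, 2) =>
    show (Q (i - 1 + 1), 2) = _
    rw [sub_add_cancel]

theorem bF_ne (e : Ed n h) : bF e ≠ e := by
  match e with
  | (W x y, 0) =>
    by_cases hy : y = 0
    · subst hy
      rw [FT_W0z]
      match x with
      | (i, 0) =>
        show ((Z i, 1) : Ed n h) ≠ _
        intro h0
        simp at h0
      | (i, 1) =>
        show ((Z (i + 1), 2) : Ed n h) ≠ _
        intro h0
        simp at h0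
      | (i, 2) =>
        show ((W (i + 1, 0) 0, 0) : Ed n h) ≠ _
        intro h0
        simp at h0
    · rw [FT_W0 x hy]
      intro h0
      have h1 : (2 : Fin 3) = 0 := congrArg Prod.snd h0
      exact absurd h1 (by decide)
  | (W x y, 1) =>
    by_cases hy : y = Fin.last h
    · subst hy
      rw [FT_W1l]
      match x with
      | (i, 0) =>
        show ((P i, 1) : Ed n h) ≠ _
        intro h0
        simp at h0
      | (i, 1) =>
        show ((Q i, 0) : Ed n h) ≠ _
        intro h0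
        simp at h0
      | (i, 2) =>
        show ((P (i + 1), 0) : Ed n h) ≠ _
        intro h0
        simp at h0
    · rw [FT_W1 x hy]
      intro h0
      have h1 : (0 : Fin 3) = 1 := congrArg Prod.snd h0
      exact absurd h1 (by decide)
  | (W x y, 2) =>
    rw [FT_W2]
    intro h0
    have h1 : (1 : Fin 3) = 2 := congrArg Prod.snd h0
    exact absurd h1 (by decide)
  | (Z i, 0) =>
    show ((W (i, 1) 0, 0) : Ed n h) ≠ _
    intro h0
    simp at h0
  | (Z i, 1) =>
    show ((W (i - 1, 2) 0, 0) : Ed n h) ≠ _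
    intro h0
    simp at h0
  | (Z i, 2) =>
    show ((Z (i - 1), 0) : Ed n h) ≠ _
    intro h0
    have h1 : (0 : Fin 3) = 2 := congrArg Prod.snd h0
    exact absurd h1 (by decide)
  | (P i, 0) =>
    show ((W (i, 0) (Fin.last h), 2) : Ed n h) ≠ _
    intro h0
    simp at h0
  | (P i, 1) =>
    show ((W (i, 1) (Fin.last h), 2) : Ed n h) ≠ _
    intro h0
    simp at h0
  | (P i, 2) =>
    show ((Q (i - 1), 1) : Ed n h) ≠ _
    intro h0
    simp at h0
  | (Q i, 0) =>
    show ((W (i, 2) (Fin.last h), 2) : Ed n h) ≠ _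
    intro h0
    simp at h0
  | (Q i, 1) =>
    show ((Q (i + 1), 2) : Ed n h) ≠ _
    intro h0
    have h1 : (2 : Fin 3) = 1 := congrArg Prod.snd h0
    exact absurd h1 (by decide)
  | (Q i, 2) =>
    show ((P i, 2) : Ed n h) ≠ _
    intro h0
    simp at h0

theorem aF_cube (e : Ed n h) : aF (aF (aF e)) = e := by
  have h1 : ∀ k : Fin 3, k + 1 + 1 + 1 = k := by decide
  exact Prod.ext rfl (h1 e.2)

theorem aF_ne (e : Ed n h) : aF e ≠ e := by
  have h1 : ∀ k : Fin 3, k + 1 ≠ k := by decide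
  intro h0
  exact h1 e.2 (congrArg Prod.snd h0)

theorem tailF_rho (e : Ed n h) : tailF (bF (aF (aF e))) = tailF e := by
  match e with
  | (W x y, 0) =>
    show v (nx (pv x)) y.castSucc = v x y.castSucc
    rw [nx_pv]
  | (W x y, 1) =>
    show tailF (bF (W x y, 0)) = v (nx x) y.castSucc
    by_cases hy : y = 0
    · subst hy
      rw [FT_W0z, FT_tail_bot]
      rfl
    · rw [FT_W0 x hy, ← FT_sub_succ hy]
      rfl
  | (W x y, 2) =>
    show tailF (bF (W x y, 1)) = v x y.succ
    by_cases hy : y = Fin.last h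
    · subst hy
      rw [FT_W1l, FT_tail_top]
      rfl
    · rw [FT_W1 x hy, ← FT_add_cast hy]
      rfl
  | (Z i, 0) => rfl
  | (Z i, 1) => rfl
  | (Z i, 2) => rfl
  | (P i, 0) => rfl
  | (P i, 1) => rfl
  | (P i, 2) => rfl
  | (Q i, 0) => rfl
  | (Q i, 1) => rfl
  | (Q i, 2) => rfl

theorem tailF_surj [NeZero n] : Function.Surjective (tailF : Ed n h → Vt n h) := by
  intro w
  match w with
  | v x y =>
    by_cases hy : y = Fin.last (h + 1)
    · subst hy
      exact ⟨(W x (Fin.last h), 2), rfl⟩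
    · exact ⟨(W x (y.castPred hy), 0), by
        show v x (y.castPred hy).castSucc = v x y
        rw [Fin.castSucc_castPred]⟩
  | z => exact ⟨(Z 0, 0), rfl⟩
  | z' => exact ⟨(Q 0, 2), rfl⟩

theorem exists_fam (n h : ℕ) [NeZero n] : ∃ T : Tri (Ed n h) (Vt n h), T.tail = tailF ∧
    (∀ e, T.a e = aF e) ∧ ∀ e, T.b e = bF e := by
  let a : Equiv.Perm (Ed n h) := ⟨aF, fun e => aF (aF e), fun e => aF_cube e, fun e => aF_cube e⟩
  let b : Equiv.Perm (Ed n h) := ⟨bF, fun e => bF (bF e), fun e => bF_cube e, fun e => bF_cube e⟩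
  have hr : ∀ e, (b * a⁻¹) e = rF e := fun e => rfl
  have hpow : ∀ (k : ℕ) (e : Ed n h), ((b * a⁻¹) ^ k) e = rF^[k] e := by
    intro k e
    rw [← Equiv.Perm.iterate_eq_pow]
    rfl
  have htail : ∀ (k : ℕ) (e : Ed n h), tailF (((b * a⁻¹) ^ k) e) = tailF e := by
    intro k
    induction k with
    | zero => intro e; rfl
    | succ k ih =>
      intro e
      rw [pow_succ', Equiv.Perm.mul_apply, hr]
      exact (tailF_rho _).trans (ih e)
  refine ⟨⟨tailF, a, b, aF_ne, bF_ne, aF_cube, bF_cube, tailF_surj, ?_, conn_fam⟩, rfl,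
    fun _ => rfl, fun _ => rfl⟩
  intro e f
  constructor
  · intro hef
    obtain ⟨k, hk⟩ := rch_std e
    obtain ⟨k', hk'⟩ := rch_std f
    have h1 : (b * a⁻¹).SameCycle e (stdF (tailF e)) := ⟨k, by rw [zpow_natCast, hpow, hk]⟩
    have h2 : (b * a⁻¹).SameCycle f (stdF (tailF f)) := ⟨k', by rw [zpow_natCast, hpow, hk']⟩
    rw [← hef] at h2
    exact h1.trans h2.symm
  · rintro ⟨i, hi⟩
    obtain ⟨k, rfl | rfl⟩ := i.eq_nat_or_neg
    · rw [zpow_natCast] at hi
      rw [← hi, htail]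
    · rw [zpow_neg, zpow_natCast] at hi
      have h1 := htail k f
      rw [← hi, self_inv] at h1
      rw [← hi]
      exact h1

end Pool.Agent.TS
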