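import Pool.Agent.helper31.TS.Basic

/-!
# TS-16 (Trans).  Transport to `Fin`

PROOF of `finite_tri`.  `T ↦ (T.tail, T.a, T.b)` is injective (structure extensionality) into a finite type.
PROOF of `order_le_mt`.  Choose `φ : E ≃ Fin (3 t)` and `ψ : V ≃ Fin (t + 2)` (`Fintype.equivFinOfCardEq`) and
transport `T`: `tail' = ψ ∘ tail ∘ φ.symm`, `a' = φ.permCongr a`, `b' = φ.permCongr b` (`SameCycle` of a
conjugate: `Equiv.Perm.sameCycle_conj` or directly with powers; `φ.permCongr` is a group homomorphism).  The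
isomorphism `(V → ℤ) ≃+ (Fin (t+2) → ℤ)` given by `ψ` (`Equiv.piCongrLeft`/`AddEquiv.arrowCongr`, or the quotient
maps built with `exists_hom` in both directions) maps the relations to the relations, so the groups and their
torsion subgroups are isomorphic and the orders agree.  The set of orders is finite (`finite_tri`), so bounded,
and `le_csSup` applies.
-/

set_option autoImplicit false

open Finset

namespace Pool.Agent.TS

theorem finite_tri (E V : Type) [Finite E] [Finite V] : Finite (Tri E V) := by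
  refine Finite.of_injective (β := (E → V) × Equiv.Perm E × Equiv.Perm E)
    (fun T => (T.tail, T.a, T.b)) ?_
  rintro ⟨t1, a1, b1, _, _, _, _, _, _, _⟩ ⟨t2, a2, b2, _, _, _, _, _, _, _⟩ h
  simp only [Prod.mk.injEq] at h
  obtain ⟨rfl, rfl, rfl⟩ := h
  rfl

theorem order_le_mt' {t : ℕ} (T : Tri (Fin (3 * t)) (Fin (t + 2))) : T.order ≤ mt t := by
  have := finite_tri (Fin (3 * t)) (Fin (t + 2))
  exact le_csSup (Set.finite_range _).bddAbove ⟨T, rfl⟩

private theorem same_conj {α β : Type*} (φ : α ≃ β) (f : Equiv.Perm α) (x y : β) :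
    (φ.permCongr f).SameCycle x y ↔ f.SameCycle (φ.symm x) (φ.symm y) := by
  have h : ∀ i : ℤ, ((φ.permCongr f) ^ i) x = φ ((f ^ i) (φ.symm x)) := by
    intro i
    have h1 : (φ.permCongr f) ^ i = φ.permCongr (f ^ i) := (map_zpow φ.permCongrHom f i).symm
    rw [h1, Equiv.permCongr_apply]
  constructor
  · rintro ⟨i, hi⟩
    refine ⟨i, ?_⟩
    rw [h] at hi
    rw [← hi, Equiv.symm_apply_apply]
  · rintro ⟨i, hi⟩
    refine ⟨i, ?_⟩
    rw [h, hi, Equiv.apply_symm_apply]

/-- transport of structure -/
private def trans {E V E' V' : Type} (T : Tri E V) (φ : E ≃ E') (ψ : V ≃ V') : Tri E' V' where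
  tail := fun e => ψ (T.tail (φ.symm e))
  a := φ.permCongr T.a
  b := φ.permCongr T.b
  a_ne := fun e h => T.a_ne (φ.symm e) (by
    rw [Equiv.permCongr_apply] at h
    have := congrArg φ.symm h
    rwa [Equiv.symm_apply_apply] at this)
  b_ne := fun e h => T.b_ne (φ.symm e) (by
    rw [Equiv.permCongr_apply] at h
    have := congrArg φ.symm h
    rwa [Equiv.symm_apply_apply] at this)
  a_cube := fun e => by
    simp only [Equiv.permCongr_apply, Equiv.symm_apply_apply, T.a_cube, Equiv.apply_symm_apply]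
  b_cube := fun e => by
    simp only [Equiv.permCongr_apply, Equiv.symm_apply_apply, T.b_cube, Equiv.apply_symm_apply]
  tail_surj := ψ.surjective.comp (T.tail_surj.comp φ.symm.surjective)
  tail_eq := fun e f => by
    have h1 : φ.permCongr T.b * (φ.permCongr T.a)⁻¹ = φ.permCongr (T.b * T.a⁻¹) := by
      have h2 : φ.permCongrHom (T.b * T.a⁻¹) = φ.permCongrHom T.b * (φ.permCongrHom T.a)⁻¹ := by
        rw [map_mul, map_inv]
      exact h2.symm
    rw [h1, same_conj, ← T.tail_eq]
    exact ψ.injective.eq_iff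
  conn := fun S hS hcl => by
    have h1 := T.conn (φ ⁻¹' S) (by
      obtain ⟨x, hx⟩ := hS
      exact ⟨φ.symm x, by simpa using hx⟩) (by
      intro e he
      have h2 := hcl (φ e) he
      simp only [Equiv.permCongr_apply, Equiv.symm_apply_apply] at h2
      exact h2)
    ext x
    constructor
    · intro _
      trivial
    · intro _
      have h2 : φ.symm x ∈ φ ⁻¹' S := by rw [h1]; trivial
      simpa using h2

theorem Tri.order_le_mt {E V : Type} [Fintype E] [Fintype V] [DecidableEq V] (T : Tri E V)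
    {t : ℕ} (hE : Fintype.card E = 3 * t) (hV : Fintype.card V = t + 2) : T.order ≤ mt t := by
  have φ : E ≃ Fin (3 * t) := Fintype.equivFinOfCardEq hE
  have ψ : V ≃ Fin (t + 2) := Fintype.equivFinOfCardEq hV
  obtain ⟨T', hT'⟩ : ∃ T', T' = trans T φ ψ := ⟨_, rfl⟩
  have htail : ∀ e, T'.tail e = ψ (T.tail (φ.symm e)) := fun e => by rw [hT']; rfl
  have ha : ∀ e, T'.a e = φ (T.a (φ.symm e)) := fun e => by rw [hT']; rfl
  have hai : ∀ e, T'.a⁻¹ e = φ (T.a⁻¹ (φ.symm e)) := fun e => by
    rw [Equiv.Perm.inv_eq_iff_eq, ha, Equiv.symm_apply_apply, self_inv, Equiv.apply_symm_apply]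
  obtain ⟨F, hF⟩ := T.exists_hom (fun v => T'.cls (ψ v)) (fun e => by
    have h := T'.cls_rel (φ e)
    rw [htail, htail, htail, ha, hai, Equiv.symm_apply_apply, Equiv.symm_apply_apply,
      Equiv.symm_apply_apply] at h
    exact h)
  obtain ⟨G, hG⟩ := T'.exists_hom (fun v => T.cls (ψ.symm v)) (fun e => by
    have h := T.cls_rel (φ.symm e)
    rw [htail, htail, htail, ha, hai, Equiv.symm_apply_apply, Equiv.symm_apply_apply,
      Equiv.symm_apply_apply, Equiv.symm_apply_apply, Equiv.symm_apply_apply]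
    exact h)
  have hGF : ∀ x, G (F x) = x := by
    intro x
    refine T.grp_induction (S := AddMonoidHom.eqLocus (G.comp F) (AddMonoidHom.id _))
      (fun v => ?_) x
    show G (F (T.cls v)) = T.cls v
    rw [hF, hG, Equiv.symm_apply_apply]
  have hFG : ∀ x, F (G x) = x := by
    intro x
    refine T'.grp_induction (S := AddMonoidHom.eqLocus (F.comp G) (AddMonoidHom.id _))
      (fun v => ?_) x
    show F (G (T'.cls v)) = T'.cls v
    rw [hG, hF, Equiv.apply_symm_apply]
  have e : T.Grp ≃+ T'.Grp :=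
    { toFun := F, invFun := G, left_inv := hGF, right_inv := hFG, map_add' := F.map_add }
  have hcard : T.order = T'.order := by
    unfold Tri.order
    refine Nat.card_congr (e.toEquiv.subtypeEquiv fun x => ?_)
    show IsOfFinAddOrder x ↔ IsOfFinAddOrder (e x)
    exact (Function.Injective.isOfFinAddOrder_iff (f := (e : T.Grp →+ T'.Grp)) e.injective).symm
  rw [hcard]
  exact order_le_mt' T'

end Pool.Agent.TS
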