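import Pool.Agent.helper31.TS.FamBj
import Pool.Agent.helper31.TS.FamGrp
import Pool.Agent.helper31.TS.FamTri
import Pool.Agent.helper31.TS.Trans

/-!
# TS-22 (FamDet).  The order of the torsion subgroup for the family

PROOF of `det_ge`.  `det_formula`, `Bj_zero`, `Bj_ge` for `0 < j < n` (finitely many conditions, `eventually_all_finset`);
`2 * ∏_{0<j<n} ell n j = Rn n`: `∏_{0<j<n} 2 cos (π (n-j)/(3n)) = ∏_{0<j<n} 2 cos (π j/(3n))` by `j ↦ n - j`
(`Finset.prod_range_reflect` for the range `n - 1`).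
PROOF of `mt_ge`.  For `H = h + 1` large with `H % 3 = 1`: `det_ge` gives `det ≠ 0`; `exists_fam`, `fam_order` and
`order_le_mt` (`card_Ed`, `card_Vt`, `t = 3 n (h + 2) = 3 n (H + 1)`).

author: helper59
-/

set_option autoImplicit false

open Finset Filter

namespace Pool.Agent.TS

/-- the growth rate of the family in `H` -/
noncomputable def Rn (n : ℕ) : ℝ :=
  2 * ∏ j ∈ range (n - 1), (2 * Real.cos (Real.pi * ((j : ℝ) + 1) / (3 * n))) ^ 2

private theorem fd_cos_pos {n : ℕ} {x : ℝ} (hx0 : 0 ≤ x) (hxn : x ≤ n) :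
    0 < 2 * Real.cos (Real.pi * x / (3 * n)) := by
  have hpi := Real.pi_pos
  rcases Nat.eq_zero_or_pos n with h | h
  · subst h
    simp
  · have hn : (0 : ℝ) < n := Nat.cast_pos.2 h
    have h1 : Real.pi * x / (3 * n) ≤ Real.pi / 3 := by
      rw [div_le_div_iff₀ (by positivity) (by norm_num)]
      nlinarith
    have h0 : 0 ≤ Real.pi * x / (3 * n) := by positivity
    have : 0 < Real.cos (Real.pi * x / (3 * n)) :=
      Real.cos_pos_of_mem_Ioo ⟨by linarith, by linarith⟩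
    linarith

theorem Rn_pos {n : ℕ} (hn : 0 < n) : 0 < Rn n := by
  unfold Rn
  refine mul_pos two_pos (Finset.prod_pos fun j hj => pow_pos ?_ 2)
  have hj' := Finset.mem_range.1 hj
  apply fd_cos_pos
  · positivity
  · have : j + 1 ≤ n := by omega
    exact_mod_cast this

private theorem fd_ell_nonneg {n j : ℕ} (hj : j ≤ n) : 0 ≤ ell n j := by
  have h1 : (j : ℝ) ≤ n := by exact_mod_cast hj
  have h0 : (0 : ℝ) ≤ j := Nat.cast_nonneg j
  unfold ell
  exact (mul_pos (fd_cos_pos h0 h1) (fd_cos_pos (by linarith) (by linarith))).le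

private theorem fd_Rn (m : ℕ) : 2 * ∏ j ∈ range m, ell (m + 1) (j + 1) = Rn (m + 1) := by
  unfold Rn ell
  rw [Nat.add_sub_cancel, Finset.prod_mul_distrib, Finset.prod_pow, sq]
  congr 2
  · refine Finset.prod_congr rfl fun j _ => ?_
    push_cast
    rfl
  · rw [← Finset.prod_range_reflect]
    refine Finset.prod_congr rfl fun j hj => ?_
    have hj' := Finset.mem_range.1 hj
    have e : ((m - 1 - j : ℕ) : ℝ) = (m : ℝ) - 1 - j := by
      rw [Nat.cast_sub (by omega), Nat.cast_sub (by omega)]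
      simp
    congr 3
    push_cast
    rw [e]
    ring

theorem det_ge {n : ℕ} [NeZero n] (hn : Odd n) : ∃ κ : ℝ, 0 < κ ∧ ∀ᶠ H : ℕ in atTop, H % 3 = 1 →
    κ * Rn n ^ H ≤ |((MH n H).det : ℝ)| := by
  obtain ⟨m, rfl⟩ : ∃ m, n = m + 1 := ⟨n - 1, by have := NeZero.ne n; omega⟩
  obtain ⟨C, hC, hdet⟩ := det_formula (m + 1)
  have hex : ∀ j : ℕ, ∃ κ : ℝ, 0 < κ ∧ (j < m → ∀ᶠ H : ℕ in atTop,
      κ * ell (m + 1) (j + 1) ^ H ≤ ‖(Bj (m + 1) H (j + 1)).det‖) := by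
    intro j
    by_cases hj : j < m
    · obtain ⟨κ, hκ, h1⟩ := Bj_ge hn (j := j + 1) (by omega) (by omega)
      exact ⟨κ, hκ, fun _ => h1⟩
    · exact ⟨1, one_pos, fun h => absurd h hj⟩
  choose κ hκ hev using hex
  have hev' : ∀ᶠ H : ℕ in atTop, ∀ j ∈ range m,
      κ j * ell (m + 1) (j + 1) ^ H ≤ ‖(Bj (m + 1) H (j + 1)).det‖ :=
    ((range m).eventually_all).2 fun j hj => hev j (Finset.mem_range.1 hj)
  refine ⟨C * (3 * Real.sqrt 3) * ∏ j ∈ range m, κ j, ?_, ?_⟩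
  · have : 0 < ∏ j ∈ range m, κ j := Finset.prod_pos fun j _ => hκ j
    positivity
  · filter_upwards [hev'] with H hH hmod
    rw [hdet H, Finset.prod_range_succ', Bj_zero (Nat.succ_pos m) hmod, ← fd_Rn, mul_pow,
      ← Finset.prod_pow]
    have h1 : (∏ j ∈ range m, κ j) * ∏ j ∈ range m, ell (m + 1) (j + 1) ^ H ≤
        ∏ j ∈ range m, ‖(Bj (m + 1) H (j + 1)).det‖ := by
      rw [← Finset.prod_mul_distrib]
      refine Finset.prod_le_prod (fun j hj => ?_) hH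
      have hj' := Finset.mem_range.1 hj
      exact mul_nonneg (hκ j).le (pow_nonneg (fd_ell_nonneg (by omega)) _)
    calc C * (3 * Real.sqrt 3) * (∏ j ∈ range m, κ j) *
          (2 ^ H * ∏ j ∈ range m, ell (m + 1) (j + 1) ^ H)
        = C * (((∏ j ∈ range m, κ j) * ∏ j ∈ range m, ell (m + 1) (j + 1) ^ H) *
            (3 * Real.sqrt 3 * 2 ^ H)) := by ring
      _ ≤ C * ((∏ j ∈ range m, ‖(Bj (m + 1) H (j + 1)).det‖) *
            (3 * Real.sqrt 3 * 2 ^ H)) := by gcongr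

theorem mt_ge {n : ℕ} (hn : Odd n) : ∃ κ : ℝ, 0 < κ ∧ ∀ᶠ H : ℕ in atTop, H % 3 = 1 →
    κ * Rn n ^ H ≤ (mt (3 * n * (H + 1)) : ℝ) := by
  have hpos : 0 < n := hn.pos
  have : NeZero n := ⟨hpos.ne'⟩
  obtain ⟨κ, hκ, hev⟩ := det_ge hn
  refine ⟨κ, hκ, ?_⟩
  filter_upwards [hev, eventually_ge_atTop 1] with H hH h1 hmod
  obtain ⟨h, rfl⟩ : ∃ h, H = h + 1 := ⟨H - 1, by omega⟩
  have h2 := hH hmod
  have h3 : 0 < κ * Rn n ^ (h + 1) := mul_pos hκ (pow_pos (Rn_pos hpos) _)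
  have h4 : (MH n (h + 1)).det ≠ 0 := by
    intro h0
    rw [h0] at h2
    simp only [Int.cast_zero, abs_zero] at h2
    linarith
  obtain ⟨T, hT1, hT2, -⟩ := exists_fam n h
  have h5 := fam_order hmod T hT1 hT2 h4
  have h6 := T.order_le_mt (t := 3 * n * (h + 2)) card_Ed card_Vt
  have h7 : ((MH n (h + 1)).det.natAbs : ℝ) ≤ (mt (3 * n * (h + 2)) : ℝ) := by
    exact_mod_cast h5.trans h6
  rw [Nat.cast_natAbs, Int.cast_abs] at h7
  exact h2.trans h7

end Pool.Agent.TS
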