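import Pool.Agent.helper31.TS.FamMat

/-!
# TS-20 (FamFou).  Fourier transform of the relation matrix

`mu n j l = exp (2 π i (j + n l) / (3 n))`, `j < n`, `l < 3`: these are the `3 n` different `3 n`-th roots of
unity.
PROOF.  Let `idx (i, c) = 3 i.val + c.val` and `F : Matrix (Col n) (Col n) ℂ`, `F x (j, l) =
(mu n j.val l)^(idx x)` (the second index is `(j, l) ∈ ZMod n × Fin 3`).  For `m = mu n j l`, `g x = m ^ idx x`:
`m ^ (3 n) = 1`, so `g (nx x) = m * g x` for all `x` (for `x = (i, 2)`: `idx (i+1, 0) = idx (i, 2) + 1` modulo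
`3 n`).  So `∑ x, (tmap f) x * g x = - (1 + m) * ∑ x, f x * g x`, and
`∑ x, MH (i, c) x * g x = (m ^ 3) ^ i.val * Bj n H j c l` (`base i 0`: `m^(3i-1) + m^(3i+1)`, etc.), where
`m ^ 3 = exp (2 π i j / n)` depends only on `j`.  So `MH * F = D * B`, `D (i, c) (j, c') = (exp (2 π i j / n))^i.val`
if `c = c'` and `0` otherwise, `B = Matrix.blockDiagonal`-like: `B (j, c) (j', l) = Bj n H j c l` if `j = j'`,
`0` otherwise (`Matrix.blockDiagonal'`/`Matrix.det_blockDiagonal` after reindexing with `Equiv.prodComm`).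
`det D = (det Vandermonde)^3 ≠ 0` (Kronecker product with the identity of size 3, `Matrix.det_kronecker`, or
`blockDiagonal` with respect to `c`; `Matrix.det_vandermonde_ne_zero_iff`, the `exp (2 π i j / n)` are different)
and `det F ≠ 0` (Vandermonde, the `mu n j l` are different; reindex `Col n ≃ Fin (3 n)` by `idx`).  Both do not
depend on `H`.  `C = |det D| / |det F|`.
-/

set_option autoImplicit false

open Finset

namespace Pool.Agent.TS

/-- the `3 n`-th roots of unity -/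
noncomputable def mu (n j : ℕ) (l : Fin 3) : ℂ :=
  Complex.exp (2 * Real.pi * Complex.I * ((j : ℂ) + n * (l : ℕ)) / (3 * n))

/-- the blocks of the Fourier transform of the relation matrix -/
noncomputable def Bj (n H j : ℕ) : Matrix (Fin 3) (Fin 3) ℂ := fun c l =>
  match c with
  | 0 => (mu n j l)⁻¹ + mu n j l
  | 1 => (-(1 + mu n j l)) ^ H * ((mu n j l)⁻¹ + 1 + mu n j l)
  | 2 => (-(1 + mu n j l)) ^ H * (mu n j l + mu n j l ^ 2)

variable {n : ℕ}

private noncomputable def FF_z (n : ℕ) : ℂ := Complex.exp (2 * Real.pi * Complex.I / (3 * n : ℕ))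

private theorem FF_prim [NeZero n] : IsPrimitiveRoot (FF_z n) (3 * n) :=
  Complex.isPrimitiveRoot_exp _ (by
    have := NeZero.ne n
    omega)

private theorem FF_mu [NeZero n] (j : ℕ) (l : Fin 3) : mu n j l = FF_z n ^ (j + n * l.val) := by
  rw [mu, FF_z, ← Complex.exp_nat_mul]
  congr 1
  push_cast
  ring

private theorem FF_mu_ne (n j : ℕ) (l : Fin 3) : mu n j l ≠ 0 := Complex.exp_ne_zero _

private theorem FF_mu_pow [NeZero n] (j : ℕ) (l : Fin 3) : mu n j l ^ (3 * n) = 1 := by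
  rw [FF_mu, ← pow_mul, mul_comm, pow_mul, FF_prim.pow_eq_one, one_pow]

private theorem FF_mu_cube [NeZero n] (j : ℕ) (l : Fin 3) :
    mu n j l ^ 3 = (FF_z n ^ 3) ^ j := by
  rw [FF_mu, ← pow_mul, ← pow_mul, add_mul, pow_add]
  have h1 : n * l.val * 3 = 3 * n * l.val := by ring
  rw [h1, pow_mul (FF_z n) (3 * n), FF_prim.pow_eq_one, one_pow, mul_one, mul_comm]

private def FF_idx (x : Col n) : ℕ := 3 * x.1.val + x.2.val

private theorem FF_idx_nx [NeZero n] {m : ℂ} (hm : m ^ (3 * n) = 1) (x : Col n) :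
    m ^ FF_idx (nx x) = m * m ^ FF_idx x := by
  obtain ⟨i, c⟩ := x
  fin_cases c
  · show m ^ (3 * i.val + 1) = m * m ^ (3 * i.val + 0)
    rw [pow_succ, add_zero, mul_comm]
  · show m ^ (3 * i.val + 2) = m * m ^ (3 * i.val + 1)
    rw [pow_succ m (3 * i.val + 1), mul_comm]
  · show m ^ (3 * (i + 1).val + 0) = m * m ^ (3 * i.val + 2)
    have h1 : m * m ^ (3 * i.val + 2) = m ^ (3 * (i.val + 1)) := by
      rw [← pow_succ']
      congr 1
    rw [h1, add_zero]
    have h2 : (i + 1).val = (i.val + 1) % n := by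
      rw [ZMod.val_add]
      rcases Nat.lt_or_ge 1 n with h | h
      · have : Fact (1 < n) := ⟨h⟩
        rw [ZMod.val_one]
      · have hn : n = 1 := by
          have := NeZero.ne n
          omega
        subst hn
        rw [Nat.mod_one, Nat.mod_one]
    rw [h2]
    have h3 := ZMod.val_lt i
    rcases Nat.lt_or_ge (i.val + 1) n with h | h
    · rw [Nat.mod_eq_of_lt h]
    · have h4 : i.val + 1 = n := by omega
      rw [h4, Nat.mod_self, mul_zero, pow_zero, hm]

/-- the shift of the columns -/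
private def FF_sh (n : ℕ) : Col n ≃ Col n := ⟨nx, pv, pv_nx, nx_pv⟩

private theorem FF_tmap [NeZero n] {m : ℂ} (hm : m ^ (3 * n) = 1) (f : Col n → ℤ) :
    ∑ x, ((tmap f x : ℤ) : ℂ) * m ^ FF_idx x = -(1 + m) * ∑ x, (f x : ℂ) * m ^ FF_idx x := by
  have h1 : ∑ x : Col n, (f (pv x) : ℂ) * m ^ FF_idx x = m * ∑ x, (f x : ℂ) * m ^ FF_idx x := by
    rw [← (FF_sh n).sum_comp, Finset.mul_sum]
    refine Finset.sum_congr rfl fun x _ => ?_
    show (f (pv (nx x)) : ℂ) * m ^ FF_idx (nx x) = _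
    rw [pv_nx, FF_idx_nx hm]
    ring
  have h2 : ∀ x : Col n, ((tmap f x : ℤ) : ℂ) * m ^ FF_idx x =
      -((f x : ℂ) * m ^ FF_idx x + (f (pv x) : ℂ) * m ^ FF_idx x) := by
    intro x
    show ((-(f x + f (pv x)) : ℤ) : ℂ) * m ^ FF_idx x = _
    push_cast
    ring
  rw [Finset.sum_congr rfl fun x _ => h2 x, Finset.sum_neg_distrib, Finset.sum_add_distrib, h1]
  ring

private theorem FF_iter [NeZero n] {m : ℂ} (hm : m ^ (3 * n) = 1) (H : ℕ) (f : Col n → ℤ) :
    ∑ x, ((tmap^[H] f x : ℤ) : ℂ) * m ^ FF_idx x =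
      (-(1 + m)) ^ H * ∑ x, (f x : ℂ) * m ^ FF_idx x := by
  induction H generalizing f with
  | zero => rw [Function.iterate_zero_apply, pow_zero, one_mul]
  | succ H ih =>
    rw [Function.iterate_succ_apply, ih, FF_tmap hm, pow_succ]
    ring

private theorem FF_single [NeZero n] (m : ℂ) (y : Col n) :
    ∑ x, (((Pi.single y (1 : ℤ) : Col n → ℤ) x : ℤ) : ℂ) * m ^ FF_idx x = m ^ FF_idx y := by
  rw [Finset.sum_eq_single y]
  · rw [Pi.single_eq_same, Int.cast_one, one_mul]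
  · intro x _ hx
    rw [Pi.single_eq_of_ne hx, Int.cast_zero, zero_mul]
  · intro h
    exact absurd (Finset.mem_univ _) h

private theorem FF_base [NeZero n] {m : ℂ} (hm : m ^ (3 * n) = 1) (hm0 : m ≠ 0) (i : ZMod n)
    (c : Fin 3) : ∑ x, ((base i c x : ℤ) : ℂ) * m ^ FF_idx x =
      (m ^ 3) ^ i.val * (match c with
        | 0 => m⁻¹ + m
        | 1 => m⁻¹ + 1 + m
        | 2 => m + m ^ 2) := by
  have e0 : m ^ FF_idx ((i, 0) : Col n) = (m ^ 3) ^ i.val := by
    rw [← pow_mul]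
    rfl
  have e1 : m ^ FF_idx ((i, 1) : Col n) = m * (m ^ 3) ^ i.val := by
    rw [← e0, ← FF_idx_nx hm]
    rfl
  have e2 : m ^ FF_idx ((i, 2) : Col n) = m ^ 2 * (m ^ 3) ^ i.val := by
    have h1 : m ^ FF_idx ((i, 2) : Col n) = m * m ^ FF_idx ((i, 1) : Col n) := by
      rw [← FF_idx_nx hm]
      rfl
    rw [h1, e1]
    ring
  have e3 : m ^ FF_idx ((i - 1, 2) : Col n) = m⁻¹ * (m ^ 3) ^ i.val := by
    have h1 : m * m ^ FF_idx ((i - 1, 2) : Col n) = m ^ FF_idx ((i, 0) : Col n) := by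
      rw [← FF_idx_nx hm]
      show m ^ FF_idx ((i - 1 + 1, 0) : Col n) = _
      rw [sub_add_cancel]
    rw [← e0, ← h1, inv_mul_cancel_left₀ hm0]
  fin_cases c
  · show ∑ x, (((Pi.single (i - 1, 2) 1 + Pi.single (i, 1) 1 : Col n → ℤ) x : ℤ) : ℂ) *
      m ^ FF_idx x = (m ^ 3) ^ i.val * (m⁻¹ + m)
    simp only [Pi.add_apply, Int.cast_add, add_mul, Finset.sum_add_distrib, FF_single]
    rw [e1, e3]
    ring
  · show ∑ x, (((Pi.single (i - 1, 2) 1 + Pi.single (i, 0) 1 + Pi.single (i, 1) 1 :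
      Col n → ℤ) x : ℤ) : ℂ) * m ^ FF_idx x = (m ^ 3) ^ i.val * (m⁻¹ + 1 + m)
    simp only [Pi.add_apply, Int.cast_add, add_mul, Finset.sum_add_distrib, FF_single]
    rw [e0, e1, e3]
    ring
  · show ∑ x, (((Pi.single (i, 1) 1 + Pi.single (i, 2) 1 : Col n → ℤ) x : ℤ) : ℂ) *
      m ^ FF_idx x = (m ^ 3) ^ i.val * (m + m ^ 2)
    simp only [Pi.add_apply, Int.cast_add, add_mul, Finset.sum_add_distrib, FF_single]
    rw [e1, e2]
    ring

/-- the rows of the relation matrix -/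
private theorem FF_row [NeZero n] (H : ℕ) (i : ZMod n) (c : Fin 3) (j : ℕ) (l : Fin 3) :
    ∑ x, ((MH n H (i, c) x : ℤ) : ℂ) * mu n j l ^ FF_idx x =
      ((FF_z n ^ 3) ^ j) ^ i.val * Bj n H j c l := by
  have hm := FF_mu_pow (n := n) j l
  have hm0 := FF_mu_ne n j l
  rw [← FF_mu_cube]
  fin_cases c
  · exact FF_base hm hm0 i 0
  · show ∑ x, ((tmap^[H] (base i 1) x : ℤ) : ℂ) * mu n j l ^ FF_idx x = _
    rw [FF_iter hm, FF_base hm hm0]
    show _ = (mu n j l ^ 3) ^ i.val * ((-(1 + mu n j l)) ^ H * ((mu n j l)⁻¹ + 1 + mu n j l))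
    ring
  · show ∑ x, ((tmap^[H] (base i 2) x : ℤ) : ℂ) * mu n j l ^ FF_idx x = _
    rw [FF_iter hm, FF_base hm hm0]
    show _ = (mu n j l ^ 3) ^ i.val * ((-(1 + mu n j l)) ^ H * (mu n j l + mu n j l ^ 2))
    ring

/-- a generalised Vandermonde matrix -/
private theorem FF_vdm {ι : Type*} [Fintype ι] [DecidableEq ι] (N : ℕ) (e : ι ≃ Fin N)
    (v : ι → ℂ) (hv : Function.Injective v) :
    (Matrix.of fun x y : ι => v y ^ (e x).val).det ≠ 0 := by
  have h1 : (Matrix.of fun x y : ι => v y ^ (e x).val) =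
      ((Matrix.vandermonde (v ∘ e.symm)).transpose).submatrix e e := by
    ext x y
    rw [Matrix.submatrix_apply, Matrix.transpose_apply, Matrix.vandermonde_apply,
      Function.comp_apply, Equiv.symm_apply_apply]
    rfl
  rw [h1, Matrix.det_submatrix_equiv_self, Matrix.det_transpose,
    Matrix.det_vandermonde_ne_zero_iff]
  exact hv.comp e.symm.injective

private noncomputable def FF_e (n : ℕ) [NeZero n] : ZMod n ≃ Fin n :=
  Equiv.ofBijective (fun i => ⟨i.val, ZMod.val_lt i⟩) (by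
    rw [Fintype.bijective_iff_injective_and_card]
    refine ⟨fun i j h => ZMod.val_injective n (congrArg Fin.val h), ?_⟩
    rw [ZMod.card, Fintype.card_fin])

private theorem FF_e_val [NeZero n] (i : ZMod n) : (FF_e n i).val = i.val := rfl

private noncomputable def FF_e3 (n : ℕ) [NeZero n] : Col n ≃ Fin (3 * n) :=
  Equiv.ofBijective (fun x => ⟨FF_idx x, by
    have h1 := ZMod.val_lt x.1
    have h2 := x.2.isLt
    unfold FF_idx
    omega⟩) (by
    rw [Fintype.bijective_iff_injective_and_card]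
    constructor
    · rintro ⟨i, c⟩ ⟨j, d⟩ h
      have h1 : 3 * i.val + c.val = 3 * j.val + d.val := congrArg Fin.val h
      have h2 := c.isLt
      have h3 := d.isLt
      have h4 : i.val = j.val := by omega
      have h5 : c.val = d.val := by omega
      rw [ZMod.val_injective n h4, Fin.ext h5]
    · rw [Fintype.card_prod, ZMod.card, Fintype.card_fin, Fintype.card_fin]
      ring)

private theorem FF_e3_val [NeZero n] (x : Col n) : (FF_e3 n x).val = FF_idx x := rfl

private noncomputable def FF_F (n : ℕ) : Matrix (Col n) (Col n) ℂ :=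
  Matrix.of fun x y => mu n y.1.val y.2 ^ FF_idx x

private theorem FF_F_det [NeZero n] : (FF_F n).det ≠ 0 := by
  refine FF_vdm (3 * n) (FF_e3 n) (fun y => mu n y.1.val y.2) ?_
  rintro ⟨i, c⟩ ⟨j, d⟩ h
  have h0 : mu n i.val c = mu n j.val d := h
  rw [FF_mu, FF_mu] at h0
  have hi := ZMod.val_lt i
  have hj := ZMod.val_lt j
  have hc := c.isLt
  have hd := d.isLt
  have b1 : i.val + n * c.val < 3 * n := by nlinarith
  have b2 : j.val + n * d.val < 3 * n := by nlinarith
  have h1 := FF_prim.pow_inj b1 b2 h0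
  have h2 : c.val = d.val := by
    rcases Nat.lt_trichotomy c.val d.val with h3 | h3 | h3
    · nlinarith
    · exact h3
    · nlinarith
  have h3 : i.val = j.val := by
    rw [h2] at h1
    omega
  rw [ZMod.val_injective n h3, Fin.ext h2]

private noncomputable def FF_V (n : ℕ) : Matrix (ZMod n) (ZMod n) ℂ :=
  Matrix.of fun i j => ((FF_z n ^ 3) ^ j.val) ^ i.val

private theorem FF_V_det [NeZero n] : (FF_V n).det ≠ 0 := by
  have hn := NeZero.ne n
  refine FF_vdm n (FF_e n) (fun j => (FF_z n ^ 3) ^ j.val) ?_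
  intro i j h
  have hp : IsPrimitiveRoot (FF_z n ^ 3) n := FF_prim.pow (by omega) rfl
  exact ZMod.val_injective n (hp.pow_inj (ZMod.val_lt i) (ZMod.val_lt j) h)

private noncomputable def FF_D (n : ℕ) : Matrix (Col n) (Col n) ℂ :=
  Matrix.kroneckerMap (fun a b => a * b) (FF_V n) (1 : Matrix (Fin 3) (Fin 3) ℂ)

private theorem FF_D_det [NeZero n] : (FF_D n).det ≠ 0 := by
  unfold FF_D
  rw [Matrix.det_kronecker, Matrix.det_one, one_pow, mul_one]
  exact pow_ne_zero _ FF_V_det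

private noncomputable def FF_B (n H : ℕ) : Matrix (Col n) (Col n) ℂ :=
  (Matrix.blockDiagonal fun j : ZMod n => Bj n H j.val).submatrix Prod.swap Prod.swap

private theorem FF_B_det [NeZero n] (H : ℕ) :
    (FF_B n H).det = ∏ j ∈ range n, (Bj n H j).det := by
  have h1 : FF_B n H = (Matrix.blockDiagonal fun j : ZMod n => Bj n H j.val).submatrix
      (Equiv.prodComm (ZMod n) (Fin 3)) (Equiv.prodComm (ZMod n) (Fin 3)) := rfl
  rw [h1, Matrix.det_submatrix_equiv_self, Matrix.det_blockDiagonal,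
    Finset.prod_range (fun j => (Bj n H j).det), ← (FF_e n).prod_comp]
  rfl

private theorem FF_mul [NeZero n] (H : ℕ) :
    ((MH n H).map (Int.castRingHom ℂ)) * FF_F n = FF_D n * FF_B n H := by
  ext ⟨i, c⟩ ⟨j, l⟩
  rw [Matrix.mul_apply, Matrix.mul_apply]
  have h1 := FF_row (n := n) H i c j.val l
  have h2 : ∑ x, ((MH n H).map (Int.castRingHom ℂ)) (i, c) x * FF_F n x (j, l) =
      ∑ x, ((MH n H (i, c) x : ℤ) : ℂ) * mu n j.val l ^ FF_idx x := rfl
  rw [h2, h1, Finset.sum_eq_single (j, c)]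
  · show _ = (FF_V n i j * (1 : Matrix (Fin 3) (Fin 3) ℂ) c c) *
      Matrix.blockDiagonal (fun j : ZMod n => Bj n H j.val) (c, j) (l, j)
    rw [Matrix.one_apply_eq, mul_one, Matrix.blockDiagonal_apply_eq]
    rfl
  · rintro ⟨j', c'⟩ _ hne
    show (FF_V n i j' * (1 : Matrix (Fin 3) (Fin 3) ℂ) c c') *
      Matrix.blockDiagonal (fun j : ZMod n => Bj n H j.val) (c', j') (l, j) = 0
    by_cases h3 : j' = j
    · have h4 : c ≠ c' := fun h4 => hne (by rw [h3, h4])
      rw [Matrix.one_apply_ne h4, mul_zero, zero_mul]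
    · rw [Matrix.blockDiagonal_apply_ne _ _ _ h3, mul_zero]
  · intro h
    exact absurd (Finset.mem_univ _) h

theorem det_formula (n : ℕ) [NeZero n] : ∃ C : ℝ, 0 < C ∧ ∀ H : ℕ,
    |((MH n H).det : ℝ)| = C * ∏ j ∈ range n, ‖(Bj n H j).det‖ := by
  have hF : 0 < ‖(FF_F n).det‖ := norm_pos_iff.2 FF_F_det
  have hD : 0 < ‖(FF_D n).det‖ := norm_pos_iff.2 FF_D_det
  refine ⟨‖(FF_D n).det‖ / ‖(FF_F n).det‖, div_pos hD hF, fun H => ?_⟩
  have h1 := congrArg Matrix.det (FF_mul (n := n) H)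
  rw [Matrix.det_mul, Matrix.det_mul, FF_B_det] at h1
  have h2 : ((MH n H).map (Int.castRingHom ℂ)).det = (((MH n H).det : ℤ) : ℂ) :=
    (RingHom.map_det (Int.castRingHom ℂ) (MH n H)).symm
  rw [h2] at h1
  have h3 := congrArg norm h1
  rw [norm_mul, norm_mul, norm_prod, Complex.norm_intCast] at h3
  rw [div_mul_eq_mul_div, eq_div_iff hF.ne']
  exact h3

end Pool.Agent.TS
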