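import Pool.Agent.helper31.TS.FamDef

/-!
# TS: the relation matrix of the family
-/

set_option autoImplicit false

namespace Pool.Agent.TS

variable {n : ℕ}

/-- the homomorphism `e_x ↦ - (e_x + e_(nx x))` of `ℤ^Col` -/
def tmap : (Col n → ℤ) →+ (Col n → ℤ) where
  toFun f := fun x => -(f x + f (pv x))
  map_zero' := by funext x; simp
  map_add' f g := by funext x; simp only [Pi.add_apply]; ring

/-- the three kinds of relations -/
def base (i : ZMod n) (c : Fin 3) : Col n → ℤ :=
  match c with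
  | 0 => Pi.single (i - 1, 2) 1 + Pi.single (i, 1) 1
  | 1 => Pi.single (i - 1, 2) 1 + Pi.single (i, 0) 1 + Pi.single (i, 1) 1
  | 2 => Pi.single (i, 1) 1 + Pi.single (i, 2) 1

/-- the relation matrix -/
def MH (n H : ℕ) : Matrix (Col n) (Col n) ℤ := fun r =>
  if r.2 = 0 then base r.1 r.2 else tmap^[H] (base r.1 r.2)

theorem tmap_single (x : Col n) :
    tmap (Pi.single x 1) = -(Pi.single x 1 + Pi.single (nx x) 1) := by
  funext y
  show -((Pi.single x (1 : ℤ) : Col n → ℤ) y + (Pi.single x (1 : ℤ) : Col n → ℤ) (pv y)) = _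
  have h : (Pi.single x (1 : ℤ) : Col n → ℤ) (pv y) = (Pi.single (nx x) (1 : ℤ) : Col n → ℤ) y := by
    by_cases hy : y = nx x
    · rw [hy, pv_nx, Pi.single_eq_same, Pi.single_eq_same]
    · rw [Pi.single_eq_of_ne hy, Pi.single_eq_of_ne]
      intro h
      exact hy (by rw [← h, nx_pv])
  rw [h]
  rfl

end Pool.Agent.TS
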