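import Pool.Agent.helper31.TS.MatDef

/-!
# TS-3 (GrpRel).  The relation of a vertex

PROOF of `deg_smul_cls`.  In `A_W` write `[e]` for `cls (tail e)`.  `cls_rel e`: `[e] + [a e] + [a⁻¹ e] = 0`.
`cls_rel (b e)`: `[b e] + [a b e] + [a⁻¹ b e] = 0`, where `tail (a (b e)) = tail (b (b e)) = tail (b⁻¹ e)`
(`tail_b`, `b_b`), `tail (b e) = tail (a e)`, `a⁻¹ b e = kap e`.  Sum over the `e` with `tail e = r`:
`∑ [kap e] = - ∑ [a e] - ∑ [b⁻¹ e]`, and `∑ [b⁻¹ e] = ∑ [a⁻¹ e]` by the bijection `e ↦ rho e` of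
`{e | tail e = r}` (`tail_rho`; `b⁻¹ (rho e) = a⁻¹ e`).  So `∑ [kap e] = - ∑ ([a e] + [a⁻¹ e]) = ∑ [e]
= deg r • cls r`.
-/

set_option autoImplicit false

open Finset

namespace Pool.Agent.TS

variable {E V : Type} [Fintype E] [DecidableEq V]

theorem Tri.deg_smul_cls (T : Tri E V) (r : V) :
    (T.deg r : ℤ) • T.cls r = ∑ e with T.tail e = r, T.cls (T.tail (T.kap e)) := by
  classical
  have h1 : ∀ e : E, T.cls (T.tail (T.kap e)) =
      - T.cls (T.tail (T.a e)) - T.cls (T.tail (T.b⁻¹ e)) := by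
    intro e
    have h := T.cls_rel (T.b e)
    rw [T.tail_b, ← T.tail_b (T.b e), T.b_b, ← T.kap_apply] at h
    have h2 := eq_neg_of_add_eq_zero_right h
    rw [h2]
    abel
  have h2 : ∑ e with T.tail e = r, T.cls (T.tail (T.a⁻¹ e)) =
      ∑ e with T.tail e = r, T.cls (T.tail (T.b⁻¹ e)) := by
    refine Finset.sum_equiv T.rho (fun e => ?_) (fun e _ => ?_)
    · simp only [mem_filter, mem_univ, true_and, T.tail_rho]
    · rw [T.rho_apply, inv_self]
  have h3 : ∀ e ∈ ({e : E | T.tail e = r} : Finset E),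
      T.cls r = - T.cls (T.tail (T.a e)) - T.cls (T.tail (T.a⁻¹ e)) := by
    intro e he
    have he' : T.tail e = r := (mem_filter.1 he).2
    have h := T.cls_rel e
    rw [he', add_assoc] at h
    rw [eq_neg_of_add_eq_zero_left h]
    abel
  have h4 : (T.deg r : ℤ) • T.cls r = ∑ e with T.tail e = r, T.cls r := by
    rw [sum_const, natCast_zsmul]
    rfl
  rw [h4, sum_congr rfl h3, sum_congr rfl fun e _ => h1 e, sum_sub_distrib, sum_sub_distrib, h2]

end Pool.Agent.TS
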