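import Mathlib

/-!
# TS-14 (Ineq).  Two real inequalities

PROOF of `prod_ge`.  Let `L x = log (d x / 3)`.  `∏ 1 / d x = exp (- ∑ log (d x)) =
(1/27) exp (- (∑ L x + (card - 3) log 3)) ≥ (1/27) (1 - ∑ L x - (card - 3) log 3)` (`exp y ≥ 1 + y`).  If
`th (d x) = L x` for all `x ∈ s` this is the claim.  Otherwise `th (d x₀) = 1 + 2 log 3` for some `x₀ ∈ s`, and
`th (d x) ≥ - log 3` for all other `x` (`d x ≥ 1`), so the left side is at most
`(1/27) (1 - (1 + 2 log 3) + (card - 1) log 3 - (card - 3) log 3) = 0 ≤ ∏`.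

PROOF of `g_le`.  With `x = d / 3` the claim is (the terms with `log 3` cancel; multiply by 27)
`9 log x + 2 x th ≤ 11 (x - 1)`.
Case `x ≤ 9 e`: `th ≤ log x`, so it suffices `h x = 11 (x - 1) - (9 + 2 x) log x ≥ 0` on `(0, 9 e]`:
`h 1 = 0`, `h' x = 9 - 2 log x - 9 / x`, `h' 1 = 0`, `h'' x = (9 - 2 x) / x²`.  `h'` is increasing on `(0, 9/2]` and
decreasing on `[9/2, 9 e]` with `h' (9 e) = 9 - 2 (1 + 2 log 3) - 1 / e > 0` (`log 3 < 1.0987`), so `h' ≤ 0` on
`(0, 1]` and `h' ≥ 0` on `[1, 9 e]`.
Case `x ≥ 9 e`: `th ≤ 1 + 2 log 3 =: τ < 3.198`; `9 log x + 2 x τ ≤ 11 (x - 1)`: `log x ≤ log (9 e) + (x - 9 e) / (9 e)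
= τ + x / (9 e) - 1`, so it suffices `9 τ - 9 + x / e + 2 τ x + 11 ≤ 11 x`; `11 - 2 τ - 1 / e > 4.2`, `9 τ + 2 < 31`
and `x ≥ 9 e > 24`.
-/

set_option autoImplicit false

open Finset Real

namespace Pool.Agent.TS

/-- truncated `log (d / 3)` -/
noncomputable def th (d : ℕ) : ℝ := min (log ((d : ℝ) / 3)) (1 + 2 * log 3)

private theorem log3_lt : log (3 : ℝ) < 1.1 := by
  rw [Real.log_lt_iff_lt_exp (by norm_num)]
  have h1 : (1.1 : ℝ) = 1 + 0.1 := by norm_num
  rw [h1, Real.exp_add]
  have h2 := Real.exp_one_gt_d9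
  have h3 := Real.quadratic_le_exp_of_nonneg (x := 0.1) (by norm_num)
  norm_num at h2 h3
  nlinarith

private theorem log3_pos : 0 < log (3 : ℝ) := Real.log_pos (by norm_num)

theorem prod_ge {α : Type} (s : Finset α) (d : α → ℕ) (hd : ∀ x ∈ s, 1 ≤ d x) :
    (1 / 27 : ℝ) * (1 - ∑ x ∈ s, th (d x) - ((#s : ℝ) - 3) * log 3) ≤
      ∏ x ∈ s, (1 / (d x : ℝ)) := by
  have hpos : ∀ x ∈ s, (0 : ℝ) < d x := fun x hx => by
    have := hd x hx
    exact_mod_cast (by omega : 0 < d x)
  have hprod : 0 ≤ ∏ x ∈ s, (1 / (d x : ℝ)) :=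
    prod_nonneg fun x hx => (one_div_pos.2 (hpos x hx)).le
  by_cases hall : ∀ x ∈ s, th (d x) = log ((d x : ℝ) / 3)
  · have h1 : ∏ x ∈ s, (1 / (d x : ℝ)) =
        (1 / 27) * exp (-(∑ x ∈ s, th (d x)) - ((#s : ℝ) - 3) * log 3) := by
      have h2 : ∏ x ∈ s, (1 / (d x : ℝ)) = exp (∑ x ∈ s, (-(th (d x)) - log 3)) := by
        rw [exp_sum]
        refine prod_congr rfl fun x hx => ?_
        rw [hall x hx, Real.log_div (hpos x hx).ne' (by norm_num)]
        have h3 : -(log (d x : ℝ) - log 3) - log 3 = -log (d x : ℝ) := by ring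
        rw [h3, Real.exp_neg, Real.exp_log (hpos x hx), one_div]
      have h27 : (1 / 27 : ℝ) = exp (-(3 * log 3)) := by
        have h4 : (3 : ℝ) * log 3 = log (3 ^ 3) := by
          rw [Real.log_pow]
          norm_num
        rw [h4, Real.exp_neg, Real.exp_log (by norm_num)]
        norm_num
      rw [h2, h27, ← Real.exp_add]
      congr 1
      rw [sum_sub_distrib, sum_neg_distrib, sum_const, nsmul_eq_mul]
      ring
    rw [h1]
    refine mul_le_mul_of_nonneg_left ?_ (by norm_num)
    have h5 := Real.add_one_le_exp (-(∑ x ∈ s, th (d x)) - ((#s : ℝ) - 3) * log 3)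
    linarith
  · push Not at hall
    obtain ⟨x0, hx0, hne⟩ := hall
    have hth0 : th (d x0) = 1 + 2 * log 3 := by
      unfold th at hne ⊢
      rcases min_choice (log ((d x0 : ℝ) / 3)) (1 + 2 * log 3) with h | h
      · exact absurd h hne
      · exact h
    have hlow : ∀ x ∈ s, -log 3 ≤ th (d x) := by
      intro x hx
      unfold th
      refine le_min ?_ ?_
      · rw [Real.log_div (hpos x hx).ne' (by norm_num)]
        have h1 : (1 : ℝ) ≤ d x := by exact_mod_cast hd x hx
        have := Real.log_nonneg h1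
        linarith
      · have := log3_pos
        linarith
    have hsum : 1 + 2 * log 3 - ((#s : ℝ) - 1) * log 3 ≤ ∑ x ∈ s, th (d x) := by
      classical
      rw [← add_sum_erase s _ hx0, hth0]
      have h1 : ∑ x ∈ s.erase x0, (-log 3) ≤ ∑ x ∈ s.erase x0, th (d x) :=
        sum_le_sum fun x hx => hlow x (mem_of_mem_erase hx)
      rw [sum_const, nsmul_eq_mul, card_erase_of_mem hx0,
        Nat.cast_sub (card_pos.2 ⟨x0, hx0⟩)] at h1
      push_cast at h1
      linarith
    refine le_trans ?_ hprod
    have h2 : 1 - ∑ x ∈ s, th (d x) - ((#s : ℝ) - 3) * log 3 ≤ 0 := by linarith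
    linarith

private theorem h_nonneg {x : ℝ} (hx : 0 < x) (hx2 : x ≤ 9 * exp 1) :
    (9 + 2 * x) * log x ≤ 11 * (x - 1) := by
  have hlog3 := log3_lt
  set h : ℝ → ℝ := fun x => 11 * (x - 1) - (9 + 2 * x) * log x with hh
  have hderiv : ∀ y : ℝ, 0 < y → HasDerivAt h (9 - 2 * log y - 9 / y) y := by
    intro y hy
    have h1 : HasDerivAt (fun y : ℝ => 11 * (y - 1)) (11 * 1) y :=
      ((hasDerivAt_id y).sub_const 1).const_mul 11
    have h2 : HasDerivAt (fun y : ℝ => 9 + 2 * y) (2 * 1) y :=
      ((hasDerivAt_id y).const_mul 2).const_add 9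
    have h3 := h1.sub (h2.mul (Real.hasDerivAt_log hy.ne'))
    have h4 : 9 - 2 * log y - 9 / y = 11 * 1 - (2 * 1 * log y + (9 + 2 * y) * y⁻¹) := by
      have h5 : (9 + 2 * y) * y⁻¹ = 9 / y + 2 := by
        field_simp
      rw [h5]
      ring
    rw [h4]
    exact h3
  have hcont : ∀ y : ℝ, 0 < y → ContinuousAt h y := fun y hy => (hderiv y hy).continuousAt
  have h1 : h 1 = 0 := by simp [hh]
  have key : 0 ≤ h x := by
    rcases le_total x 1 with hx1 | hx1
    · have hanti : AntitoneOn h (Set.Icc x 1) := by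
        refine antitoneOn_of_deriv_nonpos (convex_Icc x 1) ?_ ?_ ?_
        · exact fun y hy => (hcont y (by linarith [hy.1])).continuousWithinAt
        · intro y hy
          rw [interior_Icc] at hy
          exact (hderiv y (by linarith [hy.1])).differentiableAt.differentiableWithinAt
        · intro y hy
          rw [interior_Icc] at hy
          have hy0 : 0 < y := by linarith [hy.1]
          rw [(hderiv y hy0).deriv]
          have h2 := Real.one_sub_inv_le_log_of_pos hy0
          have h3 : 1 ≤ y⁻¹ := (one_le_inv₀ hy0).2 hy.2.le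
          rw [div_eq_mul_inv]
          linarith
      have := hanti (Set.left_mem_Icc.2 hx1) (Set.right_mem_Icc.2 hx1) hx1
      rwa [h1] at this
    · have hmono : MonotoneOn h (Set.Icc 1 x) := by
        refine monotoneOn_of_deriv_nonneg (convex_Icc 1 x) ?_ ?_ ?_
        · exact fun y hy => (hcont y (by linarith [hy.1])).continuousWithinAt
        · intro y hy
          rw [interior_Icc] at hy
          exact (hderiv y (by linarith [hy.1])).differentiableAt.differentiableWithinAt
        · intro y hy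
          rw [interior_Icc] at hy
          have hy0 : 0 < y := by linarith [hy.1]
          rw [(hderiv y hy0).deriv]
          rcases le_total y (9 / 2) with h2 | h2
          · have h3 := Real.log_le_sub_one_of_pos hy0
            have h4 : 0 ≤ (y - 1) * (9 / y - 2) := by
              refine mul_nonneg (by linarith [hy.1]) ?_
              rw [sub_nonneg, le_div_iff₀ hy0]
              linarith
            have h5 : (y - 1) * (9 / y - 2) = 9 - 9 / y - 2 * (y - 1) := by
              field_simp
            linarith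
          · have h3 : log y ≤ 1 + 2 * log 3 := by
              have h4 : log y ≤ log (9 * exp 1) := Real.log_le_log hy0 (by linarith [hy.2])
              rw [Real.log_mul (by norm_num) (Real.exp_pos 1).ne', Real.log_exp] at h4
              have h5 : (9 : ℝ) = 3 ^ 2 := by norm_num
              rw [h5, Real.log_pow] at h4
              push_cast at h4
              linarith
            have h4 : 9 / y ≤ 2 := by
              rw [div_le_iff₀ hy0]
              linarith
            norm_num at hlog3
            linarith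
      have := hmono (Set.left_mem_Icc.2 hx1) (Set.right_mem_Icc.2 hx1) hx1
      rwa [h1] at this
  simp only [hh] at key
  linarith

theorem g_le (d : ℕ) (hd : 1 ≤ d) :
    (1 / 3 : ℝ) * log ((d : ℝ) / 3) + (2 / 81) * (((d : ℝ) - 3) * log 3 + d * th d) ≤
      (1 / 9 + (2 / 81) * (1 + log 3)) * ((d : ℝ) - 3) := by
  have hlog3 := log3_lt
  norm_num at hlog3
  have hlog3' := log3_pos
  obtain ⟨x, hx⟩ : ∃ x : ℝ, x = (d : ℝ) / 3 := ⟨_, rfl⟩
  have hd' : (d : ℝ) = 3 * x := by
    rw [hx]
    ring
  have hx0 : 0 < x := by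
    rw [hx]
    have : (1 : ℝ) ≤ d := by exact_mod_cast hd
    positivity
  have hth : th d = min (log x) (1 + 2 * log 3) := by
    unfold th
    rw [← hx]
  have key : 9 * log x + 2 * x * th d ≤ 11 * (x - 1) := by
    rcases le_total x (9 * exp 1) with h | h
    · have h1 : th d ≤ log x := by
        rw [hth]
        exact min_le_left _ _
      have h2 := h_nonneg hx0 h
      have h3 : x * th d ≤ x * log x := mul_le_mul_of_nonneg_left h1 hx0.le
      linarith
    · have h1 : th d ≤ 1 + 2 * log 3 := by
        rw [hth]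
        exact min_le_right _ _
      have he := Real.exp_one_gt_d9
      have hE : (0 : ℝ) < 9 * exp 1 := by positivity
      have h9 : log (9 * exp 1) = 1 + 2 * log 3 := by
        rw [Real.log_mul (by norm_num) (Real.exp_pos 1).ne', Real.log_exp]
        have h5 : (9 : ℝ) = 3 ^ 2 := by norm_num
        rw [h5, Real.log_pow]
        push_cast
        ring
      have h2 : log x ≤ 2 * log 3 + x / (9 * exp 1) := by
        have h3 := Real.log_le_sub_one_of_pos (div_pos hx0 hE)
        rw [Real.log_div hx0.ne' hE.ne', h9] at h3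
        linarith
      have h4 : x / (9 * exp 1) ≤ x / 24 := by
        refine div_le_div_of_nonneg_left hx0.le (by norm_num) ?_
        norm_num at he
        linarith
      have h5 : x * th d ≤ x * (1 + 2 * log 3) := mul_le_mul_of_nonneg_left h1 hx0.le
      have h6 : 24 < x := by
        norm_num at he
        linarith
      nlinarith
  rw [← hx, hd']
  nlinarith

end Pool.Agent.TS
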