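import Mathlib

/-!
# TS-23 (RnInt).  The growth rate and the integral

PROOF of `sum_log_ge`.  `f s = log (2 cos (π s / (3 n)))` is antitone on `[0, n]` and `f s ≥ 0` there; so
`∑_{j=1}^{n-1} f j ≥ ∫_1^n f` (`AntitoneOn.integral_le_sum` or termwise), and `∫_0^1 f ≤ f 0 = log 2`.
Substitution `s = 3 n x / π`: `∫_0^n f = (3 n / π) ∫_0^{π/3} log (2 cos x) dx`
(`intervalIntegral.integral_comp_mul_deriv` / `integral_comp_div`).
PROOF of `num_low`.  `g x = log (2 cos x)` is concave on `[0, π/3]` (`strictConcaveOn_log` composed with the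
concave `cos`, or the second derivative `-1/cos²`), so on each of the four intervals
`[k π/12, (k+1) π/12]` the integral is at least the trapezoid `(π/24) (g (k π/12) + g ((k+1) π/12))`.  The sum is
`(π/24) (g 0 + 2 g (π/12) + 2 g (π/6) + 2 g (π/4) + g (π/3)) = (π/24) log (2 * (2 + √3) * 3 * 2 * 1)`
(`(2 cos (π/12))² = 2 + √3`), so `(2/π) ∫ ≥ (1/12) log (24 + 12 √3) ≥ (1/12) log 44.78` and
`1.37 ^ 12 < 43.8 < 44.78`.
-/

set_option autoImplicit false

open Finset Real

namespace Pool.Agent.TS

/-- the integral `∫_0^{π/3} log (2 cos x) dx` -/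
noncomputable def II : ℝ := ∫ x in (0 : ℝ)..(π / 3), log (2 * cos x)

private theorem half_le_cos {x : ℝ} (h0 : 0 ≤ x) (h1 : x ≤ π / 3) : 1 / 2 ≤ cos x := by
  have hpi := Real.pi_pos
  rw [← Real.cos_pi_div_three]
  exact Real.cos_le_cos_of_nonneg_of_le_pi h0 (by linarith) h1

private theorem ang {n : ℕ} (hn : 0 < n) {s : ℝ} (h0 : 0 ≤ s) (h1 : s ≤ n) :
    0 ≤ s / (3 * n / π) ∧ s / (3 * n / π) ≤ π / 3 := by
  have hpi := Real.pi_pos
  have hn' : (0 : ℝ) < n := by exact_mod_cast hn
  constructor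
  · positivity
  · rw [div_le_iff₀ (by positivity)]
    have h2 : π / 3 * (3 * n / π) = n := by field_simp
    rw [h2]
    exact h1

theorem sum_log_ge {n : ℕ} (hn : 0 < n) : 3 * (n : ℝ) / π * II - log 2 ≤
    ∑ j ∈ range (n - 1), log (2 * cos (π * ((j : ℝ) + 1) / (3 * n))) := by
  have hpi := Real.pi_pos
  have hn' : (0 : ℝ) < n := by exact_mod_cast hn
  have hc : (0 : ℝ) < 3 * n / π := by positivity
  have hanti : AntitoneOn (fun s : ℝ => log (2 * cos (s / (3 * n / π)))) (Set.Icc 0 (0 + n)) := by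
    rintro s ⟨hs0, hs1⟩ t ⟨ht0, ht1⟩ hst
    rw [zero_add] at hs1 ht1
    obtain ⟨a1, a2⟩ := ang hn hs0 hs1
    obtain ⟨b1, b2⟩ := ang hn ht0 ht1
    have h1 := half_le_cos b1 b2
    have h2 : s / (3 * n / π) ≤ t / (3 * n / π) := div_le_div_of_nonneg_right hst hc.le
    have h3 : cos (t / (3 * n / π)) ≤ cos (s / (3 * n / π)) :=
      Real.cos_le_cos_of_nonneg_of_le_pi a1 (by linarith) h2
    exact Real.log_le_log (by linarith) (by linarith)
  have h1 := hanti.integral_le_sum
  rw [zero_add] at h1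
  rw [intervalIntegral.integral_comp_div (fun x => log (2 * cos x)) hc.ne'] at h1
  have h2 : (n : ℝ) / (3 * n / π) = π / 3 := by field_simp
  rw [h2, zero_div, smul_eq_mul] at h1
  have h3 : ∑ i ∈ range n, log (2 * cos ((0 + (i : ℝ)) / (3 * n / π))) =
      log 2 + ∑ j ∈ range (n - 1), log (2 * cos (π * ((j : ℝ) + 1) / (3 * n))) := by
    obtain ⟨m, rfl⟩ : ∃ m, n = m + 1 := ⟨n - 1, by omega⟩
    rw [sum_range_succ']
    rw [add_comm, Nat.add_sub_cancel]
    congr 1
    · simp
    · refine sum_congr rfl fun j _ => ?_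
      congr 3
      push_cast
      field_simp
      ring
  rw [h3] at h1
  unfold II
  linarith

private theorem conc : ConcaveOn ℝ (Set.Icc 0 (π / 3)) (fun x => log (2 * cos x)) := by
  have hpi := Real.pi_pos
  refine ⟨convex_Icc _ _, ?_⟩
  intro x hx y hy a b ha hb hab
  have hcc := strictConcaveOn_cos_Icc.concaveOn
  have hx' : x ∈ Set.Icc (-(π / 2)) (π / 2) := ⟨by linarith [hx.1], by linarith [hx.2]⟩
  have hy' : y ∈ Set.Icc (-(π / 2)) (π / 2) := ⟨by linarith [hy.1], by linarith [hy.2]⟩
  have h1 := hcc.2 hx' hy' ha hb hab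
  have hcx := half_le_cos hx.1 hx.2
  have hcy := half_le_cos hy.1 hy.2
  have hlc := strictConcaveOn_log_Ioi.concaveOn
  have h2 := hlc.2 (show 2 * cos x ∈ Set.Ioi (0 : ℝ) from (by
    rw [Set.mem_Ioi]
    linarith)) (show 2 * cos y ∈ Set.Ioi (0 : ℝ) from (by
    rw [Set.mem_Ioi]
    linarith)) ha hb hab
  simp only [smul_eq_mul] at h1 h2 ⊢
  refine h2.trans (Real.log_le_log ?_ ?_)
  · have e1 : a * 1 ≤ a * (2 * cos x) := mul_le_mul_of_nonneg_left (by linarith) ha
    have e2 : b * 1 ≤ b * (2 * cos y) := mul_le_mul_of_nonneg_left (by linarith) hb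
    linarith
  · linarith

private theorem cont_g : ContinuousOn (fun x => log (2 * cos x)) (Set.Icc 0 (π / 3)) := by
  refine ContinuousOn.log (by fun_prop) fun x hx => ?_
  have := half_le_cos hx.1 hx.2
  linarith

private theorem int_g {a b : ℝ} (h0 : 0 ≤ a) (hab : a ≤ b) (h1 : b ≤ π / 3) :
    IntervalIntegrable (fun x => log (2 * cos x)) MeasureTheory.volume a b := by
  refine (cont_g.mono ?_).intervalIntegrable
  rw [Set.uIcc_of_le hab]
  exact Set.Icc_subset_Icc h0 h1

private theorem trap {a b : ℝ} (h0 : 0 ≤ a) (hab : a < b) (h1 : b ≤ π / 3) :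
    (b - a) / 2 * (log (2 * cos a) + log (2 * cos b)) ≤ ∫ x in a..b, log (2 * cos x) := by
  set A := log (2 * cos a) with hA
  set B := log (2 * cos b) with hB
  have hba : 0 < b - a := by linarith
  have hlin : ∫ x in a..b, (A + (x - a) / (b - a) * (B - A)) = (b - a) / 2 * (A + B) := by
    have hd : ∀ x ∈ Set.uIcc a b, HasDerivAt
        (fun x => A * x + (x - a) ^ 2 / (2 * (b - a)) * (B - A))
        (A + (x - a) / (b - a) * (B - A)) x := by
      intro x _
      have e1 : HasDerivAt (fun x : ℝ => A * x) (A * 1) x := (hasDerivAt_id x).const_mul A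
      have e2 : HasDerivAt (fun x : ℝ => (x - a) ^ 2) ((2 : ℕ) * (x - a) ^ (2 - 1) * 1) x :=
        ((hasDerivAt_id x).sub_const a).pow 2
      have e3 := e1.add ((e2.div_const (2 * (b - a))).mul_const (B - A))
      have e4 : A + (x - a) / (b - a) * (B - A) =
          A * 1 + ((2 : ℕ) * (x - a) ^ (2 - 1) * 1) / (2 * (b - a)) * (B - A) := by
        push_cast
        field_simp
      rw [e4]
      exact e3
    rw [intervalIntegral.integral_eq_sub_of_hasDerivAt hd
      (Continuous.intervalIntegrable (by fun_prop) _ _)]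
    field_simp
    ring
  rw [← hlin]
  refine intervalIntegral.integral_mono_on hab.le
    (Continuous.intervalIntegrable (by fun_prop) _ _) (int_g h0 hab.le h1) ?_
  intro x hx
  have ha' : a ∈ Set.Icc 0 (π / 3) := ⟨h0, by linarith⟩
  have hb' : b ∈ Set.Icc 0 (π / 3) := ⟨by linarith, h1⟩
  have h2 := conc.2 ha' hb' (show 0 ≤ (b - x) / (b - a) from
    div_nonneg (by linarith [hx.2]) hba.le) (show 0 ≤ (x - a) / (b - a) from
    div_nonneg (by linarith [hx.1]) hba.le) (by
      rw [← add_div]
      rw [div_eq_one_iff_eq hba.ne']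
      ring)
  simp only [smul_eq_mul] at h2
  have h3 : (b - x) / (b - a) * a + (x - a) / (b - a) * b = x := by
    field_simp
    ring
  rw [h3, ← hA, ← hB] at h2
  have h4 : A + (x - a) / (b - a) * (B - A) =
      (b - x) / (b - a) * A + (x - a) / (b - a) * B := by
    field_simp
    ring
  rw [h4]
  exact h2

private theorem II_ge : π / 24 * log (24 + 12 * √3) ≤ II := by
  have hpi := Real.pi_pos
  have t0 := trap (a := 0) (b := π / 12) le_rfl (by positivity) (by linarith)
  have t1 := trap (a := π / 12) (b := π / 6) (by positivity) (by linarith) (by linarith)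
  have t2 := trap (a := π / 6) (b := π / 4) (by positivity) (by linarith) (by linarith)
  have t3 := trap (a := π / 4) (b := π / 3) (by positivity) (by linarith) (by linarith)
  have i0 := int_g (a := 0) (b := π / 12) le_rfl (by positivity) (by linarith)
  have i1 := int_g (a := π / 12) (b := π / 6) (by positivity) (by linarith) (by linarith)
  have i2 := int_g (a := π / 6) (b := π / 4) (by positivity) (by linarith) (by linarith)
  have i3 := int_g (a := π / 4) (b := π / 3) (by positivity) (by linarith) (by linarith)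
  have hsplit : II = (∫ x in (0 : ℝ)..(π / 12), log (2 * cos x)) +
      (∫ x in (π / 12)..(π / 6), log (2 * cos x)) +
      (∫ x in (π / 6)..(π / 4), log (2 * cos x)) +
      (∫ x in (π / 4)..(π / 3), log (2 * cos x)) := by
    unfold II
    rw [intervalIntegral.integral_add_adjacent_intervals i0 i1,
      intervalIntegral.integral_add_adjacent_intervals (i0.trans i1) i2,
      intervalIntegral.integral_add_adjacent_intervals ((i0.trans i1).trans i2) i3]
  have c0 : log (2 * cos 0) = log 2 := by simp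
  have c4 : log (2 * cos (π / 3)) = 0 := by
    rw [Real.cos_pi_div_three]
    norm_num
  have c3 : 2 * log (2 * cos (π / 4)) = log 2 := by
    rw [Real.cos_pi_div_four]
    have h1 : (2 : ℝ) * (√2 / 2) = √2 := by ring
    rw [h1, Real.log_sqrt (by norm_num)]
    ring
  have c2 : 2 * log (2 * cos (π / 6)) = log 3 := by
    rw [Real.cos_pi_div_six]
    have h1 : (2 : ℝ) * (√3 / 2) = √3 := by ring
    rw [h1, Real.log_sqrt (by norm_num)]
    ring
  have c1 : 2 * log (2 * cos (π / 12)) = log (2 + √3) := by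
    have h1 : (2 : ℝ) * log (2 * cos (π / 12)) = log ((2 * cos (π / 12)) ^ 2) := by
      rw [Real.log_pow]
      norm_num
    rw [h1, mul_pow, Real.cos_sq]
    have h2 : 2 * (π / 12) = π / 6 := by ring
    rw [h2, Real.cos_pi_div_six]
    congr 1
    ring
  have hlog : log (24 + 12 * √3) = log 2 + log (2 + √3) + log 3 + log 2 := by
    have hs : (0 : ℝ) < 2 + √3 := by positivity
    rw [← Real.log_mul (by norm_num) hs.ne', ← Real.log_mul (by positivity) (by norm_num),
      ← Real.log_mul (by positivity) (by norm_num)]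
    congr 1
    ring
  rw [hsplit, hlog]
  rw [c0] at t0
  rw [c4] at t3
  nlinarith [t0, t1, t2, t3, c1, c2, c3]

theorem num_low : (1.37 : ℝ) < exp (2 / π * II) := by
  have hpi := Real.pi_pos
  rw [← Real.log_lt_iff_lt_exp (by norm_num)]
  have h1 := II_ge
  have h2 : 2 / π * (π / 24 * log (24 + 12 * √3)) ≤ 2 / π * II :=
    mul_le_mul_of_nonneg_left h1 (by positivity)
  have h3 : 2 / π * (π / 24 * log (24 + 12 * √3)) = (1 / 12) * log (24 + 12 * √3) := by
    field_simp
    norm_num
  have h4 : (1.732 : ℝ) < √3 := by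
    rw [Real.lt_sqrt (by norm_num)]
    norm_num
  have h5 : 12 * log (1.37 : ℝ) < log (24 + 12 * √3) := by
    have h6 : 12 * log (1.37 : ℝ) = log ((1.37 : ℝ) ^ 12) := by
      rw [Real.log_pow]
      norm_num
    rw [h6]
    refine Real.log_lt_log (by norm_num) ?_
    norm_num at h4 ⊢
    linarith
  linarith

theorem num_high : (3 : ℝ) ^ (1 / 3 : ℝ) * exp (-2 / 81) < 1.4072 := by
  set y : ℝ := (3 : ℝ) ^ (1 / 3 : ℝ) * exp (-2 / 81) with hy
  have hy0 : 0 ≤ y := by positivity
  have hy3 : y ^ 3 = 3 * exp (-2 / 27) := by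
    rw [hy, mul_pow, ← Real.rpow_natCast, ← Real.rpow_mul (by norm_num), ← Real.exp_nat_mul]
    norm_num
  by_contra hcon
  push Not at hcon
  have h1 : (1.4072 : ℝ) ^ 3 ≤ y ^ 3 := pow_le_pow_left₀ (by norm_num) hcon 3
  rw [hy3] at h1
  have h2 := Real.quadratic_le_exp_of_nonneg (x := 2 / 27) (by norm_num)
  have h3 : exp (-2 / 27) * exp (2 / 27) = 1 := by
    rw [← Real.exp_add]
    norm_num
  have h4 := Real.exp_pos (-2 / 27)
  norm_num at h1 h2
  nlinarith

end Pool.Agent.TS
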