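import Pool.Agent.helper31.TS.ColB
import Pool.Agent.helper31.TS.ClassB
import Pool.Agent.helper31.TS.Ineq

/-!
# TS-15 (Upper).  The upper bound for the order of the torsion subgroup
-/

set_option autoImplicit false

open Finset

namespace Pool.Agent.TS

variable {E V : Type} [Fintype E] [Fintype V] [DecidableEq V]

private theorem sum_w_ge (T : Tri E V) (q : Equiv.Perm E) :
    (1 / 27 : ℝ) * ∑ v, (1 - (T.deg v : ℝ) * th (T.deg v) - ((T.deg v : ℝ) - 3) * Real.log 3) ≤
      ∑ v, ∏ f with T.tail f = v, (1 / (T.deg (T.tail (q f)) : ℝ)) := by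
  have h1 : ∀ v, (1 / 27 : ℝ) * (1 - ∑ f with T.tail f = v, th (T.deg (T.tail (q f))) -
      ((T.deg v : ℝ) - 3) * Real.log 3) ≤
      ∏ f with T.tail f = v, (1 / (T.deg (T.tail (q f)) : ℝ)) := by
    intro v
    exact prod_ge ({f | T.tail f = v} : Finset E) (fun f => T.deg (T.tail (q f)))
      (fun f _ => T.deg_pos _)
  refine le_trans ?_ (sum_le_sum fun v _ => h1 v)
  rw [← mul_sum]
  apply le_of_eq
  congr 1
  rw [sum_sub_distrib, sum_sub_distrib, sum_sub_distrib, sum_sub_distrib]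
  congr 1
  congr 1
  rw [T.sum_fiber (fun f => th (T.deg (T.tail (q f)))),
    Equiv.sum_comp q (fun f => th (T.deg (T.tail f))), ← T.sum_fiber]
  apply sum_congr rfl
  intro v _
  rw [sum_congr rfl (g := fun _ => th (T.deg v))]
  · rw [sum_const, nsmul_eq_mul]
    rfl
  · intro f hf
    rw [(mem_filter.1 hf).2]

theorem Tri.order_le (T : Tri E V) {t : ℕ} (hE : Fintype.card E = 3 * t)
    (hV : Fintype.card V = t + 2) :
    (T.order : ℝ) ≤ 6 * ((3 : ℝ) ^ (1 / 3 : ℝ) * Real.exp (-2 / 81)) ^ t := by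
  obtain ⟨c, hc0⟩ := T.exists_col hE hV
  have hc : T.IsCol c := hc0
  have hne : Nonempty V := Fintype.card_pos_iff.1 (by omega)
  have h1 := T.order_cube hc
  have h2 := sum_w_ge T T.a
  have h3 := sum_w_ge T T.a⁻¹
  have hl3 : 0 < Real.log 3 := Real.log_pos (by norm_num)
  have h4 : ∑ v, (Real.log (T.deg v) - T.w1 v - T.w2 v) ≤
      3 * ((t : ℝ) + 2) * (Real.log 3 / 3 - 2 / 81) -
        18 * (1 / 9 + (2 / 81) * (1 + Real.log 3)) := by
    have h5 : ∑ v, (Real.log (T.deg v) - T.w1 v - T.w2 v) ≤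
        ∑ v, (Real.log (T.deg v) - (2 / 27) *
          (1 - (T.deg v : ℝ) * th (T.deg v) - ((T.deg v : ℝ) - 3) * Real.log 3)) := by
      rw [sum_sub_distrib, sum_sub_distrib, sum_sub_distrib, ← mul_sum]
      have h6 : ∑ v, T.w1 v = ∑ v, ∏ f with T.tail f = v, (1 / (T.deg (T.tail (T.a f)) : ℝ)) := rfl
      have h7 : ∑ v, T.w2 v = ∑ v, ∏ f with T.tail f = v, (1 / (T.deg (T.tail (T.a⁻¹ f)) : ℝ)) :=
        rfl
      rw [h6, h7]
      linarith
    refine h5.trans ?_
    have h8 : ∀ v, Real.log (T.deg v) - (2 / 27) *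
        (1 - (T.deg v : ℝ) * th (T.deg v) - ((T.deg v : ℝ) - 3) * Real.log 3) ≤
        3 * (Real.log 3 / 3 - 2 / 81) +
          3 * (1 / 9 + (2 / 81) * (1 + Real.log 3)) * ((T.deg v : ℝ) - 3) := by
      intro v
      have h9 := g_le (T.deg v) (T.deg_pos v)
      have hd : (0 : ℝ) < T.deg v := by exact_mod_cast T.deg_pos v
      rw [Real.log_div hd.ne' (by norm_num)] at h9
      linarith
    refine (sum_le_sum fun v _ => h8 v).trans ?_
    rw [sum_add_distrib, sum_const, ← mul_sum, sum_sub_distrib, sum_const]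
    have h10 : ∑ v, (T.deg v : ℝ) = 3 * t := by
      have h11 := T.sum_deg
      rw [hE] at h11
      exact_mod_cast h11
    rw [h10, card_univ, hV, nsmul_eq_mul, nsmul_eq_mul]
    push_cast
    apply le_of_eq
    ring
  have h5 : (T.order : ℝ) ^ 3 ≤ (Real.exp (((t : ℝ) + 2) * (Real.log 3 / 3 - 2 / 81) -
      6 * (1 / 9 + (2 / 81) * (1 + Real.log 3)) + 2)) ^ 3 := by
    rw [← Real.exp_nat_mul]
    refine h1.trans (Real.exp_le_exp.2 ?_)
    push_cast
    linarith
  have h6 := (pow_le_pow_iff_left₀ (Nat.cast_nonneg _) (Real.exp_pos _).le (by norm_num)).1 h5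
  refine h6.trans ?_
  have h7 : (3 : ℝ) ^ (1 / 3 : ℝ) = Real.exp (Real.log 3 / 3) := by
    rw [Real.rpow_def_of_pos (by norm_num)]
    congr 1
    ring
  have h8 : (6 : ℝ) = Real.exp (Real.log 2 + Real.log 3) := by
    rw [Real.exp_add, Real.exp_log (by norm_num), Real.exp_log (by norm_num)]
    norm_num
  conv_rhs => rw [h7, h8, ← Real.exp_add, ← Real.exp_nat_mul, ← Real.exp_add]
  rw [Real.exp_le_exp]
  have h9 : (1 : ℝ) < Real.log 3 := by
    rw [Real.lt_log_iff_exp_lt (by norm_num)]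
    exact Real.exp_one_lt_d9.trans (by norm_num)
  have h10 := Real.log_two_gt_d9
  linarith

end Pool.Agent.TS
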