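import Pool.Agent.helper31.TS.FamDet
import Pool.Agent.helper31.TS.RnInt
import Pool.Agent.helper31.TS.Upper

/-!
# TS-24 (Lim).  The limit superior
-/

set_option autoImplicit false

open Finset Filter

namespace Pool.Agent.TS

theorem mt_le (t : ℕ) : (mt t : ℝ) ≤ 6 * ((3 : ℝ) ^ (1 / 3 : ℝ) * Real.exp (-2 / 81)) ^ t := by
  have hT : ∀ T : Tri (Fin (3 * t)) (Fin (t + 2)),
      (T.order : ℝ) ≤ 6 * ((3 : ℝ) ^ (1 / 3 : ℝ) * Real.exp (-2 / 81)) ^ t :=
    fun T => T.order_le (Fintype.card_fin _) (Fintype.card_fin _)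
  unfold mt
  rcases Set.eq_empty_or_nonempty
    (Set.range fun T : Tri (Fin (3 * t)) (Fin (t + 2)) => T.order) with h | h
  · rw [h, csSup_empty]
    simp only [bot_eq_zero', Nat.cast_zero]
    positivity
  · have hb : BddAbove (Set.range fun T : Tri (Fin (3 * t)) (Fin (t + 2)) => T.order) := by
      refine ⟨⌊6 * ((3 : ℝ) ^ (1 / 3 : ℝ) * Real.exp (-2 / 81)) ^ t⌋₊, ?_⟩
      rintro _ ⟨T, rfl⟩
      exact Nat.le_floor (hT T)
    obtain ⟨T, hT'⟩ := Nat.sSup_mem h hb
    rw [← hT']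
    exact hT T

private theorem six_lim : Tendsto (fun t : ℕ => (6 : ℝ) ^ (1 / (t : ℝ)) *
    ((3 : ℝ) ^ (1 / 3 : ℝ) * Real.exp (-2 / 81))) atTop
    (nhds ((3 : ℝ) ^ (1 / 3 : ℝ) * Real.exp (-2 / 81))) := by
  have h1 : Tendsto (fun t : ℕ => (6 : ℝ) ^ (1 / (t : ℝ))) atTop (nhds 1) := by
    have h2 : Tendsto (fun t : ℕ => 1 / (t : ℝ)) atTop (nhds 0) :=
      tendsto_one_div_atTop_nhds_zero_nat
    have h3 := (Real.continuousAt_const_rpow (a := 6) (b := 0) (by norm_num)).tendsto.comp h2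
    rw [Real.rpow_zero] at h3
    exact h3
  have h4 := h1.mul_const ((3 : ℝ) ^ (1 / 3 : ℝ) * Real.exp (-2 / 81))
  rw [one_mul] at h4
  exact h4

private theorem root_le {t : ℕ} (ht : t ≠ 0) : (mt t : ℝ) ^ (1 / (t : ℝ)) ≤
    (6 : ℝ) ^ (1 / (t : ℝ)) * ((3 : ℝ) ^ (1 / 3 : ℝ) * Real.exp (-2 / 81)) := by
  have h1 := Real.rpow_le_rpow (Nat.cast_nonneg _) (mt_le t)
    (show (0 : ℝ) ≤ 1 / (t : ℝ) by positivity)
  refine h1.trans (le_of_eq ?_)
  rw [Real.mul_rpow (by norm_num) (by positivity), one_div,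
    Real.pow_rpow_inv_natCast (by positivity) ht]

private theorem ev_root_le : (fun t : ℕ => (mt t : ℝ) ^ (1 / (t : ℝ))) ≤ᶠ[atTop]
    (fun t : ℕ => (6 : ℝ) ^ (1 / (t : ℝ)) * ((3 : ℝ) ^ (1 / 3 : ℝ) * Real.exp (-2 / 81))) := by
  filter_upwards [eventually_ne_atTop 0] with t ht
  exact root_le ht

private theorem bdd : IsBoundedUnder (· ≤ ·) atTop (fun t : ℕ => (mt t : ℝ) ^ (1 / (t : ℝ))) :=
  (six_lim.isBoundedUnder_le).mono_le ev_root_le

theorem LL_le : LL ≤ (3 : ℝ) ^ (1 / 3 : ℝ) * Real.exp (-2 / 81) := by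
  rw [← six_lim.limsup_eq]
  unfold LL
  refine limsup_le_limsup ev_root_le ?_ six_lim.isBoundedUnder_le
  exact isCoboundedUnder_le_of_le (x := 0) atTop fun t => by positivity

theorem Rn_le_LL {n : ℕ} (hn : Odd n) : Rn n ^ (1 / (3 * (n : ℝ))) ≤ LL := by
  obtain ⟨κ, hκ, hev⟩ := mt_ge hn
  have hn0 : 0 < n := hn.pos
  have hn0' : (0 : ℝ) < n := by exact_mod_cast hn0
  have hR := Rn_pos hn0
  set L := Real.log (Rn n) with hL
  have hlim : Tendsto (fun k : ℕ => Real.exp ((Real.log κ + (3 * (k : ℝ) + 1) * L) /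
      (3 * n * (3 * (k : ℝ) + 2)))) atTop (nhds (Rn n ^ (1 / (3 * (n : ℝ))))) := by
    have h1 : Rn n ^ (1 / (3 * (n : ℝ))) = Real.exp (0 + L / (3 * n)) := by
      rw [Real.rpow_def_of_pos hR]
      congr 1
      rw [hL]
      ring
    rw [h1]
    refine (Real.continuous_exp.tendsto _).comp ?_
    have h2 : (fun k : ℕ => (Real.log κ + (3 * (k : ℝ) + 1) * L) /
        (3 * n * (3 * (k : ℝ) + 2))) =
        fun k : ℕ => (Real.log κ - L) / (3 * n * (3 * (k : ℝ) + 2)) + L / (3 * n) := by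
      funext k
      have h3 : (3 * (k : ℝ) + 2) ≠ 0 := by positivity
      field_simp
      ring
    rw [h2]
    refine Tendsto.add ?_ tendsto_const_nhds
    refine Tendsto.const_div_atTop ?_ _
    refine Tendsto.const_mul_atTop (by positivity) ?_
    refine tendsto_atTop_add_const_right _ _ ?_
    exact Tendsto.const_mul_atTop (by norm_num) tendsto_natCast_atTop_atTop
  refine le_of_forall_lt fun x hx => ?_
  obtain ⟨y, hxy, hy⟩ := exists_between hx
  refine lt_of_lt_of_le hxy ?_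
  unfold LL
  refine le_limsup_of_frequently_le ?_ bdd
  have hH : Tendsto (fun k : ℕ => 3 * k + 1) atTop atTop :=
    tendsto_atTop_mono (fun k => by simp only [id]; omega) tendsto_id
  have ht : Tendsto (fun k : ℕ => 3 * n * ((3 * k + 1) + 1)) atTop atTop :=
    tendsto_atTop_mono (fun k => by
      have h7 : 1 * (3 * k + 1) ≤ 3 * n * ((3 * k + 1) + 1) :=
        Nat.mul_le_mul (by omega) (by omega)
      omega) hH
  refine ht.frequently (Eventually.frequently ?_)
  filter_upwards [hlim.eventually (eventually_gt_nhds hy), hH.eventually hev] with k hk1 hk2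
  refine hk1.le.trans ?_
  have h3 := hk2 (by omega)
  have ht0 : (0 : ℝ) < ((3 * n * ((3 * k + 1) + 1) : ℕ) : ℝ) := by positivity
  have h4 := Real.rpow_le_rpow (by positivity) h3
    (show (0 : ℝ) ≤ 1 / (((3 * n * ((3 * k + 1) + 1) : ℕ) : ℝ)) by positivity)
  refine le_trans (le_of_eq ?_) h4
  rw [Real.rpow_def_of_pos (by positivity), Real.log_mul hκ.ne' (by positivity), Real.log_pow]
  congr 1
  push_cast
  rw [← hL]
  have h5 : (3 * (k : ℝ) + 2) ≠ 0 := by positivity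
  have h6 : (3 * (k : ℝ) + 1 + 1) = 3 * (k : ℝ) + 2 := by ring
  rw [h6]
  field_simp

theorem exp_le_LL : Real.exp (2 / Real.pi * II) ≤ LL := by
  have h1 : ∀ m : ℕ, Real.exp (2 / Real.pi * II - Real.log 2 / (3 * (2 * (m : ℝ) + 1))) ≤ LL := by
    intro m
    have hodd : Odd (2 * m + 1) := ⟨m, rfl⟩
    refine le_trans ?_ (Rn_le_LL hodd)
    have hpos : 0 < 2 * m + 1 := by omega
    rw [Real.rpow_def_of_pos (Rn_pos hpos), Real.exp_le_exp]
    have h2 := sum_log_ge hpos
    have h3 : Real.log (Rn (2 * m + 1)) = Real.log 2 + 2 * ∑ j ∈ range (2 * m + 1 - 1),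
        Real.log (2 * Real.cos (Real.pi * ((j : ℝ) + 1) / (3 * ((2 * m + 1 : ℕ) : ℝ)))) := by
      have hc : ∀ j ∈ range (2 * m + 1 - 1),
          0 < 2 * Real.cos (Real.pi * ((j : ℝ) + 1) / (3 * ((2 * m + 1 : ℕ) : ℝ))) := by
        intro j hj
        have hj' : (j : ℝ) + 1 ≤ ((2 * m + 1 : ℕ) : ℝ) := by
          have := mem_range.1 hj
          exact_mod_cast (by omega : j + 1 ≤ 2 * m + 1)
        have hp := Real.pi_pos
        have hm : (0 : ℝ) < ((2 * m + 1 : ℕ) : ℝ) := by positivity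
        refine mul_pos two_pos (Real.cos_pos_of_mem_Ioo ⟨?_, ?_⟩)
        · have : 0 < Real.pi * ((j : ℝ) + 1) / (3 * ((2 * m + 1 : ℕ) : ℝ)) := by positivity
          linarith
        · rw [div_lt_div_iff₀ (by positivity) two_pos]
          nlinarith
      unfold Rn
      rw [Real.log_mul two_ne_zero (prod_pos fun j hj => pow_pos (hc j hj) 2).ne',
        Real.log_prod fun j hj => (pow_pos (hc j hj) 2).ne', mul_sum]
      congr 1
      apply sum_congr rfl
      intro j _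
      rw [Real.log_pow]
      push_cast
      rfl
    rw [h3]
    have hp := Real.pi_pos
    have hm : (0 : ℝ) < ((2 * m + 1 : ℕ) : ℝ) := by positivity
    have hm' : (2 * (m : ℝ) + 1) = ((2 * m + 1 : ℕ) : ℝ) := by push_cast; ring
    rw [hm']
    rw [mul_one_div, le_div_iff₀ (by positivity)]
    have h4 : (2 / Real.pi * II - Real.log 2 / (3 * ((2 * m + 1 : ℕ) : ℝ))) *
        (3 * ((2 * m + 1 : ℕ) : ℝ)) =
        2 * (3 * ((2 * m + 1 : ℕ) : ℝ) / Real.pi * II - Real.log 2) + Real.log 2 := by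
      field_simp
      ring
    rw [h4]
    linarith
  have h2 : Tendsto (fun m : ℕ => Real.exp (2 / Real.pi * II -
      Real.log 2 / (3 * (2 * (m : ℝ) + 1)))) atTop (nhds (Real.exp (2 / Real.pi * II - 0))) := by
    refine (Real.continuous_exp.tendsto _).comp ?_
    refine Tendsto.sub tendsto_const_nhds ?_
    refine Tendsto.const_div_atTop ?_ _
    refine Tendsto.const_mul_atTop (by norm_num) ?_
    refine tendsto_atTop_add_const_right _ _ ?_
    exact Tendsto.const_mul_atTop (by norm_num) tendsto_natCast_atTop_atTop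
  rw [sub_zero] at h2
  exact le_of_tendsto' h2 h1

end Pool.Agent.TS
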