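import Pool.Agent.helper31.TS.Basic

/-!
# TS: the matrices of a colour class
-/

set_option autoImplicit false

open Finset

namespace Pool.Agent.TS

variable {E V : Type} [Fintype E] [DecidableEq V]

/-- the vertices of colour `i` other than `r0` -/
abbrev RT (c : V → ZMod 3) (i : ZMod 3) (r0 : V) : Type := {r : V // c r = i ∧ r ≠ r0}

/-- the relation matrix of a colour class -/
def Tri.Lm (T : Tri E V) (c : V → ZMod 3) (i : ZMod 3) (r0 : V) :
    Matrix (RT c i r0) (RT c i r0) ℤ := fun r s =>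
  (if r = s then (T.deg r : ℤ) else 0) -
    ((#{e : E | T.tail e = r ∧ T.tail (T.kap e) = s} : ℕ) : ℤ)

/-- the transition matrix of a colour class -/
noncomputable def Tri.Pm (T : Tri E V) (c : V → ZMod 3) (i : ZMod 3) (r0 : V) :
    Matrix (RT c i r0) (RT c i r0) ℝ := fun r s =>
  ((#{e : E | T.tail e = r ∧ T.tail (T.kap e) = s} : ℕ) : ℝ) / (T.deg r : ℝ)

/-- the weights of a vertex -/
noncomputable def Tri.w1 (T : Tri E V) (v : V) : ℝ :=
  ∏ f with T.tail f = v, (1 / (T.deg (T.tail (T.a f)) : ℝ))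

noncomputable def Tri.w2 (T : Tri E V) (v : V) : ℝ :=
  ∏ f with T.tail f = v, (1 / (T.deg (T.tail (T.a⁻¹ f)) : ℝ))

/-- a vertex colouring -/
def Tri.IsCol (T : Tri E V) (c : V → ZMod 3) : Prop :=
  ∀ e, c (T.tail (T.a e)) = c (T.tail e) + 1

variable {T : Tri E V} {c : V → ZMod 3}

omit [Fintype E] [DecidableEq V] in
theorem Tri.IsCol.a (h : T.IsCol c) (e : E) : c (T.tail (T.a e)) = c (T.tail e) + 1 := h e

omit [Fintype E] [DecidableEq V] in
theorem Tri.IsCol.b (h : T.IsCol c) (e : E) : c (T.tail (T.b e)) = c (T.tail e) + 1 := by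
  rw [T.tail_b, h.a]

omit [Fintype E] [DecidableEq V] in
theorem Tri.IsCol.ainv (h : T.IsCol c) (e : E) : c (T.tail (T.a⁻¹ e)) = c (T.tail e) - 1 := by
  have h1 := h.a (T.a⁻¹ e)
  rw [self_inv] at h1
  rw [h1, add_sub_cancel_right]

omit [Fintype E] [DecidableEq V] in
theorem Tri.IsCol.binv (h : T.IsCol c) (e : E) : c (T.tail (T.b⁻¹ e)) = c (T.tail e) - 1 := by
  have h1 := h.b (T.b⁻¹ e)
  rw [self_inv] at h1
  rw [h1, add_sub_cancel_right]

omit [Fintype E] [DecidableEq V] in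
theorem Tri.IsCol.kap (h : T.IsCol c) (e : E) : c (T.tail (T.kap e)) = c (T.tail e) := by
  rw [T.kap_apply, h.ainv, h.b, add_sub_cancel_right]

omit [Fintype E] [DecidableEq V] in
theorem Tri.IsCol.kap2 (h : T.IsCol c) (e : E) : c (T.tail (T.kap2 e)) = c (T.tail e) := by
  rw [T.tail_kap2, h.kap]

omit [Fintype E] [DecidableEq V] in
/-- every colour occurs -/
theorem Tri.IsCol.surj (h : T.IsCol c) [Nonempty V] (i : ZMod 3) : ∃ r, c r = i := by
  obtain ⟨e, he⟩ := T.tail_surj (Classical.arbitrary V)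
  have h1 := h.a e
  have h2 := h.a (T.a e)
  have key : ∀ x i : ZMod 3, x = i ∨ x + 1 = i ∨ x + 1 + 1 = i := by decide
  rcases key (c (T.tail e)) i with h0 | h0 | h0
  · exact ⟨_, h0⟩
  · exact ⟨_, h1.trans h0⟩
  · exact ⟨_, (h2.trans (by rw [h1])).trans h0⟩

end Pool.Agent.TS
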