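import Pool.Agent.helper31.TS.MatDef

/-!
# TS-5 (TorA).  Elements of degree zero come from one colour class

PROOF.  Let `A_i` be the subgroup generated by the classes of the vertices of colour `i` and
`π : T.Grp → T.Grp ⧸ A_i`.  Let `v₁` be a vertex of colour `i + 1` (`IsCol.surj`) and `x = π (cls v₁)`.
Let `p : ZMod 3 → T.Grp ⧸ A_i`, `p i = 0`, `p (i+1) = x`, `p (i+2) = -x`.  Call a vertex `v` fine if
`π (cls v) = p (c v)`; vertices of colour `i` are fine.
Let `S = {e | tail e, tail (a e), tail (a⁻¹ e) are fine}`; it is closed under `a`.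
(*) If the white triangle of `f` (vertices `tail f, tail (a f), tail (a⁻¹ f)`, one of each colour) has a fine
vertex of colour `≠ i` then all its vertices are fine (`cls_rel f`, and the vertex of colour `i` is fine).
`S` is closed under `b`: let `e ∈ S`.  The white triangles of `e`, `b e`, `b⁻¹ e` have pairwise a common
vertex: `tail (b e) = tail (a e)` (`e` and `b e`), `tail (b⁻¹ e) = tail (b (b e)) = tail (a (b e))` (`b e` and
`b⁻¹ e`), `tail e = tail (b (b⁻¹ e)) = tail (a (b⁻¹ e))` (`b⁻¹ e` and `e`), of the colours `c + 1`, `c + 2`,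
`c` (`c` the colour of `tail e`); at most one of them has colour `i`.  If `tail (b e)` has not colour `i`,
use (*) for `b e`.  Otherwise use (*) for `b⁻¹ e` with the vertex `tail e`, and then (*) for `b e` with the
vertex `tail (b⁻¹ e)`.
`S` is nonempty: a white triangle at `v₁` (an edge `e` with `tail e = v₁`) is in it, by (*).  So `S` is
everything (`T.conn`) and all vertices are fine (`tail_surj`).  Hence `π y = φ y • x` for all `y` (both sides
are homomorphisms, `grp_induction`), and `φ y = 0` gives `π y = 0`, `y ∈ A_i`.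
-/

set_option autoImplicit false

open Finset

namespace Pool.Agent.TS

variable {E V : Type} [Fintype E] [Fintype V] [DecidableEq V]

/-- the subgroup generated by the vertices of colour `i` -/
def Tri.clsub (T : Tri E V) (c : V → ZMod 3) (i : ZMod 3) : AddSubgroup T.Grp :=
  AddSubgroup.closure {y | ∃ v, c v = i ∧ y = T.cls v}

omit [Fintype E] in
theorem Tri.mem_clsub_aux (T : Tri E V) {c : V → ZMod 3} (hc : T.IsCol c) [Nonempty V] (i : ZMod 3)
    (φ : T.Grp →+ ℤ)
    (hφ : ∀ v, φ (T.cls v) = if c v = i then 0 else if c v = i + 1 then 1 else -1)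
    {M : Type} [AddCommGroup M] (q : T.Grp →+ M) (hi : ∀ v, c v = i → q (T.cls v) = 0) :
    ∃ x : M, ∀ y, q y = φ y • x := by
  classical
  obtain ⟨v₁, hv₁⟩ := hc.surj (i + 1)
  have z1 : ∀ i : ZMod 3, i + 1 ≠ i := by decide
  have z2 : ∀ i : ZMod 3, i + 2 ≠ i := by decide
  have z3 : ∀ i : ZMod 3, i + 2 ≠ i + 1 := by decide
  have z4 : ∀ i j : ZMod 3, j ≠ i → j = i + 1 ∨ j = i + 2 := by decide
  have z5 : ∀ i : ZMod 3, i + 1 + 1 = i + 2 := by decide
  have z6 : ∀ i : ZMod 3, i + 2 + 1 = i := by decide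
  have z7 : ∀ i : ZMod 3, i + 2 - 1 = i + 1 := by decide
  set x := q (T.cls v₁) with hx
  set p : ZMod 3 → M := fun j => if j = i then 0 else if j = i + 1 then x else -x with hp
  have p0 : p i = 0 := by simp [hp]
  have p1 : p (i + 1) = x := by simp [hp, z1 i]
  have p2 : p (i + 2) = -x := by simp [hp, z2 i, z3 i]
  have hi' : ∀ v, c v = i → q (T.cls v) = p (c v) := fun v hv => by rw [hi v hv, hv, p0]
  have hrel : ∀ e, q (T.cls (T.tail e)) + q (T.cls (T.tail (T.a e))) +
      q (T.cls (T.tail (T.a⁻¹ e))) = 0 := by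
    intro e
    rw [← map_add, ← map_add, T.cls_rel, map_zero]
  have star0 : ∀ f, c (T.tail f) ≠ i → q (T.cls (T.tail f)) = p (c (T.tail f)) →
      q (T.cls (T.tail (T.a f))) = p (c (T.tail (T.a f))) ∧
      q (T.cls (T.tail (T.a⁻¹ f))) = p (c (T.tail (T.a⁻¹ f))) := by
    intro f h1 h2
    have h3 := hrel f
    have ca := hc.a f
    have cb := hc.ainv f
    rcases z4 i _ h1 with h | h
    · rw [h] at ca cb h2
      rw [z5] at ca
      rw [add_sub_cancel_right] at cb
      have h4 := hi _ cb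
      refine ⟨?_, hi' _ cb⟩
      rw [h2, h4, p1, add_zero] at h3
      rw [ca, p2]
      exact eq_neg_of_add_eq_zero_right h3
    · rw [h] at ca cb h2
      rw [z6] at ca
      rw [z7] at cb
      have h4 := hi _ ca
      refine ⟨hi' _ ca, ?_⟩
      rw [h2, h4, p2, add_zero] at h3
      rw [cb, p1]
      have := eq_neg_of_add_eq_zero_right h3
      rw [this, neg_neg]
  set S : Set E := {e | q (T.cls (T.tail e)) = p (c (T.tail e)) ∧
      q (T.cls (T.tail (T.a e))) = p (c (T.tail (T.a e))) ∧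
      q (T.cls (T.tail (T.a⁻¹ e))) = p (c (T.tail (T.a⁻¹ e)))} with hS
  have star1 : ∀ f, c (T.tail f) ≠ i → q (T.cls (T.tail f)) = p (c (T.tail f)) → f ∈ S :=
    fun f h1 h2 => ⟨h2, star0 f h1 h2⟩
  have hSa : ∀ e ∈ S, T.a e ∈ S := by
    rintro e ⟨h1, h2, h3⟩
    refine ⟨h2, ?_, ?_⟩
    · rw [T.a_a]; exact h3
    · rw [inv_self]; exact h1
  have star2 : ∀ f, c (T.tail (T.a f)) ≠ i →
      q (T.cls (T.tail (T.a f))) = p (c (T.tail (T.a f))) → f ∈ S := by
    intro f h1 h2
    have h3 := hSa _ (hSa _ (star1 _ h1 h2))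
    rw [T.a_cube] at h3
    exact h3
  have hSb : ∀ e ∈ S, T.b e ∈ S := by
    rintro e ⟨h1, h2, h3⟩
    by_cases h : c (T.tail (T.b e)) = i
    · have h4 : c (T.tail e) = i + 2 := by
        have h5 := hc.b e
        rw [h] at h5
        have z8 : ∀ i j : ZMod 3, i = j + 1 → j = i + 2 := by decide
        exact z8 _ _ h5
      have e1 : T.tail (T.a (T.b⁻¹ e)) = T.tail e := by
        rw [← T.tail_b, self_inv]
      have h6 : T.b⁻¹ e ∈ S := by
        refine star2 _ ?_ ?_
        · rw [e1, h4]; exact z2 i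
        · rw [e1]; exact h1
      have h7 : c (T.tail (T.b⁻¹ e)) = i + 1 := by
        rw [hc.binv, h4, z7]
      refine star2 _ ?_ ?_
      · rw [← T.tail_b, T.b_b, h7]; exact z1 i
      · rw [← T.tail_b, T.b_b]; exact h6.1
    · refine star1 _ h ?_
      rw [T.tail_b]; exact h2
  have hne : S.Nonempty := by
    obtain ⟨e, he⟩ := T.tail_surj v₁
    refine ⟨e, star1 _ ?_ ?_⟩
    · rw [he, hv₁]; exact z1 i
    · rw [he, hv₁, p1]
  have hSu := T.conn S hne fun e he => ⟨hSa e he, hSb e he⟩
  have hfine : ∀ v, q (T.cls v) = p (c v) := by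
    intro v
    obtain ⟨e, rfl⟩ := T.tail_surj v
    have : e ∈ S := by rw [hSu]; trivial
    exact this.1
  have hall : ∀ y, q y = φ y • x := by
    intro y
    have h := T.grp_induction (S := AddMonoidHom.eqLocus q ((zmultiplesHom _ x).comp φ)) (fun v => by
      show q (T.cls v) = φ (T.cls v) • x
      rw [hfine, hφ]
      simp only [hp]
      split_ifs <;> simp) y
    exact h
  exact ⟨x, hall⟩

theorem Tri.mem_clsub (T : Tri E V) {c : V → ZMod 3} (hc : T.IsCol c) [Nonempty V] (i : ZMod 3)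
    (φ : T.Grp →+ ℤ)
    (hφ : ∀ v, φ (T.cls v) = if c v = i then 0 else if c v = i + 1 then 1 else -1)
    {y : T.Grp} (hy : φ y = 0) : y ∈ T.clsub c i := by
  have hq0 : ∀ y, QuotientAddGroup.mk' (T.clsub c i) y = 0 ↔ y ∈ T.clsub c i :=
    fun y => QuotientAddGroup.eq_zero_iff y
  have h1 : ∀ v, c v = i → QuotientAddGroup.mk' (T.clsub c i) (T.cls v) = 0 := fun v hv =>
    (hq0 _).2 (AddSubgroup.subset_closure ⟨v, hv, rfl⟩)
  obtain ⟨x, hx⟩ := T.mem_clsub_aux hc i φ hφ (M := T.Grp ⧸ T.clsub c i)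
    (QuotientAddGroup.mk' (T.clsub c i)) h1
  have h2 : QuotientAddGroup.mk' (T.clsub c i) y = 0 := by
    refine (hx y).trans ?_
    rw [hy]
    exact zero_zsmul x
  exact (hq0 y).1 h2

end Pool.Agent.TS
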