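import Pool.Agent.helper31.TS.TorA
import Pool.Agent.helper31.TS.GrpRel
import Pool.Agent.helper31.TS.DetIdx

/-!
# TS-6 (TorB).  The order of the torsion subgroup is at most a determinant

PROOF.  By `exists_hom` there are homomorphisms `φ` (values `0, 1, -1` on the colours `i, i+1, i+2`) and `ψ`
(values `1, -1, 0`) from `T.Grp` to `ℤ` (the three vertices of a white triangle have the three colours,
`IsCol.a`, `IsCol.ainv`).  A torsion element `y` has `φ y = 0` and `ψ y = 0`; by `mem_clsub`, `y ∈ A_i`
(`clsub`).  Let `D` be the subgroup generated by `cls r0`.  If `y ∈ D` is torsion, `y = n • cls r0`,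
`0 = ψ y = n`, so `y = 0`.  So the map from the torsion subgroup to `T.Grp ⧸ D` is injective with image in
the image of `A_i`.
The homomorphism `g : (RT c i r0 → ℤ) →+ T.Grp ⧸ D`, `x ↦ ∑ r, x r • cls r`, has the image of `A_i` as its
range (`cls r0 = 0` in the quotient), and it kills the rows of `T.Lm c i r0`: for the row of `r`,
`deg r • cls r - ∑_s #{e | tail e = r, tail (kap e) = s} • cls s = deg r • cls r -
∑_{e with tail e = r} cls (tail (kap e)) = 0` modulo `cls r0` (`deg_smul_cls`; `tail (kap e)` has colour `i`,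
`IsCol.kap`, so it is `r0` or in `RT c i r0`).  So `g` factors through the quotient of `card_quot_rows`, which
has `|det|` elements, and the torsion subgroup, which injects into the range of `g`, has at most `|det|`
elements (`Nat.card_le_card_of_injective`, `Nat.card_le_card_of_surjective`; the quotient is finite because its
`Nat.card` is not zero).
-/

set_option autoImplicit false

open Finset

namespace Pool.Agent.TS

variable {E V : Type} [Fintype E] [Fintype V] [DecidableEq V]

private theorem tor_zero {G : Type*} [AddCommGroup G] (F : G →+ ℤ) {y : G}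
    (hy : y ∈ AddCommGroup.torsion G) : F y = 0 := by
  have h1 : IsOfFinAddOrder y := hy
  obtain ⟨n, hn, hny⟩ := isOfFinAddOrder_iff_nsmul_eq_zero.1 h1
  have h2 : (n : ℤ) * F y = 0 := by
    have h3 := congrArg F hny
    rw [map_nsmul, map_zero, nsmul_eq_mul] at h3
    exact h3
  rcases mul_eq_zero.1 h2 with h | h
  · have : n = 0 := by exact_mod_cast h
    omega
  · exact h

section gmap

variable {Q : Type*} [AddCommGroup Q]

omit [Fintype E] in
/-- the map from the functions on the vertices of colour `i` other than `r0` -/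
private def gmap (T : Tri E V) (c : V → ZMod 3) (i : ZMod 3) (r0 : V) (π : T.Grp →+ Q) :
    (RT c i r0 → ℤ) →+ Q where
  toFun := fun x => ∑ r : RT c i r0, x r • π (T.cls r.1)
  map_zero' := by simp
  map_add' := fun x y => by simp only [Pi.add_apply, add_smul, sum_add_distrib]

omit [Fintype E] in
private theorem gmap_apply (T : Tri E V) (c : V → ZMod 3) (i : ZMod 3) (r0 : V) (π : T.Grp →+ Q)
    (x : RT c i r0 → ℤ) : gmap T c i r0 π x = ∑ r : RT c i r0, x r • π (T.cls r.1) := rfl

omit [Fintype E] in
private theorem gmap_single (T : Tri E V) (c : V → ZMod 3) (i : ZMod 3) (r0 : V) (π : T.Grp →+ Q)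
    (r : RT c i r0) : gmap T c i r0 π (Pi.single r 1) = π (T.cls r.1) := by
  rw [gmap_apply, sum_eq_single r]
  · rw [Pi.single_eq_same, one_smul]
  · intro s _ hs
    rw [Pi.single_eq_of_ne hs, zero_smul]
  · intro h
    exact absurd (mem_univ r) h

private theorem gmap_row (T : Tri E V) {c : V → ZMod 3} (hc : T.IsCol c) {i : ZMod 3} {r0 : V}
    (π : T.Grp →+ Q) (hr0 : π (T.cls r0) = 0)
    (r : RT c i r0) : gmap T c i r0 π (T.Lm c i r0 r) = 0 := by
  classical
  rw [gmap_apply]
  have h1 : ∀ s : RT c i r0, T.Lm c i r0 r s • π (T.cls s.1) =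
      (if r = s then (T.deg r : ℤ) • π (T.cls s.1) else 0) -
        ∑ e with T.tail e = r.1 ∧ T.tail (T.kap e) = s.1, π (T.cls (T.tail (T.kap e))) := by
    intro s
    have h2 : ∑ e with T.tail e = r.1 ∧ T.tail (T.kap e) = s.1, π (T.cls (T.tail (T.kap e))) =
        ∑ e with T.tail e = r.1 ∧ T.tail (T.kap e) = s.1, π (T.cls s.1) := by
      refine sum_congr rfl fun e he => ?_
      rw [(mem_filter.1 he).2.2]
    rw [h2, sum_const, Tri.Lm, sub_smul]
    congr 1
    · split_ifs with h
      · rfl
      · rw [zero_smul]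
    · rw [natCast_zsmul]
  rw [sum_congr rfl fun s _ => h1 s, sum_sub_distrib, sum_ite_eq, if_pos (mem_univ _)]
  have h3 : ∑ s : RT c i r0, ∑ e with T.tail e = r.1 ∧ T.tail (T.kap e) = s.1,
      π (T.cls (T.tail (T.kap e))) =
      ∑ e with T.tail e = r.1, π (T.cls (T.tail (T.kap e))) := by
    simp only [sum_filter]
    rw [sum_comm]
    refine sum_congr rfl fun e _ => ?_
    by_cases he : T.tail e = r.1
    · simp only [he, true_and, if_true]
      by_cases hk : T.tail (T.kap e) = r0
      · rw [hk, hr0]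
        simp
      · have hck : c (T.tail (T.kap e)) = i := by rw [hc.kap, he, r.2.1]
        rw [sum_eq_single (⟨T.tail (T.kap e), hck, hk⟩ : RT c i r0)]
        · simp
        · intro s _ hs
          rw [if_neg]
          intro h
          exact hs (Subtype.ext h.symm)
        · intro h
          exact absurd (mem_univ _) h
    · simp [he]
  have h4 : (T.deg r.1 : ℤ) • π (T.cls r.1) =
      ∑ e with T.tail e = r.1, π (T.cls (T.tail (T.kap e))) := by
    rw [← map_zsmul, T.deg_smul_cls, map_sum]
  rw [h3, ← h4, sub_self]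

private theorem order_le_aux (T : Tri E V) {c : V → ZMod 3} (hc : T.IsCol c) {i : ZMod 3} {r0 : V}
    (hdet : (T.Lm c i r0).det ≠ 0) (π : T.Grp →+ Q) (hr0 : π (T.cls r0) = 0)
    (hmem : ∀ y ∈ AddCommGroup.torsion T.Grp, y ∈ T.clsub c i)
    (hinj : ∀ y ∈ AddCommGroup.torsion T.Grp, π y = 0 → y = 0) :
    T.order ≤ (T.Lm c i r0).det.natAbs := by
  classical
  set R := AddSubgroup.closure (Set.range fun r => T.Lm c i r0 r) with hR
  have hker : R ≤ (gmap T c i r0 π).ker := by
    rw [hR, AddSubgroup.closure_le]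
    rintro _ ⟨r, rfl⟩
    exact gmap_row T hc π hr0 r
  let g' : ((RT c i r0 → ℤ) ⧸ R) →+ Q :=
    QuotientAddGroup.lift R (gmap T c i r0 π) fun x hx => hker hx
  have hg' : ∀ x, g' (QuotientAddGroup.mk x) = gmap T c i r0 π x := fun x =>
    QuotientAddGroup.lift_mk _ _ _
  have hrange : ∀ y ∈ T.clsub c i, π y ∈ g'.range := by
    have hle : T.clsub c i ≤ g'.range.comap π := by
      rw [Tri.clsub, AddSubgroup.closure_le]
      rintro _ ⟨v, hv, rfl⟩
      show π (T.cls v) ∈ g'.range
      by_cases h : v = r0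
      · rw [h, hr0]
        exact g'.range.zero_mem
      · refine ⟨QuotientAddGroup.mk (Pi.single (⟨v, hv, h⟩ : RT c i r0) 1), ?_⟩
        rw [hg', gmap_single]
    exact fun y hy => hle hy
  have hcard := card_quot_rows (T.Lm c i r0) hdet
  have hfin : Finite ((RT c i r0 → ℤ) ⧸ R) := by
    refine Nat.finite_of_card_ne_zero ?_
    rw [hcard]
    exact Int.natAbs_ne_zero.2 hdet
  have hex : ∀ y : AddCommGroup.torsion T.Grp, ∃ q, g' q = π y.1 := fun y =>
    hrange _ (hmem _ y.2)
  choose q hq using hex
  have hqinj : Function.Injective q := by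
    intro y y' hyy
    have h1 : π y.1 = π y'.1 := by
      rw [← hq, ← hq, hyy]
    have h3 : y.1 - y'.1 ∈ AddCommGroup.torsion T.Grp :=
      (AddCommGroup.torsion T.Grp).sub_mem y.2 y'.2
    have h4 := hinj _ h3 (by rw [map_sub, h1, sub_self])
    exact Subtype.ext (sub_eq_zero.1 h4)
  have hle := Nat.card_le_card_of_injective q hqinj
  rw [Tri.order]
  exact hle.trans_eq hcard

end gmap

theorem Tri.order_le_det (T : Tri E V) {c : V → ZMod 3} (hc : T.IsCol c) {i : ZMod 3} {r0 : V}
    (h0 : c r0 = i) (hdet : (T.Lm c i r0).det ≠ 0) : T.order ≤ (T.Lm c i r0).det.natAbs := by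
  classical
  have k1 : ∀ x i : ZMod 3, (if x = i then (0 : ℤ) else if x = i + 1 then 1 else -1) +
      (if x + 1 = i then (0 : ℤ) else if x + 1 = i + 1 then 1 else -1) +
      (if x - 1 = i then (0 : ℤ) else if x - 1 = i + 1 then 1 else -1) = 0 := by decide
  have k2 : ∀ x i : ZMod 3, (if x = i then (1 : ℤ) else if x = i + 1 then -1 else 0) +
      (if x + 1 = i then (1 : ℤ) else if x + 1 = i + 1 then -1 else 0) +
      (if x - 1 = i then (1 : ℤ) else if x - 1 = i + 1 then -1 else 0) = 0 := by decide
  obtain ⟨φ, hφ⟩ := T.exists_hom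
    (fun v => if c v = i then (0 : ℤ) else if c v = i + 1 then 1 else -1) (by
      intro e
      simp only [hc.a, hc.ainv]
      exact k1 _ _)
  obtain ⟨ψ, hψ⟩ := T.exists_hom
    (fun v => if c v = i then (1 : ℤ) else if c v = i + 1 then -1 else 0) (by
      intro e
      simp only [hc.a, hc.ainv]
      exact k2 _ _)
  haveI : Nonempty V := ⟨r0⟩
  letI : AddCommGroup (T.Grp ⧸ AddSubgroup.zmultiples (T.cls r0)) :=
    { (inferInstance : AddGroup (T.Grp ⧸ AddSubgroup.zmultiples (T.cls r0))) with
      add_comm := by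
        intro x y
        obtain ⟨x, rfl⟩ := QuotientAddGroup.mk_surjective x
        obtain ⟨y, rfl⟩ := QuotientAddGroup.mk_surjective y
        exact congrArg QuotientAddGroup.mk (add_comm x y) }
  refine order_le_aux T hc hdet (QuotientAddGroup.mk' (AddSubgroup.zmultiples (T.cls r0))) ?_ ?_ ?_
  · exact (QuotientAddGroup.eq_zero_iff _).2 (AddSubgroup.mem_zmultiples _)
  · intro y hy
    exact T.mem_clsub hc i φ hφ (tor_zero φ hy)
  · intro y hy h2
    have h3 : y ∈ AddSubgroup.zmultiples (T.cls r0) := (QuotientAddGroup.eq_zero_iff _).1 h2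
    obtain ⟨k, hk⟩ := AddSubgroup.mem_zmultiples_iff.1 h3
    have h4 := tor_zero ψ hy
    rw [← hk, map_zsmul, hψ] at h4
    simp only [h0, if_true, smul_eq_mul, mul_one] at h4
    rw [h4, zero_smul] at hk
    exact hk.symm

end Pool.Agent.TS
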