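import Mathlib

/-!
# TS-10 (Tr).  Traces of powers and closed walks

PROOF.  By induction on `k`: `(P ^ (k+1)) r s` is the sum of `∏ j, x (w j)` over the walks `w : Fin (k+1) → α`
with `st (w 0) = r`, `tg (w (Fin.last k)) = s` and `tg (w j.castSucc) = st (w j.succ)` for `j : Fin k` (write
`P ^ (k+2) = P * P ^ (k+1)` and use `Fin.consEquiv` / `Fin.cons`, `Fin.prod_univ_succ`).  For the trace put
`r = s`; the condition `tg (w j) = st (w (j+1))` for all `j : Fin (k+1)` (with `Fin.last k + 1 = 0`) is the walk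
condition together with `tg (w (last)) = st (w 0)` (`Fin.last_add_one`, `Fin.coeSucc_eq_succ`).
-/

set_option autoImplicit false

open Finset

namespace Pool.Agent.TS

/-- closed walks of length `k + 1` (the addition in `Fin (k + 1)` is cyclic) -/
def CW {α ι : Type} (st tg : α → ι) (k : ℕ) (w : Fin (k + 1) → α) : Prop :=
  ∀ j, tg (w j) = st (w (j + 1))

instance {α ι : Type} [DecidableEq ι] (st tg : α → ι) (k : ℕ) (w : Fin (k + 1) → α) :
    Decidable (CW st tg k w) := inferInstanceAs (Decidable (∀ _, _))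

private theorem tr_walk {α ι : Type} [Fintype α] [Fintype ι] [DecidableEq ι] (st tg : α → ι)
    (x : α → ℝ) (P : Matrix ι ι ℝ) (hP : ∀ r s, P r s = ∑ e with st e = r ∧ tg e = s, x e)
    (k : ℕ) : ∀ r s, (P ^ (k + 1)) r s = ∑ w : Fin (k + 1) → α,
      if st (w 0) = r ∧ tg (w (Fin.last k)) = s ∧ ∀ j : Fin k, tg (w j.castSucc) = st (w j.succ)
      then ∏ j, x (w j) else 0 := by
  induction k with
  | zero =>
    intro r s
    have h0 : (P ^ (0 + 1)) r s = P r s := by rw [show P ^ (0 + 1) = P from pow_one P]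
    rw [h0, hP, sum_filter]
    refine Fintype.sum_equiv (Equiv.funUnique (Fin 1) α).symm _ _ fun e => ?_
    simp
  | succ k ih =>
    intro r s
    rw [pow_succ', Matrix.mul_apply]
    have h1 : ∀ t, P r t * (P ^ (k + 1)) t s = ∑ e : α, ∑ w : Fin (k + 1) → α,
        if tg e = t then (if st e = r ∧ st (w 0) = t ∧ tg (w (Fin.last k)) = s ∧
          ∀ j : Fin k, tg (w j.castSucc) = st (w j.succ) then x e * ∏ j, x (w j) else 0)
        else 0 := by
      intro t
      rw [hP, ih, sum_filter, sum_mul_sum]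
      refine sum_congr rfl fun e _ => sum_congr rfl fun w _ => ?_
      by_cases h1 : tg e = t
      · by_cases h2 : st e = r
        · by_cases h3 : st (w 0) = t ∧ tg (w (Fin.last k)) = s ∧
            ∀ j : Fin k, tg (w j.castSucc) = st (w j.succ)
          · rw [if_pos ⟨h2, h1⟩, if_pos h3, if_pos h1, if_pos ⟨h2, h3⟩]
          · rw [if_neg h3, mul_zero, if_pos h1, if_neg fun h => h3 h.2]
        · rw [if_neg fun h => h2 h.1, zero_mul, if_pos h1, if_neg fun h => h2 h.1]
      · rw [if_neg fun h => h1 h.2, zero_mul, if_neg h1]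
    rw [sum_congr rfl fun t _ => h1 t, sum_comm]
    have h2 : ∀ e : α, ∑ t : ι, ∑ w : Fin (k + 1) → α,
        (if tg e = t then (if st e = r ∧ st (w 0) = t ∧ tg (w (Fin.last k)) = s ∧
          ∀ j : Fin k, tg (w j.castSucc) = st (w j.succ) then x e * ∏ j, x (w j) else 0)
        else 0) = ∑ w : Fin (k + 1) → α, if st e = r ∧ tg e = st (w 0) ∧
          tg (w (Fin.last k)) = s ∧ (∀ j : Fin k, tg (w j.castSucc) = st (w j.succ))
          then x e * ∏ j, x (w j) else 0 := by
      intro e
      rw [sum_comm]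
      refine sum_congr rfl fun w _ => ?_
      rw [sum_ite_eq, if_pos (mem_univ _)]
      congr 1
      simp only [eq_iff_iff]
      constructor
      · rintro ⟨a1, a2, a3⟩
        exact ⟨a1, a2.symm, a3⟩
      · rintro ⟨a1, a2, a3⟩
        exact ⟨a1, a2.symm, a3⟩
    rw [sum_congr rfl fun e _ => h2 e, ← Fintype.sum_prod_type']
    refine Fintype.sum_equiv (Fin.consEquiv fun _ => α) _ _ fun ew => ?_
    obtain ⟨e, w⟩ := ew
    have h3 : (Fin.consEquiv fun _ : Fin (k + 2) => α) (e, w) = Fin.cons e w := rfl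
    rw [h3]
    have h4 : (∏ j, x ((Fin.cons e w : Fin (k + 2) → α) j)) = x e * ∏ j, x (w j) := by
      rw [Fin.prod_univ_succ]
      simp
    rw [h4]
    have h5 : (st e = r ∧ tg e = st (w 0) ∧ tg (w (Fin.last k)) = s ∧
        ∀ j : Fin k, tg (w j.castSucc) = st (w j.succ)) ↔
        (st ((Fin.cons e w : Fin (k + 2) → α) 0) = r ∧
        tg ((Fin.cons e w : Fin (k + 2) → α) (Fin.last (k + 1))) = s ∧
        ∀ j : Fin (k + 1), tg ((Fin.cons e w : Fin (k + 2) → α) j.castSucc) =
          st ((Fin.cons e w : Fin (k + 2) → α) j.succ)) := by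
      have e0 : (Fin.cons e w : Fin (k + 2) → α) 0 = e := rfl
      have e1 : (Fin.cons e w : Fin (k + 2) → α) (Fin.last (k + 1)) = w (Fin.last k) := by
        rw [← Fin.succ_last, Fin.cons_succ]
      rw [e0, e1]
      constructor
      · rintro ⟨a1, a2, a3, a4⟩
        refine ⟨a1, a3, fun j => ?_⟩
        refine Fin.cases ?_ (fun i => ?_) j
        · rw [Fin.castSucc_zero, e0, Fin.cons_succ]
          exact a2
        · rw [Fin.cons_succ, ← Fin.succ_castSucc, Fin.cons_succ]
          exact a4 i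
      · rintro ⟨a1, a2, a3⟩
        refine ⟨a1, ?_, a2, fun i => ?_⟩
        · have h := a3 0
          rw [Fin.castSucc_zero, e0, Fin.cons_succ] at h
          exact h
        · have h := a3 i.succ
          rw [Fin.cons_succ, ← Fin.succ_castSucc, Fin.cons_succ] at h
          exact h
    exact if_congr h5 rfl rfl

private theorem cw_iff {α ι : Type} (st tg : α → ι) (k : ℕ) (w : Fin (k + 1) → α) :
    CW st tg k w ↔ tg (w (Fin.last k)) = st (w 0) ∧
      ∀ j : Fin k, tg (w j.castSucc) = st (w j.succ) := by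
  constructor
  · intro h
    refine ⟨?_, fun j => ?_⟩
    · have h1 := h (Fin.last k)
      rwa [Fin.last_add_one] at h1
    · have h1 := h j.castSucc
      rwa [Fin.coeSucc_eq_succ] at h1
  · rintro ⟨h1, h2⟩ j
    refine Fin.lastCases ?_ (fun i => ?_) j
    · rw [Fin.last_add_one]
      exact h1
    · rw [Fin.coeSucc_eq_succ]
      exact h2 i

theorem trace_pow_eq {α ι : Type} [Fintype α] [Fintype ι] [DecidableEq ι] (st tg : α → ι)
    (x : α → ℝ) (P : Matrix ι ι ℝ) (hP : ∀ r s, P r s = ∑ e with st e = r ∧ tg e = s, x e)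
    (k : ℕ) : (P ^ (k + 1)).trace = ∑ w : Fin (k + 1) → α with CW st tg k w, ∏ j, x (w j) := by
  rw [Matrix.trace, sum_filter]
  simp only [Matrix.diag_apply]
  rw [sum_congr rfl fun r _ => tr_walk st tg x P hP k r r, sum_comm]
  refine sum_congr rfl fun w _ => ?_
  have h1 : ∀ r : ι, (if st (w 0) = r ∧ tg (w (Fin.last k)) = r ∧
      (∀ j : Fin k, tg (w j.castSucc) = st (w j.succ)) then ∏ j, x (w j) else 0) =
      if st (w 0) = r then (if CW st tg k w then ∏ j, x (w j) else 0) else 0 := by
    intro r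
    by_cases h : st (w 0) = r
    · rw [if_pos h]
      refine if_congr ?_ rfl rfl
      rw [cw_iff, h]
      constructor
      · rintro ⟨-, a2, a3⟩
        exact ⟨a2, a3⟩
      · rintro ⟨a2, a3⟩
        exact ⟨rfl, a2, a3⟩
    · rw [if_neg h, if_neg fun h' => h h'.1]
  rw [sum_congr rfl fun r _ => h1 r, sum_ite_eq, if_pos (mem_univ _)]

end Pool.Agent.TS
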