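import Pool.Agent.helper31.TS.MatDef
import Pool.Agent.helper31.TS.Tr
import Pool.Agent.helper31.TS.DetNe

/-!
# TS-11 (TrGe).  Closed walks along the orbits of `kap` and `kap2`

PROOF of `kap_ne_kap2`.  Suppose `kap^[j] e = kap2^[j] e` for all `j`, and `tail (kap^[j] e) ≠ r0` for all `j`,
`c (tail e) = c r0`.  Let `S = {kap^[j] e}`; by `kap2_eq`, `kap2 x = rho (kap x)`, so
`rho (kap^[j+1] e) = kap2 (kap^[j] e) = kap2^[j+1] e = kap^[j+1] e`, and `rho` fixes all `kap^[j] e`, `j ≥ 1`;
as `E` is finite, `kap` is periodic at `e` and `rho` fixes all elements of `S` (the case `j = 0` too).  So `S` is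
closed under `kap` and `rho`; by `closed_gen` (file `DetNe`, may be used: import it) every edge is in `S`, `a S`
or `a⁻¹ S`.  An edge `e₀` with `tail e₀ = r0`: it is not in `S`; `a⁻¹ e₀ ∈ S` or `a e₀ ∈ S` contradict the
colours (all elements of `S` have the colour `c r0`, `IsCol.kap`, `IsCol.a`, `IsCol.ainv`).

PROOF of `trace_sum_ge`.  Let `α = {e : E // c (tail e) = i ∧ tail e ≠ r0 ∧ tail (kap e) ≠ r0}`,
`st e = ⟨tail e, _⟩`, `tg e = ⟨tail (kap e), _⟩ : RT c i r0`, `x e = 1 / deg (tail e)`.  Then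
`Pm r s = ∑ e with st e = r ∧ tg e = s, x e`, and `trace_pow_eq` applies.  All terms are nonnegative.
For `σ = kap` or `kap2` and `e` with `c (tail e) = i` and `Av σ r0 e` (all `tail (σ^[j] e) ≠ r0`), with period
`p = minimalPeriod σ e ≥ 1` (`E` is finite, so `σ` is periodic), the sequence `w j = σ^[j] e`, `j : Fin p`, is a
closed walk (`tail (kap x) = tail (kap2 x)`, `tail_kap2`; so `tail (kap (w j)) = tail (σ (w j))`), of length
`p ≤ card E ≤ K`, with weight `∏ j, 1 / deg (tail (σ^[j] e))`.  For fixed `p` the walks for different `e` and the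
same `σ` are different (`w 0 = e`), and a `kap`-walk is not a `kap2`-walk (`kap_ne_kap2`; two periodic sequences of
the same period which agree for `j < p` agree for all `j`).  So `tr (Pm ^ p) ≥` the sum of the weights of the
`kap`-walks and `kap2`-walks of period `p`; divide by `p` and sum over `p = k + 1`, `k < K`.
-/

set_option autoImplicit false

open Finset

namespace Pool.Agent.TS

variable {E V : Type} [Fintype E] [Fintype V] [DecidableEq V]

/-- the orbit of `e` under `σ` avoids `r0` -/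
def Tri.Av (T : Tri E V) (σ : Equiv.Perm E) (r0 : V) (e : E) : Prop :=
  ∀ j : ℕ, T.tail (σ^[j] e) ≠ r0

omit [Fintype V] [DecidableEq V] in
private theorem TrGe_per (σ : Equiv.Perm E) (e : E) : 0 < Function.minimalPeriod σ e := by
  refine Function.minimalPeriod_pos_of_mem_periodicPts ?_
  exact (Function.Injective.mem_periodicPts σ.injective e)

omit [Fintype V] [DecidableEq V] in
private theorem TrGe_le (σ : Equiv.Perm E) (e : E) :
    Function.minimalPeriod σ e ≤ Fintype.card E := by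
  classical
  have h1 : (Finset.image (fun j => σ^[j] e) (range (Function.minimalPeriod σ e))).card =
      Function.minimalPeriod σ e := by
    rw [Finset.card_image_of_injOn, card_range]
    intro j hj k hk h
    exact Function.iterate_injOn_Iio_minimalPeriod (by simpa using hj) (by simpa using hk) h
  rw [← h1]
  exact Finset.card_le_univ _

theorem Tri.kap_ne_kap2 (T : Tri E V) {c : V → ZMod 3} (hc : T.IsCol c) {r0 : V} {e : E}
    (he : c (T.tail e) = c r0) (hav : T.Av T.kap r0 e) : ∃ j : ℕ, T.kap^[j] e ≠ T.kap2^[j] e := by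
  by_contra hcon
  push Not at hcon
  have hcol : ∀ j : ℕ, c (T.tail (T.kap^[j] e)) = c r0 := by
    intro j
    induction j with
    | zero => exact he
    | succ j ih =>
      rw [Function.iterate_succ_apply', hc.kap, ih]
  have hrho : ∀ j : ℕ, T.rho (T.kap^[j] e) = T.kap^[j] e := by
    intro j
    have hp := TrGe_per T.kap e
    obtain ⟨m, hm⟩ : ∃ m, j + Function.minimalPeriod T.kap e = m + 1 :=
      ⟨j + Function.minimalPeriod T.kap e - 1, by omega⟩
    have h1 : T.kap^[j] e = T.kap^[m + 1] e := by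
      rw [← hm, Function.iterate_add_apply, Function.iterate_minimalPeriod]
    rw [h1, Function.iterate_succ_apply', ← T.kap2_eq, hcon m, ← Function.iterate_succ_apply' (T.kap2),
      ← hcon (m + 1), Function.iterate_succ_apply', hcon m]
  obtain ⟨e0, he0⟩ := T.tail_surj r0
  have hgen := T.closed_gen (S := {x | ∃ j : ℕ, x = T.kap^[j] e}) ⟨e, 0, rfl⟩ (by
    rintro x ⟨j, rfl⟩
    exact ⟨j + 1, (Function.iterate_succ_apply' _ _ _).symm⟩) (by
    rintro x ⟨j, rfl⟩
    exact ⟨j, hrho j⟩) e0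
  have key : ∀ z : ZMod 3, z - 1 ≠ z ∧ z + 1 ≠ z := by decide
  rcases hgen with ⟨j, h1⟩ | ⟨j, h1⟩ | ⟨j, h1⟩
  · exact hav j (by rw [← h1, he0])
  · have h2 := hcol j
    rw [← h1, hc.ainv, he0] at h2
    exact (key _).1 h2
  · have h2 := hcol j
    rw [← h1, hc.a, he0] at h2
    exact (key _).2 h2

/-- the edges of a colour class which do not touch `r0` -/
private abbrev TrGe_al (T : Tri E V) (c : V → ZMod 3) (i : ZMod 3) (r0 : V) : Type :=
  {e : E // c (T.tail e) = i ∧ T.tail e ≠ r0 ∧ T.tail (T.kap e) ≠ r0}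

/-- the edges with an orbit of length `k + 1` avoiding `r0` -/
private abbrev TrGe_be (T : Tri E V) (c : V → ZMod 3) (i : ZMod 3) (r0 : V) (σ : Equiv.Perm E)
    (k : ℕ) : Type :=
  {e : E // (c (T.tail e) = i ∧ T.Av σ r0 e) ∧ Function.minimalPeriod σ e = k + 1}

private def TrGe_walk (T : Tri E V) {c : V → ZMod 3} {i : ZMod 3} {r0 : V} {σ : Equiv.Perm E}
    (h1 : ∀ x, T.tail (T.kap x) = T.tail (σ x)) (h2 : ∀ x, c (T.tail (σ x)) = c (T.tail x)) {k : ℕ}
    (e : TrGe_be T c i r0 σ k) : Fin (k + 1) → TrGe_al T c i r0 := fun j =>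
  ⟨σ^[j] e.1, by
    have h3 : ∀ j : ℕ, c (T.tail (σ^[j] e.1)) = i := by
      intro j
      induction j with
      | zero => exact e.2.1.1
      | succ j ih => rw [Function.iterate_succ_apply', h2, ih]
    exact h3 j, e.2.1.2 j, by
    rw [h1, ← Function.iterate_succ_apply' σ]
    exact e.2.1.2 (j + 1)⟩

omit [Fintype V] [DecidableEq V] in
private theorem TrGe_mod {σ : Equiv.Perm E} {e : E} {k : ℕ}
    (h : Function.minimalPeriod σ e = k + 1) (j : Fin (k + 1)) :
    σ^[((j + 1 : Fin (k + 1)) : ℕ)] e = σ (σ^[(j : ℕ)] e) := by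
  rw [← Function.iterate_succ_apply' σ]
  have h1 : ((j + 1 : Fin (k + 1)) : ℕ) = ((j : ℕ) + 1) % (k + 1) := by
    rw [Fin.val_add, Fin.val_one', Nat.add_mod_mod]
  have h2 := Function.iterate_mod_minimalPeriod_eq (f := σ) (x := e) (n := (j : ℕ) + 1)
  rw [h] at h2
  rw [h1]
  exact h2

open scoped Classical in
theorem Tri.trace_sum_ge (T : Tri E V) {c : V → ZMod 3} (hc : T.IsCol c) {i : ZMod 3} {r0 : V}
    (h0 : c r0 = i) {K : ℕ} (hK : Fintype.card E ≤ K) :
    ∑ e with c (T.tail e) = i ∧ T.Av T.kap r0 e,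
        (∏ j ∈ range (Function.minimalPeriod T.kap e), (1 / (T.deg (T.tail (T.kap^[j] e)) : ℝ))) /
          (Function.minimalPeriod T.kap e : ℝ) +
      ∑ e with c (T.tail e) = i ∧ T.Av T.kap2 r0 e,
        (∏ j ∈ range (Function.minimalPeriod T.kap2 e),
          (1 / (T.deg (T.tail (T.kap2^[j] e)) : ℝ))) /
          (Function.minimalPeriod T.kap2 e : ℝ) ≤
      ∑ k ∈ range K, (T.Pm c i r0 ^ (k + 1)).trace / (k + 1 : ℝ) := by
  -- the walks
  let st : TrGe_al T c i r0 → RT c i r0 := fun e => ⟨T.tail e.1, e.2.1, e.2.2.1⟩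
  let tg : TrGe_al T c i r0 → RT c i r0 := fun e =>
    ⟨T.tail (T.kap e.1), (hc.kap e.1).trans e.2.1, e.2.2.2⟩
  let x : TrGe_al T c i r0 → ℝ := fun e => 1 / (T.deg (T.tail e.1) : ℝ)
  have hP : ∀ r s, T.Pm c i r0 r s = ∑ e with st e = r ∧ tg e = s, x e := by
    intro r s
    have h1 : ∀ e ∈ (univ.filter fun e : TrGe_al T c i r0 => st e = r ∧ tg e = s),
        x e = 1 / (T.deg r.1 : ℝ) := by
      intro e he
      have h2 : st e = r := (mem_filter.1 he).2.1
      have h3 : T.tail e.1 = r.1 := congrArg Subtype.val h2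
      show 1 / (T.deg (T.tail e.1) : ℝ) = _
      rw [h3]
    rw [Finset.sum_congr rfl h1, Finset.sum_const, nsmul_eq_mul]
    show ((#{e : E | T.tail e = r ∧ T.tail (T.kap e) = s} : ℕ) : ℝ) / (T.deg r : ℝ) = _
    rw [div_eq_mul_one_div]
    congr 2
    symm
    refine Finset.card_bij (fun e _ => e.1) ?_ ?_ ?_
    · intro e he
      have h2 := (mem_filter.1 he).2
      exact mem_filter.2 ⟨mem_univ _, congrArg Subtype.val h2.1, congrArg Subtype.val h2.2⟩
    · intro e _ e' _ h
      exact Subtype.ext h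
    · intro e he
      have h2 := (mem_filter.1 he).2
      refine ⟨⟨e, by rw [h2.1]; exact r.2.1, by rw [h2.1]; exact r.2.2, by
        rw [h2.2]; exact s.2.2⟩, ?_, rfl⟩
      exact mem_filter.2 ⟨mem_univ _, Subtype.ext h2.1, Subtype.ext h2.2⟩
  have hk1 : ∀ x, T.tail (T.kap x) = T.tail (T.kap x) := fun _ => rfl
  have hk2 : ∀ x, T.tail (T.kap x) = T.tail (T.kap2 x) := fun x => (T.tail_kap2 x).symm
  have key : ∀ k : ℕ, (∑ e : TrGe_be T c i r0 T.kap k,
      ∏ j ∈ range (k + 1), (1 / (T.deg (T.tail (T.kap^[j] e.1)) : ℝ))) +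
      (∑ e : TrGe_be T c i r0 T.kap2 k,
        ∏ j ∈ range (k + 1), (1 / (T.deg (T.tail (T.kap2^[j] e.1)) : ℝ))) ≤
      (T.Pm c i r0 ^ (k + 1)).trace := by
    intro k
    rw [trace_pow_eq st tg x (T.Pm c i r0) hP k]
    let F : TrGe_be T c i r0 T.kap k ⊕ TrGe_be T c i r0 T.kap2 k → (Fin (k + 1) → TrGe_al T c i r0) :=
      Sum.elim (TrGe_walk T hk1 hc.kap) (TrGe_walk T hk2 hc.kap2)
    have hw0 : ∀ b b' (j : Fin (k + 1)), F b = F b' → (F b j).1 = (F b' j).1 := by
      intro b b' j h
      rw [h]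
    have hdis : ∀ (e : TrGe_be T c i r0 T.kap k) (e' : TrGe_be T c i r0 T.kap2 k),
        F (Sum.inl e) ≠ F (Sum.inr e') := by
      intro e e' h
      have h3 : ∀ j : Fin (k + 1), T.kap^[(j : ℕ)] e.1 = T.kap2^[(j : ℕ)] e'.1 := fun j =>
        hw0 _ _ j h
      have h4 : e.1 = e'.1 := h3 0
      obtain ⟨j, hj⟩ := T.kap_ne_kap2 hc (r0 := r0) (e := e.1) (by rw [h0]; exact e.2.1.1) e.2.1.2
      apply hj
      have h5 := Function.iterate_mod_minimalPeriod_eq (f := T.kap) (x := e.1) (n := j)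
      have h6 := Function.iterate_mod_minimalPeriod_eq (f := T.kap2) (x := e'.1) (n := j)
      rw [e.2.2] at h5
      rw [e'.2.2] at h6
      have h7 := h3 ⟨j % (k + 1), Nat.mod_lt _ (Nat.succ_pos _)⟩
      rw [← h5]
      refine h7.trans ?_
      rw [h4]
      exact h6
    have hF : Function.Injective F := by
      rintro (e | e) (e' | e') h
      · exact congrArg Sum.inl (Subtype.ext (hw0 _ _ 0 h))
      · exact absurd h (hdis e e')
      · exact absurd h.symm (hdis e' e)
      · exact congrArg Sum.inr (Subtype.ext (hw0 _ _ 0 h))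
    have hCW : ∀ b, CW st tg k (F b) := by
      rintro (e | e) j
      · apply Subtype.ext
        show T.tail (T.kap (T.kap^[(j : ℕ)] e.1)) =
          T.tail (T.kap^[((j + 1 : Fin (k + 1)) : ℕ)] e.1)
        rw [TrGe_mod e.2.2]
      · apply Subtype.ext
        show T.tail (T.kap (T.kap2^[(j : ℕ)] e.1)) =
          T.tail (T.kap2^[((j + 1 : Fin (k + 1)) : ℕ)] e.1)
        rw [TrGe_mod e.2.2, T.tail_kap2]
    have hsum : (∑ e : TrGe_be T c i r0 T.kap k,
      ∏ j ∈ range (k + 1), (1 / (T.deg (T.tail (T.kap^[j] e.1)) : ℝ))) +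
      (∑ e : TrGe_be T c i r0 T.kap2 k,
        ∏ j ∈ range (k + 1), (1 / (T.deg (T.tail (T.kap2^[j] e.1)) : ℝ))) =
        ∑ b, ∏ j, x (F b j) := by
      rw [Fintype.sum_sum_type]
      congr 1
      · refine Finset.sum_congr rfl fun e _ => ?_
        rw [Finset.prod_range]
        rfl
      · refine Finset.sum_congr rfl fun e _ => ?_
        rw [Finset.prod_range]
        rfl
    have hmap := Finset.sum_map univ ⟨F, hF⟩ (fun w => ∏ j, x (w j))
    rw [hsum]
    refine (le_of_eq hmap.symm).trans ?_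
    refine Finset.sum_le_sum_of_subset_of_nonneg ?_ ?_
    · intro w hw
      obtain ⟨b, _, rfl⟩ := Finset.mem_map.1 hw
      exact mem_filter.2 ⟨mem_univ _, hCW b⟩
    · intro w _ _
      exact Finset.prod_nonneg fun j _ => by positivity
  -- sort the orbits by their length
  have sort : ∀ σ : Equiv.Perm E, ∑ e with c (T.tail e) = i ∧ T.Av σ r0 e,
      (∏ j ∈ range (Function.minimalPeriod σ e), (1 / (T.deg (T.tail (σ^[j] e)) : ℝ))) /
        (Function.minimalPeriod σ e : ℝ) =
      ∑ k ∈ range K, (∑ e : TrGe_be T c i r0 σ k,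
        ∏ j ∈ range (k + 1), (1 / (T.deg (T.tail (σ^[j] e.1)) : ℝ))) / (k + 1 : ℝ) := by
    intro σ
    have s1 : ∀ e : E, (∏ j ∈ range (Function.minimalPeriod σ e),
        (1 / (T.deg (T.tail (σ^[j] e)) : ℝ))) / (Function.minimalPeriod σ e : ℝ) =
        ∑ k ∈ range K, if Function.minimalPeriod σ e = k + 1 then
          (∏ j ∈ range (k + 1), (1 / (T.deg (T.tail (σ^[j] e)) : ℝ))) / (k + 1 : ℝ) else 0 := by
      intro e
      have hp := TrGe_per σ e
      have hpK : Function.minimalPeriod σ e ≤ K := by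
        refine le_trans ?_ hK
        exact TrGe_le σ e
      obtain ⟨m, hm⟩ : ∃ m, Function.minimalPeriod σ e = m + 1 :=
        ⟨Function.minimalPeriod σ e - 1, by omega⟩
      rw [Finset.sum_eq_single m]
      · rw [if_pos hm, hm]
        push_cast
        rfl
      · intro k _ hk
        rw [if_neg]
        omega
      · intro h
        rw [mem_range] at h
        omega
    rw [Finset.sum_congr rfl fun e _ => s1 e, Finset.sum_comm]
    refine Finset.sum_congr rfl fun k _ => ?_
    rw [← Finset.sum_filter, Finset.filter_filter, Finset.sum_div]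
    rw [Finset.sum_subtype (p := fun e => (c (T.tail e) = i ∧ T.Av σ r0 e) ∧
      Function.minimalPeriod σ e = k + 1)]
    intro e
    simp
  rw [sort, sort, ← Finset.sum_add_distrib]
  refine Finset.sum_le_sum fun k _ => ?_
  rw [← add_div]
  exact div_le_div_of_nonneg_right (key k) (by positivity)

end Pool.Agent.TS
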